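import Mathlib

set_option autoImplicit false

/-!
# Counting solutions of `2 x + z = u` in finite sets of integers: size-only bounds

`cnt X Z S = #{(x,z) ∈ X × Z : 2x + z ∈ S}`.
-/

namespace Ap013

open Finset

/-- the number of pairs `(x,z) ∈ X × Z` with `2x+z ∈ S` -/
def cnt (X Z S : Finset ℤ) : ℕ := ((X ×ˢ Z).filter (fun p => 2 * p.1 + p.2 ∈ S)).card

/-- general count -/
private def gcnt (f : ℤ → ℤ → ℤ) (P Q R : Finset ℤ) : ℕ :=
  ((P ×ˢ Q).filter (fun p => f p.1 p.2 ∈ R)).card

private lemma gcnt_le (f : ℤ → ℤ → ℤ) (P Q R : Finset ℤ) : gcnt f P Q R ≤ P.card * Q.card := by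
  unfold gcnt
  exact (Finset.card_filter_le _ _).trans (Finset.card_product _ _).le

/-- one step of peeling -/
private lemma gcnt_step (f : ℤ → ℤ → ℤ)
    (hinj : ∀ p q q', f p q = f p q' → q = q')
    (hanti : ∀ p p' q q', f p q = f p' q' → p < p' → q' < q)
    (P Q R : Finset ℤ) (p0 q0 : ℤ) (hp0 : ∀ p ∈ P, p0 ≤ p) (hq0 : ∀ q ∈ Q, q ≤ q0) :
    gcnt f P Q R ≤ R.card + gcnt f (P.erase p0) (Q.erase q0) R := by
  classical
  unfold gcnt
  have hsub : (P ×ˢ Q).filter (fun p => f p.1 p.2 ∈ R) ⊆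
      ((P ×ˢ Q).filter (fun p => f p.1 p.2 ∈ R ∧ (p.1 = p0 ∨ p.2 = q0))) ∪
      (((P.erase p0) ×ˢ (Q.erase q0)).filter (fun p => f p.1 p.2 ∈ R)) := by
    intro p hp
    rw [Finset.mem_filter, Finset.mem_product] at hp
    rw [Finset.mem_union, Finset.mem_filter, Finset.mem_filter, Finset.mem_product,
      Finset.mem_product, Finset.mem_erase, Finset.mem_erase]
    by_cases h1 : p.1 = p0
    · left; exact ⟨hp.1, hp.2, Or.inl h1⟩
    · by_cases h2 : p.2 = q0
      · left; exact ⟨hp.1, hp.2, Or.inr h2⟩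
      · right; exact ⟨⟨⟨h1, hp.1.1⟩, ⟨h2, hp.1.2⟩⟩, hp.2⟩
  have hle := (Finset.card_le_card hsub).trans (Finset.card_union_le _ _)
  have hR : ((P ×ˢ Q).filter (fun p => f p.1 p.2 ∈ R ∧ (p.1 = p0 ∨ p.2 = q0))).card ≤ R.card := by
    apply Finset.card_le_card_of_injOn (fun p => f p.1 p.2)
    · intro p hp
      have hp' := Finset.mem_filter.mp (Finset.mem_coe.mp hp)
      exact Finset.mem_coe.mpr hp'.2.1
    · intro p hp p' hp' hf
      have h1 := Finset.mem_filter.mp (Finset.mem_coe.mp hp)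
      have h2 := Finset.mem_filter.mp (Finset.mem_coe.mp hp')
      rw [Finset.mem_product] at h1 h2
      have hf' : f p.1 p.2 = f p'.1 p'.2 := hf
      have a1 := hp0 _ h1.1.1
      have a2 := hp0 _ h2.1.1
      have b1 := hq0 _ h1.1.2
      have b2 := hq0 _ h2.1.2
      rcases lt_trichotomy p.1 p'.1 with h | h | h
      · exfalso
        have := hanti _ _ _ _ hf' h
        rcases h2.2.2 with h3 | h3
        · omega
        · omega
      · have : p.2 = p'.2 := by
          apply hinj p.1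
          rw [hf', h]
        exact Prod.ext h this
      · exfalso
        have := hanti _ _ _ _ hf'.symm h
        rcases h1.2.2 with h3 | h3
        · omega
        · omega
  omega

private lemma gcnt_chain (f : ℤ → ℤ → ℤ)
    (hinj : ∀ p q q', f p q = f p q' → q = q')
    (hanti : ∀ p p' q q', f p q = f p' q' → p < p' → q' < q)
    (R : Finset ℤ) (g : ℕ) :
    ∀ P Q : Finset ℤ, g ≤ P.card → g ≤ Q.card →
      gcnt f P Q R ≤ g * R.card + (P.card - g) * (Q.card - g) := by
  induction g with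
  | zero =>
    intro P Q _ _
    simpa using gcnt_le f P Q R
  | succ g ih =>
    intro P Q hP hQ
    have hPne : P.Nonempty := by
      rw [← Finset.card_pos]; omega
    have hQne : Q.Nonempty := by
      rw [← Finset.card_pos]; omega
    have hstep := gcnt_step f hinj hanti P Q R (P.min' hPne) (Q.max' hQne)
      (fun p hp => Finset.min'_le _ _ hp) (fun q hq => Finset.le_max' _ _ hq)
    have cP : (P.erase (P.min' hPne)).card = P.card - 1 :=
      Finset.card_erase_of_mem (Finset.min'_mem _ _)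
    have cQ : (Q.erase (Q.max' hQne)).card = Q.card - 1 :=
      Finset.card_erase_of_mem (Finset.max'_mem _ _)
    have h2 := ih (P.erase (P.min' hPne)) (Q.erase (Q.max' hQne)) (by omega) (by omega)
    rw [cP, cQ] at h2
    have e1 : P.card - 1 - g = P.card - (g + 1) := by omega
    have e2 : Q.card - 1 - g = Q.card - (g + 1) := by omega
    rw [e1, e2] at h2
    calc gcnt f P Q R ≤ R.card + gcnt f (P.erase (P.min' hPne)) (Q.erase (Q.max' hQne)) R := hstep
      _ ≤ R.card + (g * R.card + (P.card - (g + 1)) * (Q.card - (g + 1))) := by omega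
      _ = (g + 1) * R.card + (P.card - (g + 1)) * (Q.card - (g + 1)) := by ring

/-- pass from natural `g` to real `g` -/
private lemma real_of_nat (N a b s : ℕ) (h : ∀ g : ℕ, g ≤ a → g ≤ b → N ≤ g * s + (a - g) * (b - g))
    (g : ℝ) (h0 : 0 ≤ g) (ha : g ≤ a) (hb : g ≤ b) :
    (N : ℝ) ≤ g * s + (a - g) * (b - g) + 1 / 4 := by
  have hR : ∀ k : ℕ, k ≤ a → k ≤ b → (N : ℝ) ≤ k * s + (a - k) * (b - k) := by
    intro k ka kb
    have h1 := h k ka kb
    have h2 : (N : ℝ) ≤ ((k * s + (a - k) * (b - k) : ℕ) : ℝ) := by exact_mod_cast h1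
    rw [Nat.cast_add, Nat.cast_mul, Nat.cast_mul, Nat.cast_sub ka, Nat.cast_sub kb] at h2
    exact h2
  obtain ⟨k, hk⟩ : ∃ k : ℕ, k = ⌊g⌋₊ := ⟨_, rfl⟩
  have k1 : (k : ℝ) ≤ g := by rw [hk]; exact Nat.floor_le h0
  have k2 : g < k + 1 := by rw [hk]; exact Nat.lt_floor_add_one g
  have ka : k ≤ a := by
    have : (k : ℝ) ≤ (a : ℝ) := k1.trans ha
    exact_mod_cast this
  have kb : k ≤ b := by
    have : (k : ℝ) ≤ (b : ℝ) := k1.trans hb
    exact_mod_cast this
  have hk0 := hR k ka kb
  rcases eq_or_lt_of_le k1 with he | hlt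
  · rw [he] at hk0
    linarith
  · have ka' : k + 1 ≤ a := by
      have : (k : ℝ) < (a : ℝ) := lt_of_lt_of_le hlt ha
      have : k < a := by exact_mod_cast this
      omega
    have kb' : k + 1 ≤ b := by
      have : (k : ℝ) < (b : ℝ) := lt_of_lt_of_le hlt hb
      have : k < b := by exact_mod_cast this
      omega
    have hk1 := hR (k + 1) ka' kb'
    push_cast at hk1
    -- convex combination
    have θ0 : 0 ≤ g - k := by linarith
    have θ1 : 0 ≤ 1 - (g - k) := by linarith
    nlinarith [mul_le_mul_of_nonneg_left hk0 θ1, mul_le_mul_of_nonneg_left hk1 θ0,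
      sq_nonneg (g - k - 1 / 2)]

/-- `cnt` in terms of the pairs `(x,u)`, `u = 2x+z` -/
private lemma cnt_eq_XS (X Z S : Finset ℤ) :
    cnt X Z S = gcnt (fun x q => -q - 2 * x) X (S.image (fun u => -u)) Z := by
  classical
  unfold cnt gcnt
  apply Finset.card_nbij' (fun p => (p.1, -(2 * p.1 + p.2))) (fun p => (p.1, -p.2 - 2 * p.1))
  · intro p hp
    have hp' := Finset.mem_filter.mp (Finset.mem_coe.mp hp)
    rw [Finset.mem_product] at hp'
    apply Finset.mem_coe.mpr
    rw [Finset.mem_filter, Finset.mem_product, Finset.mem_image]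
    refine ⟨⟨hp'.1.1, ⟨_, hp'.2, rfl⟩⟩, ?_⟩
    have : -(-(2 * p.1 + p.2)) - 2 * p.1 = p.2 := by ring
    simp only [this]
    exact hp'.1.2
  · intro p hp
    have hp' := Finset.mem_filter.mp (Finset.mem_coe.mp hp)
    rw [Finset.mem_product, Finset.mem_image] at hp'
    apply Finset.mem_coe.mpr
    rw [Finset.mem_filter, Finset.mem_product]
    obtain ⟨⟨h1, ⟨u, hu, hup⟩⟩, h2⟩ := hp'
    refine ⟨⟨h1, h2⟩, ?_⟩
    have : 2 * p.1 + (-p.2 - 2 * p.1) = u := by rw [← hup]; ring
    simp only [this]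
    exact hu
  · intro p _
    ext
    · rfl
    · simp
  · intro p _
    ext
    · rfl
    · simp

/-- `cnt` in terms of the pairs `(z,u)`, `u = 2x+z` -/
private lemma cnt_eq_ZS (X Z S : Finset ℤ) :
    cnt X Z S = gcnt (fun z q => -q - z) Z (S.image (fun u => -u)) (X.image (fun x => 2 * x)) := by
  classical
  unfold cnt gcnt
  apply Finset.card_nbij' (fun p => (p.2, -(2 * p.1 + p.2))) (fun p => ((-p.2 - p.1) / 2, p.1))
  · intro p hp
    have hp' := Finset.mem_filter.mp (Finset.mem_coe.mp hp)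
    rw [Finset.mem_product] at hp'
    apply Finset.mem_coe.mpr
    rw [Finset.mem_filter, Finset.mem_product, Finset.mem_image, Finset.mem_image]
    refine ⟨⟨hp'.1.2, ⟨_, hp'.2, rfl⟩⟩, ?_⟩
    refine ⟨p.1, hp'.1.1, ?_⟩
    ring
  · intro p hp
    have hp' := Finset.mem_filter.mp (Finset.mem_coe.mp hp)
    rw [Finset.mem_product, Finset.mem_image, Finset.mem_image] at hp'
    apply Finset.mem_coe.mpr
    rw [Finset.mem_filter, Finset.mem_product]
    obtain ⟨⟨h1, ⟨u, hu, hup⟩⟩, ⟨x, hx, hxp⟩⟩ := hp'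
    have e1 : (-p.2 - p.1) / 2 = x := by
      have hxp' : 2 * x = -p.2 - p.1 := hxp
      omega
    simp only [e1]
    refine ⟨⟨hx, h1⟩, ?_⟩
    have : 2 * x + p.1 = u := by
      have hxp' : 2 * x = -p.2 - p.1 := hxp
      have hup' : -u = p.2 := hup
      omega
    rw [this]
    exact hu
  · intro p _
    ext
    · simp only
      omega
    · rfl
  · intro p hp
    have hp' := Finset.mem_filter.mp (Finset.mem_coe.mp hp)
    rw [Finset.mem_product, Finset.mem_image, Finset.mem_image] at hp'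
    obtain ⟨⟨h1, ⟨u, hu, hup⟩⟩, ⟨x, hx, hxp⟩⟩ := hp'
    have hxp' : 2 * x = -p.2 - p.1 := hxp
    ext
    · rfl
    · simp only
      omega

private lemma card_neg_image (S : Finset ℤ) : (S.image (fun u => -u)).card = S.card :=
  Finset.card_image_of_injective _ neg_injective

private lemma card_two_image (X : Finset ℤ) : (X.image (fun x => 2 * x)).card = X.card := by
  apply Finset.card_image_of_injective
  intro a b h
  have h' : 2 * a = 2 * b := h
  omega

theorem cnt_le_XZ (X Z S : Finset ℤ) : cnt X Z S ≤ X.card * Z.card :=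
  (Finset.card_filter_le _ _).trans (Finset.card_product _ _).le

theorem cnt_le_XS (X Z S : Finset ℤ) : cnt X Z S ≤ X.card * S.card := by
  rw [cnt_eq_XS, ← card_neg_image S]
  exact gcnt_le _ _ _ _

theorem cnt_le_ZS (X Z S : Finset ℤ) : cnt X Z S ≤ Z.card * S.card := by
  rw [cnt_eq_ZS, ← card_neg_image S]
  exact gcnt_le _ _ _ _

/-- natural number version of `chain_S` -/
theorem chain_S_nat (X Z S : Finset ℤ) (g : ℕ) (hX : g ≤ X.card) (hZ : g ≤ Z.card) :
    cnt X Z S ≤ g * S.card + (X.card - g) * (Z.card - g) := by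
  have := gcnt_chain (fun x z => 2 * x + z) (by intro p q q' h; simpa using h)
    (by intro p p' q q' h hlt; omega) S g X Z hX hZ
  exact this

/-- natural number version of `chain_Z` -/
theorem chain_Z_nat (X Z S : Finset ℤ) (g : ℕ) (hX : g ≤ X.card) (hS : g ≤ S.card) :
    cnt X Z S ≤ g * Z.card + (X.card - g) * (S.card - g) := by
  rw [cnt_eq_XS]
  have := gcnt_chain (fun x q => -q - 2 * x) (by intro p q q' h; omega)
    (by intro p p' q q' h hlt; omega) Z g X (S.image (fun u => -u)) hX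
    (by rw [card_neg_image]; exact hS)
  rw [card_neg_image] at this
  exact this

/-- natural number version of `chain_X` -/
theorem chain_X_nat (X Z S : Finset ℤ) (g : ℕ) (hZ : g ≤ Z.card) (hS : g ≤ S.card) :
    cnt X Z S ≤ g * X.card + (Z.card - g) * (S.card - g) := by
  rw [cnt_eq_ZS]
  have := gcnt_chain (fun z q => -q - z) (by intro p q q' h; omega)
    (by intro p p' q q' h hlt; omega) (X.image (fun x => 2 * x)) g Z
    (S.image (fun u => -u)) hZ (by rw [card_neg_image]; exact hS)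
  rw [card_neg_image, card_two_image] at this
  exact this

theorem chain_S (X Z S : Finset ℤ) (g : ℝ) (h0 : 0 ≤ g) (hX : g ≤ X.card) (hZ : g ≤ Z.card) :
    (cnt X Z S : ℝ) ≤ g * S.card + (X.card - g) * (Z.card - g) + 1 / 4 :=
  real_of_nat _ _ _ _ (fun k h1 h2 => chain_S_nat X Z S k h1 h2) g h0 hX hZ

theorem chain_Z (X Z S : Finset ℤ) (g : ℝ) (h0 : 0 ≤ g) (hX : g ≤ X.card) (hS : g ≤ S.card) :
    (cnt X Z S : ℝ) ≤ g * Z.card + (X.card - g) * (S.card - g) + 1 / 4 :=
  real_of_nat _ _ _ _ (fun k h1 h2 => chain_Z_nat X Z S k h1 h2) g h0 hX hS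

theorem chain_X (X Z S : Finset ℤ) (g : ℝ) (h0 : 0 ≤ g) (hZ : g ≤ Z.card) (hS : g ≤ S.card) :
    (cnt X Z S : ℝ) ≤ g * X.card + (Z.card - g) * (S.card - g) + 1 / 4 :=
  real_of_nat _ _ _ _ (fun k h1 h2 => chain_X_nat X Z S k h1 h2) g h0 hZ hS

/-- affine invariance of `cnt` -/
theorem cnt_affine (X Z S : Finset ℤ) (c d : ℤ) (hd : d ≠ 0) :
    cnt (X.image (fun x => c + d * x)) (Z.image (fun x => c + d * x))
      (S.image (fun x => 3 * c + d * x)) = cnt X Z S := by
  classical
  unfold cnt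
  symm
  apply Finset.card_bij (fun p _ => (c + d * p.1, c + d * p.2))
  · intro p hp
    rw [Finset.mem_filter, Finset.mem_product] at hp
    rw [Finset.mem_filter, Finset.mem_product]
    refine ⟨⟨Finset.mem_image_of_mem _ hp.1.1, Finset.mem_image_of_mem _ hp.1.2⟩, ?_⟩
    rw [Finset.mem_image]
    exact ⟨_, hp.2, by ring⟩
  · intro p _ p' _ h
    have h1 : c + d * p.1 = c + d * p'.1 := congrArg Prod.fst h
    have h2 : c + d * p.2 = c + d * p'.2 := congrArg Prod.snd h
    have h1' : d * p.1 = d * p'.1 := by linarith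
    have h2' : d * p.2 = d * p'.2 := by linarith
    exact Prod.ext (mul_left_cancel₀ hd h1') (mul_left_cancel₀ hd h2')
  · intro q hq
    rw [Finset.mem_filter, Finset.mem_product, Finset.mem_image, Finset.mem_image,
      Finset.mem_image] at hq
    obtain ⟨⟨⟨x, hx, hxq⟩, ⟨z, hz, hzq⟩⟩, ⟨u, hu, huq⟩⟩ := hq
    refine ⟨(x, z), ?_, ?_⟩
    · rw [Finset.mem_filter, Finset.mem_product]
      refine ⟨⟨hx, hz⟩, ?_⟩
      have : d * u = d * (2 * x + z) := by
        rw [← hxq, ← hzq] at huq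
        have : 3 * c + d * u = 3 * c + d * (2 * x + z) := by rw [huq]; ring
        linarith
      have h3 := mul_left_cancel₀ hd this
      simp only
      rw [← h3]
      exact hu
    · exact Prod.ext hxq hzq

end Ap013
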