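import Mathlib
import Pool.Agent.H.MP_4074ca_co.Chain

namespace Ap013

/-- number of `(x, z) ∈ B²` such that `(2x+z)/3 ∈ B` -/
def TT (B : Finset ℤ) : ℕ := cnt B B (B.image (fun y => 3 * y))

/-- even part -/
def evs (B : Finset ℤ) : Finset ℤ := B.filter (fun x => x % 2 = 0)

/-- odd part -/
def ods (B : Finset ℤ) : Finset ℤ := B.filter (fun x => x % 2 = 1)

/-- even part, `x = 2 e (mod 4)`, class `j * i` modulo 3 -/
def PP (B : Finset ℤ) (j : ℤ) (i : Fin 3) (e : Fin 2) : Finset ℤ :=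
  B.filter (fun x => x % 4 = 2 * ((e : ℕ) : ℤ) ∧ x % 3 = (j * ((i : ℕ) : ℤ)) % 3)

/-- odd part, class `j * i` modulo 3 -/
def QQ (B : Finset ℤ) (j : ℤ) (i : Fin 3) : Finset ℤ :=
  B.filter (fun x => x % 2 = 1 ∧ x % 3 = (j * ((i : ℕ) : ℤ)) % 3)

/-- part of `S` congruent to `2 e` modulo 4 -/
def SS (S : Finset ℤ) (e : Fin 2) : Finset ℤ := S.filter (fun u => u % 4 = 2 * ((e : ℕ) : ℤ))

end Ap013
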