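import Mathlib
import Pool.Agent.H.MP_4074ca_co.Defs

namespace Ap013

open Finset

lemma cnt_le_sum {ι : Type*} (K : Finset ι) (X Z S : Finset ℤ) (A C D : ι → Finset ℤ)
    (h : ∀ x ∈ X, ∀ z ∈ Z, 2 * x + z ∈ S → ∃ k ∈ K, x ∈ A k ∧ z ∈ C k ∧ 2 * x + z ∈ D k) :
    cnt X Z S ≤ ∑ k ∈ K, cnt (A k) (C k) (D k) := by
  let F : ι → Finset (ℤ × ℤ) := fun k => (A k ×ˢ C k).filter (fun p => 2 * p.1 + p.2 ∈ D k)
  have h1 : (X ×ˢ Z).filter (fun p => 2 * p.1 + p.2 ∈ S) ⊆ K.biUnion F := by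
    rintro ⟨x, z⟩ hp
    rw [mem_filter, mem_product] at hp
    obtain ⟨k, hk, h1, h2, h3⟩ := h x hp.1.1 z hp.1.2 hp.2
    exact mem_biUnion.2 ⟨k, hk, mem_filter.2 ⟨mem_product.2 ⟨h1, h2⟩, h3⟩⟩
  have h2 : (K.biUnion F).card ≤ ∑ k ∈ K, (F k).card := card_biUnion_le
  exact (card_le_card h1).trans h2

lemma cnt_le_add (X Z S A C D A' C' D' : Finset ℤ)
    (h : ∀ x ∈ X, ∀ z ∈ Z, 2 * x + z ∈ S → (x ∈ A ∧ z ∈ C ∧ 2 * x + z ∈ D) ∨
      (x ∈ A' ∧ z ∈ C' ∧ 2 * x + z ∈ D')) :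
    cnt X Z S ≤ cnt A C D + cnt A' C' D' := by
  have := cnt_le_sum (univ : Finset (Fin 2)) X Z S ![A, A'] ![C, C'] ![D, D'] (by
    intro x hx z hz hs
    rcases h x hx z hz hs with h | h
    · exact ⟨0, mem_univ _, by simpa using h⟩
    · exact ⟨1, mem_univ _, by simpa using h⟩)
  simpa [Fin.sum_univ_two] using this

lemma exists_cls (j : ℤ) (hj : j = 1 ∨ j = 2) (x : ℤ) :
    ∃ i : Fin 3, x % 3 = (j * ((i : ℕ) : ℤ)) % 3 := by
  have h3 : x % 3 = 0 ∨ x % 3 = 1 ∨ x % 3 = 2 := by omega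
  rcases hj with rfl | rfl <;> rcases h3 with h | h | h
  · exact ⟨0, by rw [h]; rfl⟩
  · exact ⟨1, by rw [h]; rfl⟩
  · exact ⟨2, by rw [h]; rfl⟩
  · exact ⟨0, by rw [h]; rfl⟩
  · exact ⟨2, by rw [h]; rfl⟩
  · exact ⟨1, by rw [h]; rfl⟩

lemma cls_succ (j : ℤ) (hj : j = 1 ∨ j = 2) (i : Fin 3) :
    (j * (((i + 1 : Fin 3) : ℕ) : ℤ)) % 3 = ((j * ((i : ℕ) : ℤ)) % 3 + j) % 3 := by
  rcases hj with rfl | rfl <;> fin_cases i <;> rfl

lemma exists_par (z : ℤ) (hz : z % 2 = 0) : ∃ e : Fin 2, z % 4 = 2 * ((e : ℕ) : ℤ) := by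
  have : z % 4 = 0 ∨ z % 4 = 2 := by omega
  rcases this with h | h
  · exact ⟨0, by rw [h]; rfl⟩
  · exact ⟨1, by rw [h]; rfl⟩

lemma par_flip (e : Fin 2) : (((1 - e : Fin 2) : ℕ) : ℤ) = 1 - ((e : ℕ) : ℤ) := by
  fin_cases e <;> rfl

lemma par_le (e : Fin 2) : ((e : ℕ) : ℤ) = 0 ∨ ((e : ℕ) : ℤ) = 1 := by
  fin_cases e
  · left; rfl
  · right; rfl

lemma mem_evs {B : Finset ℤ} {x : ℤ} : x ∈ evs B ↔ x ∈ B ∧ x % 2 = 0 := by simp [evs]
lemma mem_ods {B : Finset ℤ} {x : ℤ} : x ∈ ods B ↔ x ∈ B ∧ x % 2 = 1 := by simp [ods]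
lemma mem_PP {B : Finset ℤ} {j : ℤ} {i : Fin 3} {e : Fin 2} {x : ℤ} :
    x ∈ PP B j i e ↔ x ∈ B ∧ x % 4 = 2 * ((e : ℕ) : ℤ) ∧ x % 3 = (j * ((i : ℕ) : ℤ)) % 3 := by
  simp [PP]
lemma mem_QQ {B : Finset ℤ} {j : ℤ} {i : Fin 3} {x : ℤ} :
    x ∈ QQ B j i ↔ x ∈ B ∧ x % 2 = 1 ∧ x % 3 = (j * ((i : ℕ) : ℤ)) % 3 := by
  simp [QQ]
lemma mem_SS {S : Finset ℤ} {e : Fin 2} {x : ℤ} :
    x ∈ SS S e ↔ x ∈ S ∧ x % 4 = 2 * ((e : ℕ) : ℤ) := by simp [SS]

theorem cnt_split_le (B S : Finset ℤ) (j : ℤ) (hj : j = 1 ∨ j = 2) (hS : ∀ u ∈ S, u % 3 = j)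
    (hS2 : ∀ u ∈ S, u % 2 = 0) :
    cnt B B S ≤ cnt (evs B) (evs B) S +
      ∑ i : Fin 3, ∑ e : Fin 2, cnt (QQ B j i) (PP B j (i + 1) e) (SS S (1 - e)) := by
  have h1 : cnt B B S ≤ cnt (evs B) (evs B) S + cnt (ods B) (evs B) S := by
    apply cnt_le_add
    intro x hx z hz hs
    have h2 := hS2 _ hs
    have hx2 : x % 2 = 0 ∨ x % 2 = 1 := by omega
    have hz2 : z % 2 = 0 := by omega
    rcases hx2 with h | h
    · left; exact ⟨mem_evs.2 ⟨hx, h⟩, mem_evs.2 ⟨hz, hz2⟩, hs⟩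
    · right; exact ⟨mem_ods.2 ⟨hx, h⟩, mem_evs.2 ⟨hz, hz2⟩, hs⟩
  refine h1.trans (Nat.add_le_add_left ?_ _)
  rw [← Finset.sum_product']
  apply cnt_le_sum ((univ : Finset (Fin 3)) ×ˢ (univ : Finset (Fin 2))) (ods B) (evs B) S
    (fun k => QQ B j k.1) (fun k => PP B j (k.1 + 1) k.2) (fun k => SS S (1 - k.2))
  intro x hx z hz hs
  rw [mem_ods] at hx
  rw [mem_evs] at hz
  obtain ⟨i, hi⟩ := exists_cls j hj x
  obtain ⟨e, he⟩ := exists_par z hz.2
  refine ⟨(i, e), by simp, mem_QQ.2 ⟨hx.1, hx.2, hi⟩, mem_PP.2 ⟨hz.1, he, ?_⟩, mem_SS.2 ⟨hs, ?_⟩⟩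
  · have := hS _ hs
    have h3 := cls_succ j hj i
    simp only
    rw [h3, ← hi]
    rcases hj with rfl | rfl <;> omega
  · simp only
    rw [par_flip]
    rcases par_le e with h | h <;> rw [h] at he ⊢ <;> omega

theorem cnt_even_le (B S : Finset ℤ) (j : ℤ) (hj : j = 1 ∨ j = 2) (hS : ∀ u ∈ S, u % 3 = j) :
    cnt (evs B) (evs B) S ≤
      ∑ i : Fin 3, ∑ e : Fin 2, cnt (PP B j i 0 ∪ PP B j i 1) (PP B j (i + 1) e) (SS S e) := by
  rw [← Finset.sum_product']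
  apply cnt_le_sum ((univ : Finset (Fin 3)) ×ˢ (univ : Finset (Fin 2))) (evs B) (evs B) S
    (fun k => PP B j k.1 0 ∪ PP B j k.1 1) (fun k => PP B j (k.1 + 1) k.2) (fun k => SS S k.2)
  intro x hx z hz hs
  rw [mem_evs] at hx hz
  obtain ⟨i, hi⟩ := exists_cls j hj x
  obtain ⟨e, he⟩ := exists_par z hz.2
  refine ⟨(i, e), by simp, ?_, mem_PP.2 ⟨hz.1, he, ?_⟩, mem_SS.2 ⟨hs, ?_⟩⟩
  · rw [mem_union, mem_PP, mem_PP]
    have : x % 4 = 0 ∨ x % 4 = 2 := by omega
    rcases this with h | h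
    · left; exact ⟨hx.1, by rw [h]; rfl, hi⟩
    · right; exact ⟨hx.1, by rw [h]; rfl, hi⟩
  · have := hS _ hs
    have h3 := cls_succ j hj i
    simp only
    rw [h3, ← hi]
    rcases hj with rfl | rfl <;> omega
  · simp only
    rcases par_le e with h | h <;> rw [h] at he ⊢ <;> omega

lemma card_PP_union (B : Finset ℤ) (j : ℤ) (i : Fin 3) :
    (PP B j i 0 ∪ PP B j i 1).card = (PP B j i 0).card + (PP B j i 1).card := by
  apply card_union_of_disjoint
  rw [disjoint_left]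
  intro x h0 h1
  rw [mem_PP] at h0 h1
  have a := h0.2.1
  have b := h1.2.1
  simp at a b
  omega

lemma mem_three {B : Finset ℤ} {u : ℤ} (h : u ∈ B.image (fun y => 3 * y)) : ∃ y ∈ B, 3 * y = u := by
  simpa using h

theorem TT_split (B : Finset ℤ) (j : ℤ) (hj : j = 1 ∨ j = 2) :
    (TT B : ℝ) ≤ TT (evs B) + TT (ods B) +
      ∑ i : Fin 3, ((QQ B j i).card : ℝ) * ((PP B j i 0).card + (PP B j i 1).card) +
      ((ods B).card : ℝ) ^ 2 / 2 := by
  -- split
  have h1 : TT B ≤ (cnt (evs B) (evs B) ((evs B).image (fun y => 3 * y)) +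
      cnt (ods B) (ods B) ((ods B).image (fun y => 3 * y))) +
      (cnt (ods B) (evs B) ((evs B).image (fun y => 3 * y)) +
      cnt (evs B) (ods B) ((ods B).image (fun y => 3 * y))) := by
    have := cnt_le_sum (univ : Finset (Fin 4)) B B (B.image (fun y => 3 * y))
      ![evs B, ods B, ods B, evs B] ![evs B, ods B, evs B, ods B]
      ![(evs B).image (fun y => 3 * y), (ods B).image (fun y => 3 * y),
        (evs B).image (fun y => 3 * y), (ods B).image (fun y => 3 * y)] (by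
      intro x hx z hz hs
      obtain ⟨y, hy, hyu⟩ := mem_three hs
      have hx2 : x % 2 = 0 ∨ x % 2 = 1 := by omega
      have hz2 : z % 2 = 0 ∨ z % 2 = 1 := by omega
      rcases hx2 with hx2 | hx2 <;> rcases hz2 with hz2 | hz2
      · refine ⟨0, mem_univ _, ?_⟩
        simp only [Matrix.cons_val]
        exact ⟨mem_evs.2 ⟨hx, hx2⟩, mem_evs.2 ⟨hz, hz2⟩,
          mem_image.2 ⟨y, mem_evs.2 ⟨hy, by omega⟩, hyu⟩⟩
      · refine ⟨3, mem_univ _, ?_⟩
        simp only [Matrix.cons_val]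
        exact ⟨mem_evs.2 ⟨hx, hx2⟩, mem_ods.2 ⟨hz, hz2⟩,
          mem_image.2 ⟨y, mem_ods.2 ⟨hy, by omega⟩, hyu⟩⟩
      · refine ⟨2, mem_univ _, ?_⟩
        simp only [Matrix.cons_val]
        exact ⟨mem_ods.2 ⟨hx, hx2⟩, mem_evs.2 ⟨hz, hz2⟩,
          mem_image.2 ⟨y, mem_evs.2 ⟨hy, by omega⟩, hyu⟩⟩
      · refine ⟨1, mem_univ _, ?_⟩
        simp only [Matrix.cons_val]
        exact ⟨mem_ods.2 ⟨hx, hx2⟩, mem_ods.2 ⟨hz, hz2⟩,
          mem_image.2 ⟨y, mem_ods.2 ⟨hy, by omega⟩, hyu⟩⟩)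
    rw [Fin.sum_univ_four] at this
    simp only [Matrix.cons_val] at this
    unfold TT
    omega
  -- C0
  have h2 : cnt (ods B) (evs B) ((evs B).image (fun y => 3 * y)) ≤
      ∑ i : Fin 3, (QQ B j i).card * ((PP B j i 0).card + (PP B j i 1).card) := by
    have := cnt_le_sum (univ : Finset (Fin 3)) (ods B) (evs B) ((evs B).image (fun y => 3 * y))
      (fun i => QQ B j i) (fun i => PP B j i 0 ∪ PP B j i 1)
      (fun _ => (evs B).image (fun y => 3 * y)) (by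
      intro x hx z hz hs
      obtain ⟨y, hy, hyu⟩ := mem_three hs
      rw [mem_ods] at hx
      rw [mem_evs] at hz
      obtain ⟨i, hi⟩ := exists_cls j hj x
      refine ⟨i, mem_univ _, mem_QQ.2 ⟨hx.1, hx.2, hi⟩, ?_, hs⟩
      rw [mem_union, mem_PP, mem_PP]
      have hzx : z % 3 = x % 3 := by omega
      have : z % 4 = 0 ∨ z % 4 = 2 := by omega
      rcases this with h | h
      · left; exact ⟨hz.1, by rw [h]; rfl, by rw [hzx, hi]⟩
      · right; exact ⟨hz.1, by rw [h]; rfl, by rw [hzx, hi]⟩)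
    refine this.trans (Finset.sum_le_sum ?_)
    intro i _
    rw [← card_PP_union]
    exact cnt_le_XZ _ _ _
  -- C1
  have h3 : cnt (evs B) (ods B) ((ods B).image (fun y => 3 * y)) ≤
      (B.filter (fun x => x % 4 = 1)).card * (B.filter (fun x => x % 4 = 3)).card +
      (B.filter (fun x => x % 4 = 3)).card * (B.filter (fun x => x % 4 = 1)).card := by
    refine (cnt_le_add (evs B) (ods B) ((ods B).image (fun y => 3 * y)) B
      (B.filter (fun x => x % 4 = 1)) ((B.filter (fun x => x % 4 = 3)).image (fun y => 3 * y)) B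
      (B.filter (fun x => x % 4 = 3)) ((B.filter (fun x => x % 4 = 1)).image (fun y => 3 * y))
      ?_).trans ?_
    · intro x hx z hz hs
      obtain ⟨y, hy, hyu⟩ := mem_three hs
      rw [mem_evs] at hx
      rw [mem_ods] at hz hy
      have : z % 4 = 1 ∨ z % 4 = 3 := by omega
      rcases this with h | h
      · left
        refine ⟨hx.1, mem_filter.2 ⟨hz.1, h⟩, mem_image.2 ⟨y, mem_filter.2 ⟨hy.1, by omega⟩, hyu⟩⟩
      · right
        refine ⟨hx.1, mem_filter.2 ⟨hz.1, h⟩, mem_image.2 ⟨y, mem_filter.2 ⟨hy.1, by omega⟩, hyu⟩⟩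
    · have c : ∀ s : Finset ℤ, (s.image (fun y => 3 * y)).card = s.card := fun s =>
        card_image_of_injective _ (fun a b h => by simpa using h)
      have a1 := cnt_le_ZS B (B.filter (fun x => x % 4 = 1))
        ((B.filter (fun x => x % 4 = 3)).image (fun y => 3 * y))
      have a2 := cnt_le_ZS B (B.filter (fun x => x % 4 = 3))
        ((B.filter (fun x => x % 4 = 1)).image (fun y => 3 * y))
      rw [c] at a1 a2
      exact Nat.add_le_add a1 a2
  have h4 : (ods B).card = (B.filter (fun x => x % 4 = 1)).card + (B.filter (fun x => x % 4 = 3)).card := by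
    rw [← card_union_of_disjoint]
    · congr 1
      ext x
      simp only [mem_ods, mem_union, mem_filter]
      constructor
      · rintro ⟨h, h'⟩
        have : x % 4 = 1 ∨ x % 4 = 3 := by omega
        rcases this with k | k
        · left; exact ⟨h, k⟩
        · right; exact ⟨h, k⟩
      · rintro (⟨h, h'⟩ | ⟨h, h'⟩)
        · exact ⟨h, by omega⟩
        · exact ⟨h, by omega⟩
    · rw [disjoint_left]
      intro x h0 h1
      rw [mem_filter] at h0 h1
      omega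
  have h1r : (TT B : ℝ) ≤ ((cnt (evs B) (evs B) ((evs B).image (fun y => 3 * y)) : ℝ) +
      cnt (ods B) (ods B) ((ods B).image (fun y => 3 * y))) +
      (cnt (ods B) (evs B) ((evs B).image (fun y => 3 * y)) +
      cnt (evs B) (ods B) ((ods B).image (fun y => 3 * y))) := by exact_mod_cast h1
  have h2r : (cnt (ods B) (evs B) ((evs B).image (fun y => 3 * y)) : ℝ) ≤
      ∑ i : Fin 3, ((QQ B j i).card : ℝ) * ((PP B j i 0).card + (PP B j i 1).card) := by
    exact_mod_cast h2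
  have h3r : (cnt (evs B) (ods B) ((ods B).image (fun y => 3 * y)) : ℝ) ≤
      ((B.filter (fun x => x % 4 = 1)).card : ℝ) * (B.filter (fun x => x % 4 = 3)).card +
      (B.filter (fun x => x % 4 = 3)).card * (B.filter (fun x => x % 4 = 1)).card := by
    exact_mod_cast h3
  rw [h4]
  push_cast
  unfold TT at h1r ⊢
  nlinarith [sq_nonneg (((B.filter (fun x => x % 4 = 1)).card : ℝ) -
    ((B.filter (fun x => x % 4 = 3)).card : ℝ))]

theorem card_QQ (B : Finset ℤ) (j : ℤ) (hj : j = 1 ∨ j = 2) :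
    ∑ i : Fin 3, (QQ B j i).card = (ods B).card := by
  rw [← card_biUnion]
  · congr 1
    ext x
    simp only [mem_biUnion, mem_univ, true_and, mem_QQ, mem_ods]
    constructor
    · rintro ⟨i, h1, h2, h3⟩; exact ⟨h1, h2⟩
    · rintro ⟨h1, h2⟩
      obtain ⟨i, hi⟩ := exists_cls j hj x
      exact ⟨i, h1, h2, hi⟩
  · intro i _ i' _ hne
    rw [Function.onFun, disjoint_left]
    intro x h0 h1
    rw [mem_QQ] at h0 h1
    apply hne
    have h := h0.2.2.symm.trans h1.2.2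
    rcases hj with rfl | rfl <;> fin_cases i <;> fin_cases i' <;> simp at h ⊢

theorem card_SS (S : Finset ℤ) (hS2 : ∀ u ∈ S, u % 2 = 0) :
    (SS S 0).card + (SS S 1).card = S.card := by
  rw [← card_union_of_disjoint]
  · congr 1
    ext x
    simp only [mem_union, mem_SS]
    constructor
    · rintro (h | h) <;> exact h.1
    · intro h
      obtain ⟨e, he⟩ := exists_par x (hS2 x h)
      fin_cases e
      · left; exact ⟨h, he⟩
      · right; exact ⟨h, he⟩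
  · rw [disjoint_left]
    intro x h0 h1
    rw [mem_SS] at h0 h1
    have a := h0.2
    have b := h1.2
    simp at a b
    omega

theorem card_PP (B : Finset ℤ) (j : ℤ) (hj : j = 1 ∨ j = 2) :
    ∑ i : Fin 3, ((PP B j i 0).card + (PP B j i 1).card) = (evs B).card := by
  have : ∀ i : Fin 3, (PP B j i 0).card + (PP B j i 1).card = (PP B j i 0 ∪ PP B j i 1).card :=
    fun i => (card_PP_union B j i).symm
  simp only [this]
  rw [← card_biUnion]
  · congr 1
    ext x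
    simp only [mem_biUnion, mem_univ, true_and, mem_union, mem_PP, mem_evs]
    constructor
    · rintro ⟨i, h | h⟩
      · refine ⟨h.1, ?_⟩
        have := h.2.1
        simp at this
        omega
      · refine ⟨h.1, ?_⟩
        have := h.2.1
        simp at this
        omega
    · rintro ⟨h1, h2⟩
      obtain ⟨i, hi⟩ := exists_cls j hj x
      obtain ⟨e, he⟩ := exists_par x h2
      refine ⟨i, ?_⟩
      fin_cases e
      · left; exact ⟨h1, he, hi⟩
      · right; exact ⟨h1, he, hi⟩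
  · intro i _ i' _ hne
    rw [Function.onFun, disjoint_left]
    intro x h0 h1
    rw [mem_union, mem_PP, mem_PP] at h0 h1
    apply hne
    have h0' : x % 3 = (j * ((i : ℕ) : ℤ)) % 3 := by rcases h0 with h | h <;> exact h.2.2
    have h1' : x % 3 = (j * ((i' : ℕ) : ℤ)) % 3 := by rcases h1 with h | h <;> exact h.2.2
    have h := h0'.symm.trans h1'
    rcases hj with rfl | rfl <;> fin_cases i <;> fin_cases i' <;> simp at h ⊢

end Ap013
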