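import Pool.Agent.H.MP_4074ca_co.Sound4

namespace Ap013
namespace CB

noncomputable section

lemma pos_div_aux {a : ℝ} (h : 0 ≤ a) : 0 ≤ a / 1048576 := by positivity

lemma comb_aux {z : ℝ} (hz0 : 0 ≤ z) (hz1 : z ≤ 1) (A p q : ℝ) (h1 : A ≤ p) (h2 : A ≤ q) :
    A ≤ (1 - z) * p + z * q := by
  nlinarith [mul_le_mul_of_nonneg_left h1 (by linarith : 0 ≤ 1 - z), mul_le_mul_of_nonneg_left h2 hz0]

lemma comb_aux' {z : ℝ} (hz0 : 0 ≤ z) (hz1 : z ≤ 1) (A p q : ℝ) (h1 : p ≤ A) (h2 : q ≤ A) :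
    (1 - z) * p + z * q ≤ A := by
  nlinarith [mul_le_mul_of_nonneg_left h1 (by linarith : 0 ≤ 1 - z), mul_le_mul_of_nonneg_left h2 hz0]

set_option maxHeartbeats 16000000 in
lemma leaf_sound (c : Cfg) (b : Box) (mode : Bool) (b0 b1 b2 b3 b4 b5 l1 l2 : Int)
    (h : checkLeaf c b mode b0 b1 b2 b3 b4 b5 l1 l2 = true) (X t V S : ℝ)
    (hX0 : (b.X0 : ℝ) ≤ 1024 * X) (hX1 : 1024 * X ≤ (b.X1 : ℝ))
    (ht0 : (b.t0 : ℝ) ≤ 1024 * t) (ht1 : 1024 * t ≤ (b.t1 : ℝ))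
    (hV0 : (b.V0 : ℝ) ≤ 1024 * V) (hV1 : 1024 * V ≤ (b.V1 : ℝ))
    (hS0 : (b.S0 : ℝ) ≤ 1024 * S) (hS1 : 1024 * S ≤ (b.S1 : ℝ)) : Good c X t V S := by
  obtain ⟨u, hu0, hu1, hu⟩ := exists_conv _ _ _ hX0 hX1
  obtain ⟨w, hw0, hw1, hw⟩ := exists_conv _ _ _ ht0 ht1
  obtain ⟨y, hy0, hy1, hy⟩ := exists_conv _ _ _ hV0 hV1
  obtain ⟨z, hz0, hz1, hz⟩ := exists_conv _ _ _ hS0 hS1
  unfold checkLeaf at h
  extract_lets W0 W1 W2 be0 be1 be2 be3 be4 be5 i0 i1 i2 j1e0 j1e1 j2e0 j2e1 H1 H2 H0 G0 G1 G2 G3 G4 G5 at h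
  have eW0 : ev4 W0 u w = 1048576 * (1 + (1 + X) * t) := by
    simp only [W0]; rw [ev4_tabW0, ← hu, ← hw]; ring
  have eW1 : ev4 W1 u w = 1048576 * (1 - X) := by
    simp only [W1]; rw [ev4_tabW1, ← hu]; ring
  have eW2 : ev4 W2 u w = 1048576 * ((1 + X) * (1 - t)) := by
    simp only [W2]; rw [ev4_tabW2, ← hu, ← hw]; ring
  have ei0 : ((i0 : Int) : ℝ) = 1024 * (if c.lc = 0 then (l1 : ℝ) else 0) := ite_cast _ _
  have ei1 : ((i1 : Int) : ℝ) = 1024 * (if c.lc = 1 then (l1 : ℝ) else 0) := ite_cast _ _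
  have ei2 : ((i2 : Int) : ℝ) = 1024 * (if c.lc = 2 then (l1 : ℝ) else 0) := ite_cast _ _
  have ej1e0 : ((j1e0 : Int) : ℝ) = 1024 * (if c.lc = 0 ∧ c.eta = false then (l2 : ℝ) else 0) := by
    simp only [j1e0]; rw [ite_cast]; simp
  have ej1e1 : ((j1e1 : Int) : ℝ) = 1024 * (if c.lc = 0 ∧ c.eta = true then (l2 : ℝ) else 0) := by
    simp only [j1e1]; rw [ite_cast]; simp
  have ej2e0 : ((j2e0 : Int) : ℝ) = 1024 * (if c.lc = 1 ∧ c.eta = false then (l2 : ℝ) else 0) := by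
    simp only [j2e0]; rw [ite_cast]; simp
  have ej2e1 : ((j2e1 : Int) : ℝ) = 1024 * (if c.lc = 1 ∧ c.eta = true then (l2 : ℝ) else 0) := by
    simp only [j2e1]; rw [ite_cast]; simp
  have eG0 : ev4 G0 u w = ev4 be2 u w + ev4 be3 u w - ev4 W1 u w + (1048576 + i1) - ev4 be0 u w + j1e0 := by
    simp only [G0, H1, ev4_padd, ev4_sub, ev4_con, iadd, D2]; push_cast; ring
  have eG1 : ev4 G1 u w = ev4 be2 u w + ev4 be3 u w - ev4 W1 u w + (1048576 + i1) - ev4 be1 u w + j1e1 := by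
    simp only [G1, H1, ev4_padd, ev4_sub, ev4_con, iadd, D2]; push_cast; ring
  have eG2 : ev4 G2 u w = ev4 be4 u w + ev4 be5 u w - ev4 W2 u w + (1048576 + i2) - ev4 be2 u w + j2e0 := by
    simp only [G2, H2, ev4_padd, ev4_sub, ev4_con, iadd, D2]; push_cast; ring
  have eG3 : ev4 G3 u w = ev4 be4 u w + ev4 be5 u w - ev4 W2 u w + (1048576 + i2) - ev4 be3 u w + j2e1 := by
    simp only [G3, H2, ev4_padd, ev4_sub, ev4_con, iadd, D2]; push_cast; ring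
  have eG4 : ev4 G4 u w = ev4 be0 u w + ev4 be1 u w - ev4 W0 u w + (1048576 + i0) - ev4 be4 u w := by
    simp only [G4, H0, ev4_padd, ev4_sub, ev4_con, iadd, D2]; push_cast; ring
  have eG5 : ev4 G5 u w = ev4 be0 u w + ev4 be1 u w - ev4 W0 u w + (1048576 + i0) - ev4 be5 u w := by
    simp only [G5, H0, ev4_padd, ev4_sub, ev4_con, iadd, D2]; push_cast; ring
  simp only [Bool.and_eq_true] at h
  obtain ⟨⟨⟨⟨⟨⟨⟨⟨⟨⟨⟨⟨⟨⟨⟨n0, n1⟩, n2⟩, n3⟩, n4⟩, n5⟩, g0⟩, g1⟩, g2⟩, g3⟩, g4⟩, g5⟩, nl1⟩, nl2⟩, c0⟩, c1⟩ := h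
  have n0 := nn4_le hu0 hu1 hw0 hw1 _ n0
  have n1 := nn4_le hu0 hu1 hw0 hw1 _ n1
  have n2 := nn4_le hu0 hu1 hw0 hw1 _ n2
  have n3 := nn4_le hu0 hu1 hw0 hw1 _ n3
  have n4 := nn4_le hu0 hu1 hw0 hw1 _ n4
  have n5 := nn4_le hu0 hu1 hw0 hw1 _ n5
  have g0 := nn4_le hu0 hu1 hw0 hw1 _ g0
  have g1 := nn4_le hu0 hu1 hw0 hw1 _ g1
  have g2 := nn4_le hu0 hu1 hw0 hw1 _ g2
  have g3 := nn4_le hu0 hu1 hw0 hw1 _ g3
  have g4 := nn4_le hu0 hu1 hw0 hw1 _ g4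
  have g5 := nn4_le hu0 hu1 hw0 hw1 _ g5
  have nl1 := nn_iff _ nl1
  have nl2 := nn_iff _ nl2
  obtain ⟨⟨p0, p1, p2, p3, p4, p5⟩, pg0, pg1, pF⟩ := checkS_sound b c _ _ _ _ _ _ _ _ _ _ _ _ _ _ _ _ _ _ c0
    hu0 hu1 hw0 hw1 hy0 hy1 (1024 * V) hy
  obtain ⟨⟨q0, q1, q2, q3, q4, q5⟩, qg0, qg1, qF⟩ := checkS_sound b c _ _ _ _ _ _ _ _ _ _ _ _ _ _ _ _ _ _ c1
    hu0 hu1 hw0 hw1 hy0 hy1 (1024 * V) hy
  have pF := FF_of_scaled _ _ _ _ _ _ _ _ _ _ _ _ _ _ _ _ _ _ _ _ pF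
  have qF := FF_of_scaled _ _ _ _ _ _ _ _ _ _ _ _ _ _ _ _ _ _ _ _ qF
  have hS' : S = (1 - z) * ((b.S0 : ℝ) / 1024) + z * ((b.S1 : ℝ) / 1024) := by linarith
  have hF := FF_convex _ _ _ _ S _ _ z _ _ _ _ _ _ _ _ _ _ _ _ _ _ _ hz0 hz1 hS' pF qF
  have comb := comb_aux hz0 hz1
  have comb' := comb_aux' hz0 hz1
  clear_value W0 W1 W2 be0 be1 be2 be3 be4 be5 i0 i1 i2 j1e0 j1e1 j2e0 j2e1 G0 G1 G2 G3 G4 G5
  refine ⟨ev4 be0 u w / 1048576, ev4 be1 u w / 1048576, ev4 be2 u w / 1048576, ev4 be3 u w / 1048576,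
    ev4 be4 u w / 1048576, ev4 be5 u w / 1048576, (l1 : ℝ) / 1024, (l2 : ℝ) / 1024,
    ev4 G0 u w / 1048576, ev4 G1 u w / 1048576, ev4 G2 u w / 1048576, ev4 G3 u w / 1048576,
    ev4 G4 u w / 1048576, ev4 G5 u w / 1048576, ?_, ?_, ?_, ?_, ?_, ?_, ?_⟩
  · exact ⟨pos_div_aux n0, pos_div_aux n1, pos_div_aux n2, pos_div_aux n3, pos_div_aux n4,
      pos_div_aux n5, by positivity, by positivity⟩
  · exact ⟨pos_div_aux g0, pos_div_aux g1, pos_div_aux g2, pos_div_aux g3, pos_div_aux g4,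
      pos_div_aux g5⟩
  · have r0 := comb _ _ _ p0 q0
    have r1 := comb _ _ _ p1 q1
    have r2 := comb _ _ _ p2 q2
    have r3 := comb _ _ _ p3 q3
    have r4 := comb _ _ _ p4 q4
    have r5 := comb _ _ _ p5 q5
    refine ⟨?_, ?_, ?_, ?_, ?_, ?_⟩ <;> linarith
  · intro hg
    obtain ⟨p, p'⟩ := pg0 hg
    obtain ⟨q, q'⟩ := qg0 hg
    have r := comb' _ _ _ p q
    have r' := comb' _ _ _ p' q'
    have e1 : (1 - z) * (3 * (1024 + (b.S0 : ℝ)) * (c.rho0 : ℝ)) + z * (3 * (1024 + (b.S1 : ℝ)) * (c.rho0 : ℝ)) =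
      3 * (1024 + 1024 * S) * (c.rho0 : ℝ) := by rw [hz]; ring
    have e2 : (1 - z) * (3 * (1024 - (b.S0 : ℝ)) * (c.rho1 : ℝ)) + z * (3 * (1024 - (b.S1 : ℝ)) * (c.rho1 : ℝ)) =
      3 * (1024 - 1024 * S) * (c.rho1 : ℝ) := by rw [hz]; ring
    rw [e1] at r
    rw [e2] at r'
    constructor <;> linarith
  · intro hg
    obtain ⟨p, p'⟩ := pg1 hg
    obtain ⟨q, q'⟩ := qg1 hg
    have r := comb' _ _ _ p q
    have r' := comb' _ _ _ p' q'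
    have e1 : (1 - z) * (3 * (1024 + (b.S0 : ℝ)) * (c.rho0 : ℝ)) + z * (3 * (1024 + (b.S1 : ℝ)) * (c.rho0 : ℝ)) =
      3 * (1024 + 1024 * S) * (c.rho0 : ℝ) := by rw [hz]; ring
    have e2 : (1 - z) * (3 * (1024 - (b.S0 : ℝ)) * (c.rho1 : ℝ)) + z * (3 * (1024 - (b.S1 : ℝ)) * (c.rho1 : ℝ)) =
      3 * (1024 - 1024 * S) * (c.rho1 : ℝ) := by rw [hz]; ring
    rw [e1] at r
    rw [e2] at r'
    constructor <;> linarith
  · rw [eW0] at eG4 eG5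
    rw [eW1] at eG0 eG1
    rw [eW2] at eG2 eG3
    rw [eG0, eG1, eG2, eG3, eG4, eG5, ei0, ei1, ei2, ej1e0, ej1e1, ej2e0, ej2e1]
    refine ⟨?_, ?_, ?_, ?_, ?_, ?_⟩ <;> split_ifs <;> ring
  · rw [eW0, eW1, eW2] at hF
    rw [show 1024 * V / 1024 = V by ring,
      show 1048576 * (1 + (1 + X) * t) / 1048576 = 1 + (1 + X) * t by ring,
      show 1048576 * (1 - X) / 1048576 = 1 - X by ring,
      show 1048576 * ((1 + X) * (1 - t)) / 1048576 = (1 + X) * (1 - t) by ring] at hF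
    unfold FF at hF
    exact hF

theorem verify_sound (c : Cfg) (T : Tree) : ∀ b : Box, verify c T b = true →
    ∀ X t V S : ℝ, (b.X0 : ℝ) ≤ 1024 * X → 1024 * X ≤ (b.X1 : ℝ) →
    (b.t0 : ℝ) ≤ 1024 * t → 1024 * t ≤ (b.t1 : ℝ) →
    (b.V0 : ℝ) ≤ 1024 * V → 1024 * V ≤ (b.V1 : ℝ) →
    (b.S0 : ℝ) ≤ 1024 * S → 1024 * S ≤ (b.S1 : ℝ) → Good c X t V S := by
  induction T with
  | leaf mode b0 b1 b2 b3 b4 b5 l1 l2 =>
    intro b h X t V S h1 h2 h3 h4 h5 h6 h7 h8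
    exact leaf_sound c b mode b0 b1 b2 b3 b4 b5 l1 l2 h X t V S h1 h2 h3 h4 h5 h6 h7 h8
  | node d m l r ihl ihr =>
    intro b h X t V S h1 h2 h3 h4 h5 h6 h7 h8
    unfold verify at h
    split at h
    · rw [Bool.and_eq_true] at h
      rcases le_total (1024 * X) (m : ℝ) with hm | hm
      · exact ihl _ h.1 X t V S h1 hm h3 h4 h5 h6 h7 h8
      · exact ihr _ h.2 X t V S hm h2 h3 h4 h5 h6 h7 h8
    · rw [Bool.and_eq_true] at h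
      rcases le_total (1024 * t) (m : ℝ) with hm | hm
      · exact ihl _ h.1 X t V S h1 h2 h3 hm h5 h6 h7 h8
      · exact ihr _ h.2 X t V S h1 h2 hm h4 h5 h6 h7 h8
    · rw [Bool.and_eq_true] at h
      rcases le_total (1024 * V) (m : ℝ) with hm | hm
      · exact ihl _ h.1 X t V S h1 h2 h3 h4 h5 hm h7 h8
      · exact ihr _ h.2 X t V S h1 h2 h3 h4 hm h6 h7 h8
    · rw [Bool.and_eq_true] at h
      rcases le_total (1024 * S) (m : ℝ) with hm | hm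
      · exact ihl _ h.1 X t V S h1 h2 h3 h4 h5 h6 h7 hm
      · exact ihr _ h.2 X t V S h1 h2 h3 h4 h5 h6 hm h8

end
end CB
end Ap013
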