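import Pool.Agent.H.MP_4074ca_co.UseGood
import Pool.Agent.H.MP_4074ca_co.Sound5
import Pool.Agent.H.MP_4074ca_co.CertE
import Pool.Agent.H.MP_4074ca_co.CertMA
import Pool.Agent.H.MP_4074ca_co.CertMB

namespace Ap013
namespace CB

noncomputable section

lemma get_good (c : Cfg) (T : Tree) (S0 S1 : Int) (h : verify c T ⟨0, 1024, 0, 1024, 0, 1024, S0, S1⟩ = true)
    (X t V S : ℝ) (hX0 : 0 ≤ X) (hX1 : X ≤ 1) (ht0 : 0 ≤ t) (ht1 : t ≤ 1) (hV0 : 0 ≤ V) (hV1 : V ≤ 1)
    (hS0 : (S0 : ℝ) ≤ 1024 * S) (hS1 : 1024 * S ≤ (S1 : ℝ)) : Good c X t V S := by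
  apply verify_sound c T _ h X t V S <;> simp only [] <;> first | assumption | (push_cast; linarith)

theorem Cn (P00 P01 P10 P11 P20 P21 Q0 Q1 Q2 s0 s1
    M0 M1 M2 M3 M4 M5 Y0 Y1 Y2 Y3 Y4 Y5 : ℝ)
    (hP00 : 0 ≤ P00) (hP01 : 0 ≤ P01) (hP10 : 0 ≤ P10) (hP11 : 0 ≤ P11) (hP20 : 0 ≤ P20)
    (hP21 : 0 ≤ P21) (hs0 : 0 ≤ s0) (hs1 : 0 ≤ s1)
    (hQ1 : 0 ≤ Q1) (hQ2 : 0 ≤ Q2) (hq0 : 0 < Q0 + Q1 + Q2) (hσ0 : 0 < s0 + s1)
    (hM0 : MB M0 (P00 + P01) P10 s0) (hM1 : MB M1 (P00 + P01) P11 s1)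
    (hM2 : MB M2 (P10 + P11) P20 s0) (hM3 : MB M3 (P10 + P11) P21 s1)
    (hM4 : MB M4 (P20 + P21) P00 s0) (hM5 : MB M5 (P20 + P21) P01 s1)
    (hY0 : YB Y0 Q0 P10 s1) (hY1 : YB Y1 Q0 P11 s0)
    (hY2 : YB Y2 Q1 P20 s1) (hY3 : YB Y3 Q1 P21 s0)
    (hY4 : YB Y4 Q2 P00 s1) (hY5 : YB Y5 Q2 P01 s0)
    (hw0 : Q0 + Q1 + Q2 ≤ 3 * Q0) (hw1 : 3 * Q1 ≤ Q0 + Q1 + Q2) (hs01 : s1 ≤ s0) :
    Goal P00 P01 P10 P11 P20 P21 Q0 Q1 Q2 s0 s1 M0 M1 M2 M3 M4 M5 Y0 Y1 Y2 Y3 Y4 Y5 := by
  obtain ⟨q, hq⟩ : ∃ q, q = Q0 + Q1 + Q2 := ⟨_, rfl⟩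
  obtain ⟨σ, hσ⟩ : ∃ σ, σ = s0 + s1 := ⟨_, rfl⟩
  rw [← hq] at hq0 hw0 hw1
  rw [← hσ] at hσ0
  obtain ⟨X, hX⟩ : ∃ X, X = 1 - 3 * Q1 / q := ⟨_, rfl⟩
  have hX0 : 0 ≤ X := by
    rw [hX, sub_nonneg, div_le_one hq0]; exact hw1
  have hX1 : X ≤ 1 := by
    have : 0 ≤ 3 * Q1 / q := by positivity
    linarith
  obtain ⟨t, ht⟩ : ∃ t, t = (3 * Q0 / q - 1) / (1 + X) := ⟨_, rfl⟩
  have hX2 : 0 < 1 + X := by linarith
  have ht' : 1 + (1 + X) * t = 3 * Q0 / q := by
    rw [ht]; field_simp; ring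
  have hsum : 3 * Q0 / q + 3 * Q1 / q + 3 * Q2 / q = 3 := by
    rw [hq]; rw [hq] at hq0; field_simp
  have ht0 : 0 ≤ t := by
    rw [ht]
    apply div_nonneg _ hX2.le
    rw [sub_nonneg, le_div_iff₀ hq0]; linarith
  have ht1 : t ≤ 1 := by
    rw [ht, div_le_one hX2]
    have : 0 ≤ 3 * Q2 / q := by positivity
    linarith
  obtain ⟨V, hV⟩ : ∃ V, V = 2 * σ / (2 * σ + q) := ⟨_, rfl⟩
  have hV0 : 0 ≤ V := by rw [hV]; positivity
  have hV1 : V ≤ 1 := by rw [hV, div_le_one (by positivity)]; linarith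
  obtain ⟨S, hS⟩ : ∃ S, S = (s0 - s1) / σ := ⟨_, rfl⟩
  have hS0 : 0 ≤ S := by rw [hS]; exact div_nonneg (by linarith) hσ0.le
  have hS1 : S ≤ 1 := by rw [hS, div_le_one hσ0]; linarith
  have use := fun (c : Cfg) (hg : Good c X t V S) =>
    use_good c P00 P01 P10 P11 P20 P21 Q0 Q1 Q2 s0 s1 M0 M1 M2 M3 M4 M5 Y0 Y1 Y2 Y3 Y4 Y5 q σ X t V S
      hP00 hP01 hP10 hP11 hP20 hP21 hs0 hs1 hq hσ hq0 hσ0 (by linarith) ht' hV hS
      hM0 hM1 hM2 hM3 hM4 hM5 hY0 hY1 hY2 hY3 hY4 hY5 hg
  rcases le_total S (1 / 2) with hSh | hSh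
  · by_cases hE0 : P00 + P01 ≤ s0 ∧ P10 ≤ 358 / 1024 * s0
    · apply use cfgE00 (get_good _ _ _ _ verE00 X t V S hX0 hX1 ht0 ht1 hV0 hV1
        (by push_cast; linarith) (by push_cast; linarith))
      · intro h; simp [cfgE00] at h
      · intro h; simp [cfgE00] at h
      · left; rfl
      · norm_num [cfgE00]
      · intro _ _; simpa [cfgE00] using hE0
      · intro _ h; simp [cfgE00] at h
      · intro h; simp [cfgE00] at h
      · intro h; simp [cfgE00] at h
    · by_cases hE1 : P00 + P01 ≤ s1 ∧ P11 ≤ 614 / 1024 * s1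
      · apply use cfgE01 (get_good _ _ _ _ verE01 X t V S hX0 hX1 ht0 ht1 hV0 hV1
          (by push_cast; linarith) (by push_cast; linarith))
        · intro h; simp [cfgE01] at h
        · intro h; simp [cfgE01] at h
        · left; rfl
        · norm_num [cfgE01]
        · intro _ h; simp [cfgE01] at h
        · intro _ _; simpa [cfgE01] using hE1
        · intro h; simp [cfgE01] at h
        · intro h; simp [cfgE01] at h
      · apply use cfgmainA (get_good _ _ _ _ vermainA X t V S hX0 hX1 ht0 ht1 hV0 hV1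
          (by push_cast; linarith) (by push_cast; linarith))
        · intro _
          constructor
          · intro B hB1 hB2
            by_contra hcon
            push Not at hcon
            apply hE0
            norm_num [cfgmainA] at hB1
            constructor <;> linarith [hcon.1, hcon.2]
          · intro B hB1 hB2
            by_contra hcon
            push Not at hcon
            apply hE1
            norm_num [cfgmainA] at hB1
            constructor <;> linarith [hcon.1, hcon.2]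
        · intro h; simp [cfgmainA] at h
        · right; right; rfl
        · norm_num [cfgmainA]
        · intro h; simp [cfgmainA] at h
        · intro h; simp [cfgmainA] at h
        · intro h; simp [cfgmainA] at h
        · intro h; simp [cfgmainA] at h
  · by_cases hE0 : P10 + P11 ≤ s0 ∧ P20 ≤ 410 / 1024 * s0
    · apply use cfgE10 (get_good _ _ _ _ verE10 X t V S hX0 hX1 ht0 ht1 hV0 hV1
        (by push_cast; linarith) (by push_cast; linarith))
      · intro h; simp [cfgE10] at h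
      · intro h; simp [cfgE10] at h
      · right; left; rfl
      · norm_num [cfgE10]
      · intro h; simp [cfgE10] at h
      · intro h; simp [cfgE10] at h
      · intro _ _; simpa [cfgE10] using hE0
      · intro _ h; simp [cfgE10] at h
    · by_cases hE1 : P10 + P11 ≤ s1 ∧ P21 ≤ 1024 / 1024 * s1
      · apply use cfgE11 (get_good _ _ _ _ verE11 X t V S hX0 hX1 ht0 ht1 hV0 hV1
          (by push_cast; linarith) (by push_cast; linarith))
        · intro h; simp [cfgE11] at h
        · intro h; simp [cfgE11] at h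
        · right; left; rfl
        · norm_num [cfgE11]
        · intro h; simp [cfgE11] at h
        · intro h; simp [cfgE11] at h
        · intro _ h; simp [cfgE11] at h
        · intro _ _; simpa [cfgE11] using hE1
      · apply use cfgmainB (get_good _ _ _ _ vermainB X t V S hX0 hX1 ht0 ht1 hV0 hV1
          (by push_cast; linarith) (by push_cast; linarith))
        · intro h; simp [cfgmainB] at h
        · intro _
          constructor
          · intro B hB1 hB2
            by_contra hcon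
            push Not at hcon
            apply hE0
            norm_num [cfgmainB] at hB1
            constructor <;> linarith [hcon.1, hcon.2]
          · intro B hB1 hB2
            by_contra hcon
            push Not at hcon
            apply hE1
            norm_num [cfgmainB] at hB1
            constructor <;> linarith [hcon.1, hcon.2]
        · right; right; rfl
        · norm_num [cfgmainB]
        · intro h; simp [cfgmainB] at h
        · intro h; simp [cfgmainB] at h
        · intro h; simp [cfgmainB] at h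
        · intro h; simp [cfgmainB] at h

end
end CB
end Ap013
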