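import Pool.Agent.H.MP_4074ca_co.CFinal

namespace Ap013
namespace CB

noncomputable section

lemma Goal_swap (P00 P01 P10 P11 P20 P21 Q0 Q1 Q2 s0 s1
    M0 M1 M2 M3 M4 M5 Y0 Y1 Y2 Y3 Y4 Y5 : ℝ)
    (h : Goal P01 P00 P11 P10 P21 P20 Q0 Q1 Q2 s1 s0 M1 M0 M3 M2 M5 M4 Y1 Y0 Y3 Y2 Y5 Y4) :
    Goal P00 P01 P10 P11 P20 P21 Q0 Q1 Q2 s0 s1 M0 M1 M2 M3 M4 M5 Y0 Y1 Y2 Y3 Y4 Y5 := by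
  unfold Goal at h ⊢
  rw [add_comm s1 s0] at h
  have e1 : Q0 * (P01 + P00) + Q1 * (P11 + P10) + Q2 * (P21 + P20) =
    Q0 * (P00 + P01) + Q1 * (P10 + P11) + Q2 * (P20 + P21) := by ring
  have e2 : Y1 + Y0 + Y3 + Y2 + Y5 + Y4 = Y0 + Y1 + Y2 + Y3 + Y4 + Y5 := by ring
  have e3 : M1 + M0 + M3 + M2 + M5 + M4 = M0 + M1 + M2 + M3 + M4 + M5 := by ring
  have e4 : P01 + P00 + P11 + P10 + P21 + P20 = P00 + P01 + P10 + P11 + P20 + P21 := by ring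
  rw [e1, e2, e3, e4] at h
  exact h

lemma Goal_rot (P00 P01 P10 P11 P20 P21 Q0 Q1 Q2 s0 s1
    M0 M1 M2 M3 M4 M5 Y0 Y1 Y2 Y3 Y4 Y5 : ℝ)
    (h : Goal P10 P11 P20 P21 P00 P01 Q1 Q2 Q0 s0 s1 M2 M3 M4 M5 M0 M1 Y2 Y3 Y4 Y5 Y0 Y1) :
    Goal P00 P01 P10 P11 P20 P21 Q0 Q1 Q2 s0 s1 M0 M1 M2 M3 M4 M5 Y0 Y1 Y2 Y3 Y4 Y5 := by
  unfold Goal at h ⊢
  have e0 : Q1 + Q2 + Q0 = Q0 + Q1 + Q2 := by ring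
  have e1 : Q1 * (P10 + P11) + Q2 * (P20 + P21) + Q0 * (P00 + P01) =
    Q0 * (P00 + P01) + Q1 * (P10 + P11) + Q2 * (P20 + P21) := by ring
  have e2 : Y2 + Y3 + Y4 + Y5 + Y0 + Y1 = Y0 + Y1 + Y2 + Y3 + Y4 + Y5 := by ring
  have e3 : M2 + M3 + M4 + M5 + M0 + M1 = M0 + M1 + M2 + M3 + M4 + M5 := by ring
  have e4 : P10 + P11 + P20 + P21 + P00 + P01 = P00 + P01 + P10 + P11 + P20 + P21 := by ring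
  rw [e0, e1, e2, e3, e4] at h
  exact h

lemma MB_comm {M P P' x s : ℝ} (h : MB M (P + x) P' s) : MB M (x + P) P' s := by
  rw [add_comm]; exact h

theorem Cn2 (P00 P01 P10 P11 P20 P21 Q0 Q1 Q2 s0 s1
    M0 M1 M2 M3 M4 M5 Y0 Y1 Y2 Y3 Y4 Y5 : ℝ)
    (hP00 : 0 ≤ P00) (hP01 : 0 ≤ P01) (hP10 : 0 ≤ P10) (hP11 : 0 ≤ P11) (hP20 : 0 ≤ P20)
    (hP21 : 0 ≤ P21) (hs0 : 0 ≤ s0) (hs1 : 0 ≤ s1)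
    (hQ1 : 0 ≤ Q1) (hQ2 : 0 ≤ Q2) (hq0 : 0 < Q0 + Q1 + Q2) (hσ0 : 0 < s0 + s1)
    (hM0 : MB M0 (P00 + P01) P10 s0) (hM1 : MB M1 (P00 + P01) P11 s1)
    (hM2 : MB M2 (P10 + P11) P20 s0) (hM3 : MB M3 (P10 + P11) P21 s1)
    (hM4 : MB M4 (P20 + P21) P00 s0) (hM5 : MB M5 (P20 + P21) P01 s1)
    (hY0 : YB Y0 Q0 P10 s1) (hY1 : YB Y1 Q0 P11 s0)
    (hY2 : YB Y2 Q1 P20 s1) (hY3 : YB Y3 Q1 P21 s0)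
    (hY4 : YB Y4 Q2 P00 s1) (hY5 : YB Y5 Q2 P01 s0)
    (hw0 : Q0 + Q1 + Q2 ≤ 3 * Q0) (hw1 : 3 * Q1 ≤ Q0 + Q1 + Q2) :
    Goal P00 P01 P10 P11 P20 P21 Q0 Q1 Q2 s0 s1 M0 M1 M2 M3 M4 M5 Y0 Y1 Y2 Y3 Y4 Y5 := by
  rcases le_total s1 s0 with hs | hs
  · exact Cn P00 P01 P10 P11 P20 P21 Q0 Q1 Q2 s0 s1 M0 M1 M2 M3 M4 M5 Y0 Y1 Y2 Y3 Y4 Y5
      hP00 hP01 hP10 hP11 hP20 hP21 hs0 hs1 hQ1 hQ2 hq0 hσ0 hM0 hM1 hM2 hM3 hM4 hM5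
      hY0 hY1 hY2 hY3 hY4 hY5 hw0 hw1 hs
  · apply Goal_swap
    exact Cn P01 P00 P11 P10 P21 P20 Q0 Q1 Q2 s1 s0 M1 M0 M3 M2 M5 M4 Y1 Y0 Y3 Y2 Y5 Y4
      hP01 hP00 hP11 hP10 hP21 hP20 hs1 hs0 hQ1 hQ2 hq0 (by linarith)
      (MB_comm hM1) (MB_comm hM0) (MB_comm hM3) (MB_comm hM2) (MB_comm hM5) (MB_comm hM4)
      hY1 hY0 hY3 hY2 hY5 hY4 hw0 hw1 hs

/-- inequality (C') in general -/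
theorem Cgen (P00 P01 P10 P11 P20 P21 Q0 Q1 Q2 s0 s1
    M0 M1 M2 M3 M4 M5 Y0 Y1 Y2 Y3 Y4 Y5 : ℝ)
    (hP00 : 0 ≤ P00) (hP01 : 0 ≤ P01) (hP10 : 0 ≤ P10) (hP11 : 0 ≤ P11) (hP20 : 0 ≤ P20)
    (hP21 : 0 ≤ P21) (hs0 : 0 ≤ s0) (hs1 : 0 ≤ s1)
    (hQ0 : 0 ≤ Q0) (hQ1 : 0 ≤ Q1) (hQ2 : 0 ≤ Q2) (hq0 : 0 < Q0 + Q1 + Q2) (hσ0 : 0 < s0 + s1)
    (hM0 : MB M0 (P00 + P01) P10 s0) (hM1 : MB M1 (P00 + P01) P11 s1)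
    (hM2 : MB M2 (P10 + P11) P20 s0) (hM3 : MB M3 (P10 + P11) P21 s1)
    (hM4 : MB M4 (P20 + P21) P00 s0) (hM5 : MB M5 (P20 + P21) P01 s1)
    (hY0 : YB Y0 Q0 P10 s1) (hY1 : YB Y1 Q0 P11 s0)
    (hY2 : YB Y2 Q1 P20 s1) (hY3 : YB Y3 Q1 P21 s0)
    (hY4 : YB Y4 Q2 P00 s1) (hY5 : YB Y5 Q2 P01 s0) :
    Goal P00 P01 P10 P11 P20 P21 Q0 Q1 Q2 s0 s1 M0 M1 M2 M3 M4 M5 Y0 Y1 Y2 Y3 Y4 Y5 := by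
  have r0 := Cn2 P00 P01 P10 P11 P20 P21 Q0 Q1 Q2 s0 s1 M0 M1 M2 M3 M4 M5 Y0 Y1 Y2 Y3 Y4 Y5
    hP00 hP01 hP10 hP11 hP20 hP21 hs0 hs1 hQ1 hQ2 hq0 hσ0 hM0 hM1 hM2 hM3 hM4 hM5
    hY0 hY1 hY2 hY3 hY4 hY5
  have r1 := Cn2 P10 P11 P20 P21 P00 P01 Q1 Q2 Q0 s0 s1 M2 M3 M4 M5 M0 M1 Y2 Y3 Y4 Y5 Y0 Y1
    hP10 hP11 hP20 hP21 hP00 hP01 hs0 hs1 hQ2 hQ0 (by linarith) hσ0 hM2 hM3 hM4 hM5 hM0 hM1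
    hY2 hY3 hY4 hY5 hY0 hY1
  have r2 := Cn2 P20 P21 P00 P01 P10 P11 Q2 Q0 Q1 s0 s1 M4 M5 M0 M1 M2 M3 Y4 Y5 Y0 Y1 Y2 Y3
    hP20 hP21 hP00 hP01 hP10 hP11 hs0 hs1 hQ0 hQ1 (by linarith) hσ0 hM4 hM5 hM0 hM1 hM2 hM3
    hY4 hY5 hY0 hY1 hY2 hY3
  by_cases h0 : Q0 + Q1 + Q2 ≤ 3 * Q0
  · by_cases h1 : 3 * Q1 ≤ Q0 + Q1 + Q2
    · exact r0 h0 h1
    · apply Goal_rot
      push Not at h1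
      exact r1 (by linarith) (by linarith)
  · push Not at h0
    by_cases h2 : Q0 + Q1 + Q2 ≤ 3 * Q2
    · apply Goal_rot
      apply Goal_rot
      exact r2 (by linarith) (by linarith)
    · push Not at h2
      apply Goal_rot
      exact r1 (by linarith) (by linarith)

end
end CB
end Ap013
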