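import Pool.Agent.H.MP_4074ca_co.Sound3

namespace Ap013
namespace CB

noncomputable section

/-- bounds for a term `M` of the even block -/
def MB (M P P' s : ℝ) : Prop :=
  M ≤ s * P ∧ M ≤ s * P' ∧
  (∀ z, 0 ≤ z → z ≤ P → z ≤ s → M ≤ z * P' + (P - z) * (s - z) + 1 / 4) ∧
  (∀ z, 0 ≤ z → z ≤ P' → z ≤ s → M ≤ z * P + (P' - z) * (s - z) + 1 / 4)

/-- bounds for a cross term -/
def YB (Y Q P' s : ℝ) : Prop :=
  Y ≤ Q * P' ∧ Y ≤ s * P' ∧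
  ∀ z, 0 ≤ z → z ≤ Q → z ≤ s → Y ≤ z * P' + (Q - z) * (s - z) + 1 / 4

lemma Ybound {Q s P' Y q σ g : ℝ} (hq : 0 < q) (hσ : 0 < σ) (hg : 0 ≤ g) (hP : 0 ≤ P')
    (h : YB Y Q P' s) :
    (2 / q + 1 / σ) * Y ≤ g / 3 * P' + (2 * σ + q) / 36 *
      pp (2 * (3 * Q / q) - (2 * σ / (2 * σ + q)) * g)
        (3 * (2 * s / σ) - 2 * (1 - 2 * σ / (2 * σ + q)) * g) + (2 / q + 1 / σ) / 4 := by
  obtain ⟨h1, h2, h3⟩ := h
  have hL : 0 < 2 * σ + q := by positivity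
  have hr : (2 / q + 1 / σ) = (2 * σ + q) / (q * σ) := by field_simp
  have hr0 : 0 < 2 / q + 1 / σ := by positivity
  set z := q * σ * g / (3 * (2 * σ + q)) with hz
  have hz0 : 0 ≤ z := by positivity
  have hrz : (2 / q + 1 / σ) * z = g / 3 := by rw [hr, hz]; field_simp
  have ha : 2 * (3 * Q / q) - (2 * σ / (2 * σ + q)) * g = 6 / q * (Q - z) := by
    rw [hz]; field_simp; ring
  have hb : 3 * (2 * s / σ) - 2 * (1 - 2 * σ / (2 * σ + q)) * g = 6 / σ * (s - z) := by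
    rw [hz]; field_simp; ring
  rw [ha, hb]
  have hpp0 : 0 ≤ pp (6 / q * (Q - z)) (6 / σ * (s - z)) :=
    mul_nonneg (le_max_right _ _) (le_max_right _ _)
  have hppL : 0 ≤ (2 * σ + q) / 36 * pp (6 / q * (Q - z)) (6 / σ * (s - z)) := by positivity
  have e : g / 3 * P' = (2 / q + 1 / σ) * (z * P') := by rw [← mul_assoc, hrz]
  rcases le_total Q z with hQ | hQ
  · have : Y ≤ z * P' := h1.trans (mul_le_mul_of_nonneg_right hQ hP)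
    have := mul_le_mul_of_nonneg_left this hr0.le
    rw [e]
    linarith
  · rcases le_total s z with hs | hs
    · have : Y ≤ z * P' := h2.trans (mul_le_mul_of_nonneg_right hs hP)
      have := mul_le_mul_of_nonneg_left this hr0.le
      rw [e]
      linarith
    · have h4 := mul_le_mul_of_nonneg_left (h3 z hz0 hQ hs) hr0.le
      rw [pp_of_nonneg (mul_nonneg (by positivity) (by linarith))
        (mul_nonneg (by positivity) (by linarith)), e]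
      have : (2 * σ + q) / 36 * (6 / q * (Q - z) * (6 / σ * (s - z))) =
          (2 / q + 1 / σ) * ((Q - z) * (s - z)) := by
        rw [hr]; field_simp; ring
      rw [this]
      linarith

lemma Mplain {M P P' s B : ℝ} (hB0 : 0 ≤ B) (hB : B ≤ s) (h : MB M P P' s) :
    M ≤ B * P' + (s - B) * P := by
  obtain ⟨h1, h2, -, -⟩ := h
  rcases eq_or_lt_of_le (hB0.trans hB) with hs | hs
  · have : B = 0 := by linarith
    subst this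
    rw [← hs] at h1 ⊢
    linarith
  · have k1 := mul_le_mul_of_nonneg_left h2 hB0
    have k2 := mul_le_mul_of_nonneg_left h1 (by linarith : 0 ≤ s - B)
    have : s * M ≤ s * (B * P' + (s - B) * P) := by nlinarith
    exact le_of_mul_le_mul_left this hs

lemma Mgain {M P P' s B : ℝ} (hB0 : 0 ≤ B) (hB : B ≤ s) (h : MB M P P' s)
    (h' : B ≤ P ∨ s - B ≤ P') :
    M ≤ B * P' + (s - B) * P - (B * (s - B) - 1 / 4) := by
  obtain ⟨-, -, h3, h4⟩ := h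
  rcases h' with h' | h'
  · have := h3 B hB0 h' hB
    nlinarith
  · have := h4 (s - B) (by linarith) h' (by linarith)
    nlinarith

lemma combine (P00 P01 P10 P11 P20 P21 Q0 Q1 Q2 s0 s1 q σ L be0 be1 be2 be3 be4 be5
    G0 G1 G2 G3 G4 G5 x0 x1 x2 x3 x4 x5 d0 d1 d2 d3 d4 d5 p0 p1 p2 p3 p4 p5
    M0 M1 M2 M3 M4 M5 Y0 Y1 Y2 Y3 Y4 Y5 : ℝ)
    (hs : s0 / σ + s1 / σ = 1)
    (hM0 : M0 / σ ≤ be0 / 3 * P10 + (s0 / σ) * (P00 + P01) - be0 / 3 * (P00 + P01) - d0 / σ)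
    (hM1 : M1 / σ ≤ be1 / 3 * P11 + (s1 / σ) * (P00 + P01) - be1 / 3 * (P00 + P01) - d1 / σ)
    (hM2 : M2 / σ ≤ be2 / 3 * P20 + (s0 / σ) * (P10 + P11) - be2 / 3 * (P10 + P11) - d2 / σ)
    (hM3 : M3 / σ ≤ be3 / 3 * P21 + (s1 / σ) * (P10 + P11) - be3 / 3 * (P10 + P11) - d3 / σ)
    (hM4 : M4 / σ ≤ be4 / 3 * P00 + (s0 / σ) * (P20 + P21) - be4 / 3 * (P20 + P21) - d4 / σ)
    (hM5 : M5 / σ ≤ be5 / 3 * P01 + (s1 / σ) * (P20 + P21) - be5 / 3 * (P20 + P21) - d5 / σ)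
    (hY0 : (2 / q + 1 / σ) * Y0 ≤ G0 / 3 * P10 + L / 36 * p0 + (2 / q + 1 / σ) / 4)
    (hY1 : (2 / q + 1 / σ) * Y1 ≤ G1 / 3 * P11 + L / 36 * p1 + (2 / q + 1 / σ) / 4)
    (hY2 : (2 / q + 1 / σ) * Y2 ≤ G2 / 3 * P20 + L / 36 * p2 + (2 / q + 1 / σ) / 4)
    (hY3 : (2 / q + 1 / σ) * Y3 ≤ G3 / 3 * P21 + L / 36 * p3 + (2 / q + 1 / σ) / 4)
    (hY4 : (2 / q + 1 / σ) * Y4 ≤ G4 / 3 * P00 + L / 36 * p4 + (2 / q + 1 / σ) / 4)
    (hY5 : (2 / q + 1 / σ) * Y5 ≤ G5 / 3 * P01 + L / 36 * p5 + (2 / q + 1 / σ) / 4)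
    (hG0 : G0 = 1 - 3 * Q1 / q + (be2 + be3) - be0 + x0)
    (hG1 : G1 = 1 - 3 * Q1 / q + (be2 + be3) - be1 + x1)
    (hG2 : G2 = 1 - 3 * Q2 / q + (be4 + be5) - be2 + x2)
    (hG3 : G3 = 1 - 3 * Q2 / q + (be4 + be5) - be3 + x3)
    (hG4 : G4 = 1 - 3 * Q0 / q + (be0 + be1) - be4 + x4)
    (hG5 : G5 = 1 - 3 * Q0 / q + (be0 + be1) - be5 + x5)
    (hfin : (x0 * P10 + x1 * P11 + x2 * P20 + x3 * P21 + x4 * P00 + x5 * P01) / 3 +
      L / 36 * (p0 + p1 + p2 + p3 + p4 + p5) - (d0 + d1 + d2 + d3 + d4 + d5) / σ +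
      3 / 2 * (2 / q + 1 / σ) ≤ σ + q / 6 + 3 / q + 3 / σ) :
    (Q0 * (P00 + P01) + Q1 * (P10 + P11) + Q2 * (P20 + P21)) / q +
      (2 / q + 1 / σ) * (Y0 + Y1 + Y2 + Y3 + Y4 + Y5) + (M0 + M1 + M2 + M3 + M4 + M5) / σ ≤
      4 / 3 * (P00 + P01 + P10 + P11 + P20 + P21) + σ + q / 6 + 3 / q + 3 / σ := by
  subst hG0 hG1 hG2 hG3 hG4 hG5
  linear_combination hM0 + hM1 + hM2 + hM3 + hM4 + hM5 + hY0 + hY1 + hY2 + hY3 + hY4 + hY5 + hfin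
    + (P00 + P01 + P10 + P11 + P20 + P21) * hs

end
end CB
end Ap013
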