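import Mathlib

namespace Ap013

/-- data of one colour: `x i` and `y i` are the two bounds, `g` the choice, `v` the value. -/
def Slot (x0 x1 x2 y0 y1 y2 v : ℝ) : Prop :=
  ∃ g0 g1 g2 : ℝ, (0 ≤ g0 ∧ g0 ≤ x0 ∧ g0 ≤ y0) ∧ (0 ≤ g1 ∧ g1 ≤ x1 ∧ g1 ≤ y1) ∧
    (0 ≤ g2 ∧ g2 ≤ x2 ∧ g2 ≤ y2) ∧ g0 + g1 + g2 ≤ 3 ∧
    (x0 - g0) * (y0 - g0) + (x1 - g1) * (y1 - g1) + (x2 - g2) * (y2 - g2) ≤ v

lemma slotF1 {x0 x1 x2 y0 y1 y2 m0 m1 m2 : ℝ}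
    (h0 : 0 ≤ m0) (h1 : 0 ≤ m1) (h2 : 0 ≤ m2)
    (hx0 : m0 ≤ x0) (hx1 : m1 ≤ x1) (hx2 : m2 ≤ x2)
    (hy0 : m0 ≤ y0) (hy1 : m1 ≤ y1) (hy2 : m2 ≤ y2)
    (e0 : (x0 - m0) * (y0 - m0) = 0) (e1 : (x1 - m1) * (y1 - m1) = 0)
    (e2 : (x2 - m2) * (y2 - m2) = 0) (hT : m0 + m1 + m2 ≤ 3) :
    Slot x0 x1 x2 y0 y1 y2 0 :=
  ⟨m0, m1, m2, ⟨h0, hx0, hy0⟩, ⟨h1, hx1, hy1⟩, ⟨h2, hx2, hy2⟩, hT, by rw [e0, e1, e2]; simp⟩

/-- (F2) -/
lemma slotF2 {x0 x1 x2 y0 y1 y2 m0 m1 m2 mu th : ℝ}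
    (hm0 : mu ≤ m0) (hm1 : mu ≤ m1) (hm2 : mu ≤ m2)
    (hx0 : m0 ≤ x0) (hx1 : m1 ≤ x1) (hx2 : m2 ≤ x2)
    (hy0 : m0 ≤ y0) (hy1 : m1 ≤ y1) (hy2 : m2 ≤ y2)
    (e0 : (x0 - m0) * (y0 - m0) = 0) (e1 : (x1 - m1) * (y1 - m1) = 0)
    (e2 : (x2 - m2) * (y2 - m2) = 0)
    (ht0 : 0 ≤ th) (ht1 : th ≤ 1)
    (hA : 1 - mu ≤ th * ((m0 + m1 + m2) / 3 - mu)) (hA1 : th * ((m0 + m1 + m2) / 3 - mu) ≤ 1) :
    Slot x0 x1 x2 y0 y1 y2
      ((x0 + x1 + x2 - 3) * (y0 + y1 + y2 - 3) / 3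
        + (1 - th) * (x0 * y0 + x1 * y1 + x2 * y2 - (x0 + x1 + x2) * (y0 + y1 + y2) / 3)
        - th * ((x0 + x1 + x2 - (m0 + m1 + m2)) * (y0 + y1 + y2 - (m0 + m1 + m2)) / 3)
        - th * (1 - th) * ((m0 - (m0 + m1 + m2) / 3) ^ 2 + (m1 - (m0 + m1 + m2) / 3) ^ 2
          + (m2 - (m0 + m1 + m2) / 3) ^ 2)) := by
  have key : ∀ m : ℝ, mu ≤ m → 0 ≤ 1 + th * (m - (m0 + m1 + m2) / 3) ∧
      1 + th * (m - (m0 + m1 + m2) / 3) ≤ m := by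
    intro m hm
    constructor
    · nlinarith [mul_le_mul_of_nonneg_left hm ht0]
    · nlinarith [mul_le_mul_of_nonneg_left hm (sub_nonneg.2 ht1)]
  obtain ⟨a0, b0⟩ := key m0 hm0
  obtain ⟨a1, b1⟩ := key m1 hm1
  obtain ⟨a2, b2⟩ := key m2 hm2
  refine ⟨_, _, _, ⟨a0, b0.trans hx0, b0.trans hy0⟩, ⟨a1, b1.trans hx1, b1.trans hy1⟩,
    ⟨a2, b2.trans hx2, b2.trans hy2⟩, ?_, ?_⟩
  · apply le_of_eq; ring
  · apply le_of_eq
    have f0 : x0 * y0 = m0 * (x0 + y0 - m0) := by linear_combination e0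
    have f1 : x1 * y1 = m1 * (x1 + y1 - m1) := by linear_combination e1
    have f2 : x2 * y2 = m2 * (x2 + y2 - m2) := by linear_combination e2
    linear_combination th * (e0 + e1 + e2)

lemma Slot.mono {x0 x1 x2 y0 y1 y2 v w : ℝ} (h : Slot x0 x1 x2 y0 y1 y2 v) (hvw : v ≤ w) :
    Slot x0 x1 x2 y0 y1 y2 w := by
  obtain ⟨g0, g1, g2, a, b, c, d, e⟩ := h
  exact ⟨g0, g1, g2, a, b, c, d, e.trans hvw⟩


structure MinData (x0 x1 x2 y0 y1 y2 m0 m1 m2 mu : ℝ) : Prop where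
  h0 : 0 ≤ m0
  h1 : 0 ≤ m1
  h2 : 0 ≤ m2
  hx0 : m0 ≤ x0
  hx1 : m1 ≤ x1
  hx2 : m2 ≤ x2
  hy0 : m0 ≤ y0
  hy1 : m1 ≤ y1
  hy2 : m2 ≤ y2
  e0 : (x0 - m0) * (y0 - m0) = 0
  e1 : (x1 - m1) * (y1 - m1) = 0
  e2 : (x2 - m2) * (y2 - m2) = 0
  hmu : 0 ≤ mu
  hm0 : mu ≤ m0
  hm1 : mu ≤ m1
  hm2 : mu ≤ m2
  att : mu = m0 ∨ mu = m1 ∨ mu = m2

lemma minprod (x y : ℝ) : (x - min x y) * (y - min x y) = 0 := by
  rcases le_total x y with h | h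
  · rw [min_eq_left h]; simp
  · rw [min_eq_right h]; simp

lemma exists_minData {x0 x1 x2 y0 y1 y2 : ℝ} (hx0 : 0 ≤ x0) (hx1 : 0 ≤ x1) (hx2 : 0 ≤ x2)
    (hy0 : 0 ≤ y0) (hy1 : 0 ≤ y1) (hy2 : 0 ≤ y2) :
    ∃ m0 m1 m2 mu, MinData x0 x1 x2 y0 y1 y2 m0 m1 m2 mu := by
  refine ⟨min x0 y0, min x1 y1, min x2 y2, min (min (min x0 y0) (min x1 y1)) (min x2 y2), ?_⟩
  refine ⟨le_min hx0 hy0, le_min hx1 hy1, le_min hx2 hy2, min_le_left _ _, min_le_left _ _,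
    min_le_left _ _, min_le_right _ _, min_le_right _ _, min_le_right _ _, minprod _ _,
    minprod _ _, minprod _ _, le_min (le_min (le_min hx0 hy0) (le_min hx1 hy1)) (le_min hx2 hy2),
    (min_le_left _ _).trans (min_le_left _ _), (min_le_left _ _).trans (min_le_right _ _),
    min_le_right _ _, ?_⟩
  rcases min_choice (min (min x0 y0) (min x1 y1)) (min x2 y2) with h | h
  · rcases min_choice (min x0 y0) (min x1 y1) with h' | h'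
    · left; rw [h, h']
    · right; left; rw [h, h']
  · right; right; exact h

/-- if `ip ≤ 0` then the slot value is at most the product term. -/
lemma slot_nonpos {x0 x1 x2 y0 y1 y2 m0 m1 m2 mu : ℝ} (M : MinData x0 x1 x2 y0 y1 y2 m0 m1 m2 mu)
    (hx : 3 ≤ x0 + x1 + x2) (hy : 3 ≤ y0 + y1 + y2)
    (hip : x0 * y0 + x1 * y1 + x2 * y2 - (x0 + x1 + x2) * (y0 + y1 + y2) / 3 ≤ 0) :
    Slot x0 x1 x2 y0 y1 y2 ((x0 + x1 + x2 - 3) * (y0 + y1 + y2 - 3) / 3) := by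
  obtain ⟨h0, h1, h2, hx0, hx1, hx2, hy0, hy1, hy2, e0, e1, e2, hmu, hm0, hm1, hm2, att⟩ := M
  rcases le_or_gt (m0 + m1 + m2) 3 with hT | hT
  · refine (slotF1 h0 h1 h2 hx0 hx1 hx2 hy0 hy1 hy2 e0 e1 e2 hT).mono ?_
    have := mul_nonneg (sub_nonneg.2 hx) (sub_nonneg.2 hy)
    linarith
  · set A := (m0 + m1 + m2) / 3 - mu with hA
    have hZ : 0 ≤ (x0 + x1 + x2 - (m0 + m1 + m2)) * (y0 + y1 + y2 - (m0 + m1 + m2)) / 3 := by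
      have : 0 ≤ (x0 + x1 + x2 - (m0 + m1 + m2)) * (y0 + y1 + y2 - (m0 + m1 + m2)) :=
        mul_nonneg (by linarith) (by linarith)
      linarith
    have hn : 0 ≤ (m0 - (m0 + m1 + m2) / 3) ^ 2 + (m1 - (m0 + m1 + m2) / 3) ^ 2
          + (m2 - (m0 + m1 + m2) / 3) ^ 2 := by positivity
    rcases le_or_gt A 1 with hA1 | hA1
    · refine (slotF2 (mu := mu) (th := 1) hm0 hm1 hm2 hx0 hx1 hx2 hy0 hy1 hy2 e0 e1 e2 (by norm_num)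
        le_rfl (by rw [one_mul]; linarith) (by rw [one_mul]; exact hA1)).mono ?_
      nlinarith
    · have hA0 : (0:ℝ) < A := by linarith
      have hi : 0 < A⁻¹ := inv_pos.2 hA0
      have hi1 : A⁻¹ ≤ 1 := inv_le_one_of_one_le₀ hA1.le
      refine (slotF2 (mu := mu) (th := A⁻¹) hm0 hm1 hm2 hx0 hx1 hx2 hy0 hy1 hy2 e0 e1 e2 hi.le
        hi1 (by rw [← hA, inv_mul_cancel₀ hA0.ne']; linarith)
        (by rw [← hA, inv_mul_cancel₀ hA0.ne'])).mono ?_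
      have q1 := mul_nonneg (sub_nonneg.2 hi1) (neg_nonneg.2 hip)
      have q2 := mul_nonneg hi.le hZ
      have q3 := mul_nonneg (mul_nonneg hi.le (sub_nonneg.2 hi1)) hn
      nlinarith


lemma inv_facts {A : ℝ} (hA : 1 < A) : 0 < A⁻¹ ∧ A⁻¹ < 1 ∧ A⁻¹ * A = 1 := by
  have hA0 : (0:ℝ) < A := by linarith
  exact ⟨inv_pos.2 hA0, inv_lt_one_of_one_lt₀ hA, inv_mul_cancel₀ hA0.ne'⟩

/-- three numbers of sum `T`, minimum `nu`: the variance is at least `(3/2) (T/3 - nu)^2`. -/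
lemma var_lower {p0 p1 p2 nu : ℝ} (att : nu = p0 ∨ nu = p1 ∨ nu = p2) :
    3 / 2 * ((p0 + p1 + p2) / 3 - nu) ^ 2 ≤ (p0 - (p0 + p1 + p2) / 3) ^ 2
      + (p1 - (p0 + p1 + p2) / 3) ^ 2 + (p2 - (p0 + p1 + p2) / 3) ^ 2 := by
  rcases att with h | h | h
  · subst h; nlinarith [sq_nonneg (p1 - p2)]
  · subst h; nlinarith [sq_nonneg (p0 - p2)]
  · subst h; nlinarith [sq_nonneg (p0 - p1)]

/-- upper bound for the variance. -/
lemma var_upper {m0 m1 m2 mu : ℝ} (hm0 : mu ≤ m0) (hm1 : mu ≤ m1) (hm2 : mu ≤ m2) :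
    (m0 - (m0 + m1 + m2) / 3) ^ 2 + (m1 - (m0 + m1 + m2) / 3) ^ 2
      + (m2 - (m0 + m1 + m2) / 3) ^ 2 ≤ 6 * ((m0 + m1 + m2) / 3 - mu) ^ 2 := by
  nlinarith [mul_nonneg (sub_nonneg.2 hm0) (sub_nonneg.2 hm1),
    mul_nonneg (sub_nonneg.2 hm0) (sub_nonneg.2 hm2),
    mul_nonneg (sub_nonneg.2 hm1) (sub_nonneg.2 hm2)]

/-- last step of case `T_0 ≥ 3`, `mu_0 < 1`. -/
lemma final_num {h A1 l A0 s ipz ipy Z0 kap : ℝ}
    (hh0 : 0 < h) (hh1 : h < 1) (hhA : h * A1 = 1) (hl0 : 0 < l) (hl1 : l ≤ 1)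
    (hlA : l * A0 = s) (hs0 : 0 < s) (hs1 : s ≤ 1) (hA0 : 0 < A0) (hipz : 0 < ipz)
    (hipy : ipy ≤ -ipz) (hup : ipz ≤ 3 * A0 ^ 2 + A0 * kap + Z0) (hkap : 0 ≤ kap)
    (hZ0 : 0 ≤ Z0) (hZ : kap ≤ h * Z0) :
    (1 - h) * (ipz - 3 / 2 * A1) + (1 - l) * ipy - l * Z0 ≤ 3 / 4 := by
  have hA1 : 0 < A1 := by
    by_contra hc
    have : h * A1 ≤ 0 := mul_nonpos_of_nonneg_of_nonpos hh0.le (not_lt.1 hc)
    linarith
  have q1 : (1 - l) * ipy ≤ (1 - l) * (-ipz) := mul_le_mul_of_nonneg_left hipy (by linarith)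
  have q2 : 0 ≤ (1 - h) * (3 / 2 * A1) := mul_nonneg (by linarith) (by linarith)
  rcases le_or_gt l h with hlh | hlh
  · have q3 : 0 ≤ (h - l) * ipz := mul_nonneg (by linarith) hipz.le
    have q4 : 0 ≤ l * Z0 := mul_nonneg hl0.le hZ0
    nlinarith
  · have q3 : (l - h) * ipz ≤ (l - h) * (3 * A0 ^ 2 + A0 * kap + Z0) :=
      mul_le_mul_of_nonneg_left hup (by linarith)
    have q4 : (l - h) * A0 ≤ 1 := by
      have : 0 ≤ h * A0 := mul_nonneg hh0.le hA0.le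
      nlinarith
    have q5 : kap * ((l - h) * A0) ≤ kap * 1 := mul_le_mul_of_nonneg_left q4 hkap
    -- `3 (l-h) A0^2 ≤ 3/4 + 3/2 (A1 - 1)`
    have q6 : 3 * (l - h) * A0 ^ 2 ≤ 3 / 4 + 3 / 2 * (A1 - 1) := by
      have hl : l ≠ 0 := hl0.ne'
      have hA0' : A0 = s * l⁻¹ := by field_simp; linarith
      set a := l⁻¹ with ha
      have ha0 : 0 < a := inv_pos.2 hl0
      have ha1 : 1 ≤ a := (one_le_inv₀ hl0).2 hl1
      have hla : l * a = 1 := mul_inv_cancel₀ hl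
      have hh : h ≠ 0 := hh0.ne'
      have r1 : (l - h) * A0 ^ 2 ≤ (l - h) * a ^ 2 := by
        apply mul_le_mul_of_nonneg_left _ (by linarith)
        rw [hA0']
        have : (s * a) ≤ a := by nlinarith
        have h' : 0 ≤ s * a := mul_nonneg hs0.le ha0.le
        nlinarith
      have r2 : (l - h) * a ^ 2 = a - h * a ^ 2 := by
        have : l * a ^ 2 = a := by rw [pow_two, ← mul_assoc, hla, one_mul]
        linarith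
      have r3 : 3 * (a - h * a ^ 2) ≤ 3 / 4 + 3 / 2 * (A1 - 1) := by
        -- multiply by A1
        have r4 : 3 * (a - h * a ^ 2) * A1 ≤ (3 / 4 + 3 / 2 * (A1 - 1)) * A1 := by
          have : h * a ^ 2 * A1 = a ^ 2 := by
            calc h * a ^ 2 * A1 = (h * A1) * a ^ 2 := by ring
              _ = a ^ 2 := by rw [hhA, one_mul]
          have hexp : 3 * (a - h * a ^ 2) * A1 = 3 * a * A1 - 3 * a ^ 2 := by
            linear_combination -3 * this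
          rw [hexp]
          nlinarith [sq_nonneg (a - 5 / 8 * A1), mul_nonneg (sub_nonneg.2 ha1) hA1.le,
            sq_nonneg A1, sq_nonneg a]
        exact le_of_mul_le_mul_right r4 hA1
      nlinarith
    have q7 : (1 - h) * (3 / 2 * A1) = 3 / 2 * (A1 - 1) := by linear_combination -(3/2) * hhA
    nlinarith


lemma cs_aux (a b : ℝ) : -(a * b) ≤ (a ^ 2 + b ^ 2) / 2 := by
  nlinarith [sq_nonneg (a + b)]

set_option maxHeartbeats 4000000 in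
lemma big {b0 b1 b2 y0 y1 y2 z0 z1 z2 m0 m1 m2 mu p0 p1 p2 nu : ℝ}
    (hb0 : b0 = y2 + z2) (hb1 : b1 = y0 + z0) (hb2 : b2 = y1 + z1)
    (hy0 : 0 ≤ y0) (hy1 : 0 ≤ y1) (hy2 : 0 ≤ y2)
    (hY : 3 ≤ y0 + y1 + y2) (hZ : 3 ≤ z0 + z1 + z2)
    (M : MinData b0 b1 b2 y0 y1 y2 m0 m1 m2 mu)
    (N : MinData b0 b1 b2 z0 z1 z2 p0 p1 p2 nu)
    (hip : 0 < b0 * z0 + b1 * z1 + b2 * z2 - (b0 + b1 + b2) * (z0 + z1 + z2) / 3) :
    ∃ v w, Slot b0 b1 b2 y0 y1 y2 v ∧ Slot b0 b1 b2 z0 z1 z2 w ∧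
      v + w ≤ (b0 + b1 + b2 - 9 / 2) ^ 2 / 3 := by
  set ipz := b0 * z0 + b1 * z1 + b2 * z2 - (b0 + b1 + b2) * (z0 + z1 + z2) / 3 with hipz
  set ipy := b0 * y0 + b1 * y1 + b2 * y2 - (b0 + b1 + b2) * (y0 + y1 + y2) / 3 with hipy
  set D := (b0 - (b0 + b1 + b2) / 3) ^ 2 + (b1 - (b0 + b1 + b2) / 3) ^ 2
    + (b2 - (b0 + b1 + b2) / 3) ^ 2 with hD
  have hD0 : 0 ≤ D := by positivity
  have hsum : ipy + ipz = -D / 2 := by
    rw [hipy, hipz, hD, hb0, hb1, hb2]; ring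
  have hB : b0 + b1 + b2 = (y0 + y1 + y2) + (z0 + z1 + z2) := by rw [hb0, hb1, hb2]; ring
  have hipyz : ipy ≤ -ipz := by linarith
  have hipy0 : ipy ≤ 0 := by linarith
  have hBY : 0 ≤ (b0 + b1 + b2 - 3) * (y0 + y1 + y2 - 3) := mul_nonneg (by linarith) (by linarith)
  have hBZ : 0 ≤ (b0 + b1 + b2 - 3) * (z0 + z1 + z2 - 3) := mul_nonneg (by linarith) (by linarith)
  have htot : (b0 + b1 + b2 - 3) * (y0 + y1 + y2 - 3) / 3
      + (b0 + b1 + b2 - 3) * (z0 + z1 + z2 - 3) / 3 + 3 / 4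
      = (b0 + b1 + b2 - 9 / 2) ^ 2 / 3 := by rw [hB]; ring
  have hvY := slot_nonpos M (by linarith) hY hipy0
  have hTz : p0 + p1 + p2 ≤ z0 + z1 + z2 := by linarith [N.hy0, N.hy1, N.hy2]
  have hTb : p0 + p1 + p2 ≤ b0 + b1 + b2 := by linarith [N.hx0, N.hx1, N.hx2]
  have hTy : m0 + m1 + m2 ≤ y0 + y1 + y2 := by linarith [M.hy0, M.hy1, M.hy2]
  have hTb' : m0 + m1 + m2 ≤ b0 + b1 + b2 := by linarith [M.hx0, M.hx1, M.hx2]
  rcases le_or_gt (p0 + p1 + p2) 3 with hT | hT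
  · refine ⟨_, 0, hvY, slotF1 N.h0 N.h1 N.h2 N.hx0 N.hx1 N.hx2 N.hy0 N.hy1 N.hy2 N.e0 N.e1 N.e2 hT,
      ?_⟩
    linarith
  have hZZ : 0 ≤ (b0 + b1 + b2 - (p0 + p1 + p2)) * (z0 + z1 + z2 - (p0 + p1 + p2)) / 3 := by
    have : 0 ≤ (b0 + b1 + b2 - (p0 + p1 + p2)) * (z0 + z1 + z2 - (p0 + p1 + p2)) :=
      mul_nonneg (by linarith) (by linarith)
    linarith
  set A1 := (p0 + p1 + p2) / 3 - nu with hA1
  rcases le_or_gt A1 1 with hA | hA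
  · refine ⟨_, _, hvY, slotF2 (mu := nu) (th := 1) N.hm0 N.hm1 N.hm2 N.hx0 N.hx1 N.hx2 N.hy0 N.hy1
      N.hy2 N.e0 N.e1 N.e2 (by norm_num) le_rfl (by rw [one_mul]; linarith)
      (by rw [one_mul]; exact hA), ?_⟩
    rw [sub_self, zero_mul, mul_zero, zero_mul, one_mul]
    linarith
  obtain ⟨hh0, hh1, hhA⟩ := inv_facts hA
  set h := A1⁻¹ with hh
  have hvar := var_lower (p0 := p0) (p1 := p1) (p2 := p2) N.att
  rw [← hA1] at hvar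
  have hslotz : Slot b0 b1 b2 z0 z1 z2 ((b0 + b1 + b2 - 3) * (z0 + z1 + z2 - 3) / 3
      + (1 - h) * (ipz - 3 / 2 * A1)) := by
    refine (slotF2 (mu := nu) (th := h) N.hm0 N.hm1 N.hm2 N.hx0 N.hx1 N.hx2 N.hy0 N.hy1
      N.hy2 N.e0 N.e1 N.e2 hh0.le hh1.le (by rw [← hA1, hhA]; linarith [N.hmu])
      (by rw [← hA1, hhA])).mono ?_
    rw [← hipz]
    have q1 := mul_nonneg hh0.le hZZ
    have q2 := mul_le_mul_of_nonneg_left hvar (mul_nonneg hh0.le (sub_nonneg.2 hh1.le))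
    have q3 : h * (1 - h) * (3 / 2 * A1 ^ 2) = (1 - h) * (3 / 2 * A1) := by
      linear_combination (3 / 2 * A1 * (1 - h)) * hhA
    rw [q3] at q2
    linarith
  rcases le_or_gt (m0 + m1 + m2) 3 with hT0 | hT0
  · -- case T_0 ≤ 3
    refine ⟨0, _, slotF1 M.h0 M.h1 M.h2 M.hx0 M.hx1 M.hx2 M.hy0 M.hy1 M.hy2 M.e0 M.e1 M.e2 hT0,
      hslotz, ?_⟩
    have hup : ipz ≤ (y0 + y1 + y2) ^ 2 / 3 := by
      have hdec : ipy = (b0 - (b0 + b1 + b2) / 3) * (y0 - (y0 + y1 + y2) / 3)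
          + (b1 - (b0 + b1 + b2) / 3) * (y1 - (y0 + y1 + y2) / 3)
          + (b2 - (b0 + b1 + b2) / 3) * (y2 - (y0 + y1 + y2) / 3) := by rw [hipy]; ring
      have hg : (y0 - (y0 + y1 + y2) / 3) ^ 2 + (y1 - (y0 + y1 + y2) / 3) ^ 2
          + (y2 - (y0 + y1 + y2) / 3) ^ 2 ≤ 2 / 3 * (y0 + y1 + y2) ^ 2 := by
        nlinarith [mul_nonneg hy0 hy1, mul_nonneg hy0 hy2, mul_nonneg hy1 hy2]
      have r0 := cs_aux (b0 - (b0 + b1 + b2) / 3) (y0 - (y0 + y1 + y2) / 3)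
      have r1 := cs_aux (b1 - (b0 + b1 + b2) / 3) (y1 - (y0 + y1 + y2) / 3)
      have r2 := cs_aux (b2 - (b0 + b1 + b2) / 3) (y2 - (y0 + y1 + y2) / 3)
      linarith
    set Y := y0 + y1 + y2 with hYdef
    have hBY3 : Y ≤ b0 + b1 + b2 - 3 := by linarith
    have q1 : (1 - h) * (ipz - 3 / 2 * A1) ≤ (1 - h) * (Y ^ 2 / 3 - 3 / 2 * A1) :=
      mul_le_mul_of_nonneg_left (by linarith) (by linarith)
    have q2 : Y * (Y - 3) ≤ (b0 + b1 + b2 - 3) * (Y - 3) :=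
      mul_le_mul_of_nonneg_right hBY3 (by linarith)
    -- total: (1-h)(Y²/3 - 3/2 A1) ≤ Y(Y-3)/3 + 3/4
    have q3 : (1 - h) * (Y ^ 2 / 3 - 3 / 2 * A1) ≤ Y * (Y - 3) / 3 + 3 / 4 := by
      have e1 : (1 - h) * (Y ^ 2 / 3 - 3 / 2 * A1)
          = Y ^ 2 / 3 - h * Y ^ 2 / 3 - 3 / 2 * A1 + 3 / 2 := by
        linear_combination (3 / 2) * hhA
      rw [e1]
      have e2 : Y ≤ h * Y ^ 2 / 3 + 3 / 4 * A1 := by
        have : 0 ≤ h * (Y - 3 / 2 * A1) ^ 2 := mul_nonneg hh0.le (sq_nonneg _)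
        have e3 : h * (Y - 3 / 2 * A1) ^ 2 = h * Y ^ 2 - 3 * Y + 9 / 4 * A1 := by
          linear_combination (-3 * Y + 9 / 4 * A1) * hhA
        linarith
      linarith
    linarith
  rcases le_or_gt 1 mu with hmu | hmu
  · -- case mu_0 ≥ 1: th_0 = 0
    refine ⟨_, _, slotF2 (mu := mu) (th := 0) M.hm0 M.hm1 M.hm2 M.hx0 M.hx1 M.hx2 M.hy0 M.hy1
      M.hy2 M.e0 M.e1 M.e2 le_rfl zero_le_one (by rw [zero_mul]; linarith)
      (by rw [zero_mul]; norm_num), hslotz, ?_⟩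
    rw [← hipy]
    have q1 : 0 ≤ h * ipz := mul_nonneg hh0.le hip.le
    have q2 : 0 ≤ (1 - h) * (3 / 2 * A1) := mul_nonneg (by linarith) (by linarith)
    rw [sub_zero, zero_mul, mul_one, zero_mul, one_mul]
    linarith
  · -- case mu_0 < 1
    set A0 := (m0 + m1 + m2) / 3 - mu with hA0
    have hA0pos : 0 < A0 := by linarith
    have hs : 0 < 1 - mu := by linarith
    set l := (1 - mu) / A0 with hl
    have hl0 : 0 < l := div_pos hs hA0pos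
    have hl1 : l ≤ 1 := by rw [hl, div_le_one hA0pos]; linarith
    have hlA : l * A0 = 1 - mu := div_mul_cancel₀ _ hA0pos.ne'
    refine ⟨_, _, slotF2 (mu := mu) (th := l) M.hm0 M.hm1 M.hm2 M.hx0 M.hx1 M.hx2 M.hy0 M.hy1
      M.hy2 M.e0 M.e1 M.e2 hl0.le hl1 (by rw [← hA0, hlA])
      (by rw [← hA0, hlA]; linarith [M.hmu]), hslotz, ?_⟩
    rw [← hipy]
    set Z0 := (b0 + b1 + b2 - (m0 + m1 + m2)) * (y0 + y1 + y2 - (m0 + m1 + m2)) / 3 with hZ0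
    set n0 := (m0 - (m0 + m1 + m2) / 3) ^ 2 + (m1 - (m0 + m1 + m2) / 3) ^ 2
      + (m2 - (m0 + m1 + m2) / 3) ^ 2 with hn0
    have hn0' : 0 ≤ n0 := by positivity
    have hn6 : n0 ≤ 6 * A0 ^ 2 := var_upper M.hm0 M.hm1 M.hm2
    have hZ0n : 0 ≤ Z0 := by
      have : 0 ≤ (b0 + b1 + b2 - (m0 + m1 + m2)) * (y0 + y1 + y2 - (m0 + m1 + m2)) :=
        mul_nonneg (by linarith) (by linarith)
      rw [hZ0]; linarith
    have hkap : 0 ≤ y0 + y1 + y2 - (m0 + m1 + m2) := by linarith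
    have hhZ : y0 + y1 + y2 - (m0 + m1 + m2) ≤ h * Z0 := by
      have h1 : 3 * A1 ≤ b0 + b1 + b2 - (m0 + m1 + m2) := by
        have := N.hmu
        have : 3 * A1 = p0 + p1 + p2 - 3 * nu := by rw [hA1]; ring
        linarith
      have h2 : h * (3 * A1) * (y0 + y1 + y2 - (m0 + m1 + m2)) ≤
          h * (b0 + b1 + b2 - (m0 + m1 + m2)) * (y0 + y1 + y2 - (m0 + m1 + m2)) :=
        mul_le_mul_of_nonneg_right (mul_le_mul_of_nonneg_left h1 hh0.le) hkap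
      have h3 : h * (3 * A1) = 3 := by linear_combination 3 * hhA
      rw [h3] at h2
      rw [hZ0]
      linarith
    have hup : ipz ≤ 3 * A0 ^ 2 + A0 * (y0 + y1 + y2 - (m0 + m1 + m2)) + Z0 := by
      -- ipy + Z0 = ∑ α (β + κ)
      have hdec : ipy + Z0 = (m0 - (m0 + m1 + m2) / 3) * ((b0 - (b0 + b1 + b2) / 3) + (y0 - m0))
          + (m1 - (m0 + m1 + m2) / 3) * ((b1 - (b0 + b1 + b2) / 3) + (y1 - m1))
          + (m2 - (m0 + m1 + m2) / 3) * ((b2 - (b0 + b1 + b2) / 3) + (y2 - m2)) := by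
        rw [hipy, hZ0]
        linear_combination M.e0 + M.e1 + M.e2
      have k0 : -(A0 * (y0 - m0)) ≤ (m0 - (m0 + m1 + m2) / 3) * (y0 - m0) := by
        have := mul_nonneg (sub_nonneg.2 M.hm0) (sub_nonneg.2 M.hy0)
        rw [hA0]; linarith
      have k1 : -(A0 * (y1 - m1)) ≤ (m1 - (m0 + m1 + m2) / 3) * (y1 - m1) := by
        have := mul_nonneg (sub_nonneg.2 M.hm1) (sub_nonneg.2 M.hy1)
        rw [hA0]; linarith
      have k2 : -(A0 * (y2 - m2)) ≤ (m2 - (m0 + m1 + m2) / 3) * (y2 - m2) := by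
        have := mul_nonneg (sub_nonneg.2 M.hm2) (sub_nonneg.2 M.hy2)
        rw [hA0]; linarith
      have r0 := cs_aux (b0 - (b0 + b1 + b2) / 3) (m0 - (m0 + m1 + m2) / 3)
      have r1 := cs_aux (b1 - (b0 + b1 + b2) / 3) (m1 - (m0 + m1 + m2) / 3)
      have r2 := cs_aux (b2 - (b0 + b1 + b2) / 3) (m2 - (m0 + m1 + m2) / 3)
      linarith
    have hfin := final_num (s := 1 - mu) hh0 hh1 hhA hl0 hl1 hlA hs (by linarith [M.hmu]) hA0pos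
      hip hipyz hup hkap hZ0n hhZ
    have hln : 0 ≤ l * (1 - l) * n0 := mul_nonneg (mul_nonneg hl0.le (by linarith)) hn0'
    linarith


lemma core3 {b0 b1 b2 y0 y1 y2 z0 z1 z2 : ℝ}
    (hb0 : b0 = y2 + z2) (hb1 : b1 = y0 + z0) (hb2 : b2 = y1 + z1)
    (hy0 : 0 ≤ y0) (hy1 : 0 ≤ y1) (hy2 : 0 ≤ y2) (hz0 : 0 ≤ z0) (hz1 : 0 ≤ z1) (hz2 : 0 ≤ z2)
    (hY : 3 ≤ y0 + y1 + y2) (hZ : 3 ≤ z0 + z1 + z2) :
    ∃ v w, Slot b0 b1 b2 y0 y1 y2 v ∧ Slot b0 b1 b2 z0 z1 z2 w ∧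
      v + w ≤ (b0 + b1 + b2 - 9 / 2) ^ 2 / 3 := by
  have hbn0 : 0 ≤ b0 := by linarith
  have hbn1 : 0 ≤ b1 := by linarith
  have hbn2 : 0 ≤ b2 := by linarith
  obtain ⟨m0, m1, m2, mu, M⟩ := exists_minData hbn0 hbn1 hbn2 hy0 hy1 hy2
  obtain ⟨p0, p1, p2, nu, N⟩ := exists_minData hbn0 hbn1 hbn2 hz0 hz1 hz2
  rcases lt_or_ge 0 (b0 * z0 + b1 * z1 + b2 * z2 - (b0 + b1 + b2) * (z0 + z1 + z2) / 3)
    with h1 | h1
  · exact big hb0 hb1 hb2 hy0 hy1 hy2 hY hZ M N h1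
  rcases lt_or_ge 0 (b0 * y0 + b1 * y1 + b2 * y2 - (b0 + b1 + b2) * (y0 + y1 + y2) / 3)
    with h2 | h2
  · obtain ⟨v, w, hv, hw, h⟩ := big (by linarith) (by linarith) (by linarith) hz0 hz1 hz2 hZ hY N M h2
    exact ⟨w, v, hw, hv, by linarith⟩
  refine ⟨_, _, slot_nonpos M (by linarith) hY h2, slot_nonpos N (by linarith) hZ h1, ?_⟩
  have hB : b0 + b1 + b2 = (y0 + y1 + y2) + (z0 + z1 + z2) := by rw [hb0, hb1, hb2]; ring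
  rw [hB]
  have : ((y0 + y1 + y2) + (z0 + z1 + z2) - 3) * (y0 + y1 + y2 - 3) / 3
      + ((y0 + y1 + y2) + (z0 + z1 + z2) - 3) * (z0 + z1 + z2 - 3) / 3 + 3 / 4
      = ((y0 + y1 + y2) + (z0 + z1 + z2) - 9 / 2) ^ 2 / 3 := by ring
  linarith

theorem caseA_numeric (c : Fin 3 → Fin 2 → ℝ) (hc : ∀ i e, 0 ≤ c i e) (t : ℝ) (ht : 0 < t)
    (h0 : t ≤ ∑ i, c i 0) (h1 : t ≤ ∑ i, c i 1) :
    ∃ g : Fin 3 → Fin 2 → ℝ,
      (∀ i e, 0 ≤ g i e ∧ g i e ≤ c i 0 + c i 1 ∧ g i e ≤ c (i+1) e) ∧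
      (∀ e, ∑ i, g i e ≤ t) ∧
      ∑ i, ∑ e, (c i 0 + c i 1 - g i e) * (c (i+1) e - g i e)
        ≤ (1/3) * ((∑ i, (c i 0 + c i 1)) - 3/2*t)^2 := by
  simp only [Fin.sum_univ_three] at h0 h1
  set r := t / 3 with hr
  have hr0 : 0 < r := by positivity
  have htr : t = 3 * r := by rw [hr]; ring
  have hdiv : ∀ i e, 0 ≤ c i e / r := fun i e => div_nonneg (hc i e) hr0.le
  obtain ⟨v, w, ⟨g0, g1, g2, G0, G1, G2, Gs, Gv⟩, ⟨k0, k1, k2, K0, K1, K2, Ks, Kw⟩, hvw⟩ :=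
    core3 (b0 := c 0 0 / r + c 0 1 / r) (b1 := c 1 0 / r + c 1 1 / r)
      (b2 := c 2 0 / r + c 2 1 / r) (y0 := c 1 0 / r) (y1 := c 2 0 / r) (y2 := c 0 0 / r)
      (z0 := c 1 1 / r) (z1 := c 2 1 / r) (z2 := c 0 1 / r) rfl rfl rfl
      (hdiv _ _) (hdiv _ _) (hdiv _ _) (hdiv _ _) (hdiv _ _) (hdiv _ _)
      (by rw [← add_div, ← add_div, le_div_iff₀ hr0]; linarith)
      (by rw [← add_div, ← add_div, le_div_iff₀ hr0]; linarith)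
  have hcr : ∀ i e, c i e = (c i e / r) * r := fun i e => (div_mul_cancel₀ _ hr0.ne').symm
  refine ⟨![![r * g0, r * k0], ![r * g1, r * k1], ![r * g2, r * k2]], ?_, ?_, ?_⟩
  · have hm : ∀ {g x : ℝ}, g ≤ x → r * g ≤ x * r := by
      intro g x h; rw [mul_comm]; exact mul_le_mul_of_nonneg_right h hr0.le
    have hadd : ∀ i, (c i 0 / r + c i 1 / r) * r = c i 0 + c i 1 := by
      intro i; rw [add_mul, ← hcr, ← hcr]
    intro i e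
    fin_cases i <;> fin_cases e
    · exact ⟨mul_nonneg hr0.le G0.1, (hadd 0) ▸ hm G0.2.1, (hcr 1 0).symm ▸ hm G0.2.2⟩
    · exact ⟨mul_nonneg hr0.le K0.1, (hadd 0) ▸ hm K0.2.1, (hcr 1 1).symm ▸ hm K0.2.2⟩
    · exact ⟨mul_nonneg hr0.le G1.1, (hadd 1) ▸ hm G1.2.1, (hcr 2 0).symm ▸ hm G1.2.2⟩
    · exact ⟨mul_nonneg hr0.le K1.1, (hadd 1) ▸ hm K1.2.1, (hcr 2 1).symm ▸ hm K1.2.2⟩
    · exact ⟨mul_nonneg hr0.le G2.1, (hadd 2) ▸ hm G2.2.1, (hcr 0 0).symm ▸ hm G2.2.2⟩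
    · exact ⟨mul_nonneg hr0.le K2.1, (hadd 2) ▸ hm K2.2.1, (hcr 0 1).symm ▸ hm K2.2.2⟩
  · intro e
    rw [Fin.sum_univ_three]
    fin_cases e
    · show r * g0 + r * g1 + r * g2 ≤ t
      nlinarith
    · show r * k0 + r * k1 + r * k2 ≤ t
      nlinarith
  · rw [Fin.sum_univ_three, Fin.sum_univ_three, Fin.sum_univ_two, Fin.sum_univ_two,
      Fin.sum_univ_two]
    show (c 0 0 + c 0 1 - r * g0) * (c 1 0 - r * g0) + (c 0 0 + c 0 1 - r * k0) * (c 1 1 - r * k0)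
      + ((c 1 0 + c 1 1 - r * g1) * (c 2 0 - r * g1) + (c 1 0 + c 1 1 - r * k1) * (c 2 1 - r * k1))
      + ((c 2 0 + c 2 1 - r * g2) * (c 0 0 - r * g2) + (c 2 0 + c 2 1 - r * k2) * (c 0 1 - r * k2))
      ≤ _
    rw [htr]
    have e00 := hcr 0 0
    have e01 := hcr 0 1
    have e10 := hcr 1 0
    have e11 := hcr 1 1
    have e20 := hcr 2 0
    have e21 := hcr 2 1
    generalize c 0 0 / r = x00 at *
    generalize c 0 1 / r = x01 at *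
    generalize c 1 0 / r = x10 at *
    generalize c 1 1 / r = x11 at *
    generalize c 2 0 / r = x20 at *
    generalize c 2 1 / r = x21 at *
    rw [e00, e01, e10, e11, e20, e21]
    have hfin := mul_le_mul_of_nonneg_left (add_le_add Gv Kw |>.trans hvw) (sq_nonneg r)
    have E1 : (x00 * r + x01 * r - r * g0) * (x10 * r - r * g0)
        + (x00 * r + x01 * r - r * k0) * (x11 * r - r * k0)
        + ((x10 * r + x11 * r - r * g1) * (x20 * r - r * g1)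
          + (x10 * r + x11 * r - r * k1) * (x21 * r - r * k1))
        + ((x20 * r + x21 * r - r * g2) * (x00 * r - r * g2)
          + (x20 * r + x21 * r - r * k2) * (x01 * r - r * k2))
        = r ^ 2 * ((x00 + x01 - g0) * (x10 - g0) + (x10 + x11 - g1) * (x20 - g1)
          + (x20 + x21 - g2) * (x00 - g2) + ((x00 + x01 - k0) * (x11 - k0)
          + (x10 + x11 - k1) * (x21 - k1) + (x20 + x21 - k2) * (x01 - k2))) := by ring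
    rw [E1]
    refine hfin.trans (le_of_eq ?_)
    ring

end Ap013
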