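import Pool.Agent.H.MP_4074ca_co.BSplit
import Pool.Agent.H.MP_4074ca_co.CaseA

namespace Ap013

open Finset

/-- class `j * i` modulo 3 -/
def CC (B : Finset ℤ) (j : ℤ) (i : Fin 3) : Finset ℤ :=
  B.filter (fun x => x % 3 = (j * ((i : ℕ) : ℤ)) % 3)

/-- class `j * i` modulo 3, parity `e` -/
def CE (B : Finset ℤ) (j : ℤ) (i : Fin 3) (e : Fin 2) : Finset ℤ :=
  (CC B j i).filter (fun x => x % 2 = ((e : ℕ) : ℤ))

/-- parity `e` part -/
def SE (S : Finset ℤ) (e : Fin 2) : Finset ℤ := S.filter (fun u => u % 2 = ((e : ℕ) : ℤ))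

lemma mem_CC {B : Finset ℤ} {j : ℤ} {i : Fin 3} {x : ℤ} :
    x ∈ CC B j i ↔ x ∈ B ∧ x % 3 = (j * ((i : ℕ) : ℤ)) % 3 := by simp [CC]
lemma mem_CE {B : Finset ℤ} {j : ℤ} {i : Fin 3} {e : Fin 2} {x : ℤ} :
    x ∈ CE B j i e ↔ (x ∈ B ∧ x % 3 = (j * ((i : ℕ) : ℤ)) % 3) ∧ x % 2 = ((e : ℕ) : ℤ) := by
  rw [CE, mem_filter, mem_CC]
lemma mem_SE {S : Finset ℤ} {e : Fin 2} {x : ℤ} :
    x ∈ SE S e ↔ x ∈ S ∧ x % 2 = ((e : ℕ) : ℤ) := by simp [SE]

lemma exists_par2 (z : ℤ) : ∃ e : Fin 2, z % 2 = ((e : ℕ) : ℤ) := by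
  have : z % 2 = 0 ∨ z % 2 = 1 := by omega
  rcases this with h | h
  · exact ⟨0, by rw [h]; rfl⟩
  · exact ⟨1, by rw [h]; rfl⟩

lemma card_split2 (B : Finset ℤ) :
    (B.filter (fun x => x % 2 = (((0 : Fin 2) : ℕ) : ℤ))).card +
      (B.filter (fun x => x % 2 = (((1 : Fin 2) : ℕ) : ℤ))).card = B.card := by
  rw [← card_union_of_disjoint]
  · congr 1
    ext x
    simp only [mem_union, mem_filter]
    constructor
    · rintro (h | h) <;> exact h.1
    · intro h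
      obtain ⟨e, he⟩ := exists_par2 x
      fin_cases e
      · left; exact ⟨h, he⟩
      · right; exact ⟨h, he⟩
  · rw [disjoint_left]
    intro x h0 h1
    rw [mem_filter] at h0 h1
    have a := h0.2
    have b := h1.2
    simp at a b
    omega

lemma card_cls (B : Finset ℤ) (j : ℤ) (hj : j = 1 ∨ j = 2) (p : ℤ → Prop) [DecidablePred p] :
    ∑ i : Fin 3, ((CC B j i).filter p).card = (B.filter p).card := by
  rw [← card_biUnion]
  · congr 1
    ext x
    simp only [mem_biUnion, mem_univ, true_and, mem_filter, mem_CC]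
    constructor
    · rintro ⟨i, ⟨h1, h2⟩, h3⟩; exact ⟨h1, h3⟩
    · rintro ⟨h1, h2⟩
      obtain ⟨i, hi⟩ := exists_cls j hj x
      exact ⟨i, ⟨h1, hi⟩, h2⟩
  · intro i _ i' _ hne
    rw [Function.onFun, disjoint_left]
    intro x h0 h1
    rw [mem_filter, mem_CC] at h0 h1
    apply hne
    have h := h0.1.2.symm.trans h1.1.2
    rcases hj with rfl | rfl <;> fin_cases i <;> fin_cases i' <;> simp at h ⊢

theorem caseA_bound (B S : Finset ℤ) (j : ℤ) (hj : j = 1 ∨ j = 2) (hS : ∀ u ∈ S, u % 3 = j)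
    (t : ℝ) (ht : 0 < t) (h0 : t ≤ (evs B).card) (h1 : t ≤ (ods B).card) :
    (cnt B B S : ℝ) ≤ t * S.card + 1 / 3 * (B.card - 3 / 2 * t) ^ 2 + 3 / 2 := by
  have hb : cnt B B S ≤ ∑ i : Fin 3, ∑ e : Fin 2, cnt (CC B j i) (CE B j (i + 1) e) (SE S e) := by
    rw [← Finset.sum_product']
    apply cnt_le_sum ((univ : Finset (Fin 3)) ×ˢ (univ : Finset (Fin 2))) B B S
      (fun k => CC B j k.1) (fun k => CE B j (k.1 + 1) k.2) (fun k => SE S k.2)
    intro x hx z hz hs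
    obtain ⟨i, hi⟩ := exists_cls j hj x
    obtain ⟨e, he⟩ := exists_par2 z
    refine ⟨(i, e), by simp, mem_CC.2 ⟨hx, hi⟩, mem_CE.2 ⟨⟨hz, ?_⟩, he⟩, mem_SE.2 ⟨hs, ?_⟩⟩
    · have := hS _ hs
      have h3 := cls_succ j hj i
      simp only
      rw [h3, ← hi]
      rcases hj with rfl | rfl <;> omega
    · simp only
      rw [← he]
      omega
  have c0 : ∀ i, ((CC B j i).card : ℝ) = (CE B j i 0).card + (CE B j i 1).card := by
    intro i
    have := card_split2 (CC B j i)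
    rw [← this]
    unfold CE
    push_cast
    ring
  have cev : ∀ e : Fin 2, ∑ i : Fin 3, (CE B j i e).card =
      (B.filter (fun x => x % 2 = ((e : ℕ) : ℤ))).card := by
    intro e
    exact card_cls B j hj (fun x => x % 2 = ((e : ℕ) : ℤ))
  have hev : ((evs B).card : ℝ) = ∑ i : Fin 3, ((CE B j i 0).card : ℝ) := by
    have := cev 0
    rw [← Nat.cast_sum, this]
    rfl
  have hod : ((ods B).card : ℝ) = ∑ i : Fin 3, ((CE B j i 1).card : ℝ) := by
    have := cev 1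
    rw [← Nat.cast_sum, this]
    rfl
  obtain ⟨g, hg1, hg2, hg3⟩ := caseA_numeric (fun i e => ((CE B j i e).card : ℝ))
    (fun i e => Nat.cast_nonneg _) t ht (by rw [← hev]; exact h0) (by rw [← hod]; exact h1)
  have hbr : (cnt B B S : ℝ) ≤ ∑ i : Fin 3, ∑ e : Fin 2,
      (cnt (CC B j i) (CE B j (i + 1) e) (SE S e) : ℝ) := by exact_mod_cast hb
  have hterm : ∀ i : Fin 3, ∀ e : Fin 2, (cnt (CC B j i) (CE B j (i + 1) e) (SE S e) : ℝ) ≤
      g i e * (SE S e).card +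
      (((CE B j i 0).card + (CE B j i 1).card : ℝ) - g i e) * ((CE B j (i + 1) e).card - g i e) + 1 / 4 := by
    intro i e
    obtain ⟨k1, k2, k3⟩ := hg1 i e
    have := chain_S (CC B j i) (CE B j (i + 1) e) (SE S e) (g i e) k1
      (by rw [c0 i]; exact k2) k3
    rw [c0 i] at this
    exact this
  have hB : (B.card : ℝ) = ∑ i : Fin 3, (((CE B j i 0).card : ℝ) + (CE B j i 1).card) := by
    rw [Finset.sum_add_distrib, ← hev, ← hod]
    have := card_split2 B
    rw [← this]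
    push_cast
    rfl
  rw [hB]
  have hs0 : ((SE S 0).card : ℝ) + (SE S 1).card = S.card := by
    have := card_split2 S
    rw [← this]
    push_cast
    rfl
  have hsum : ∑ i : Fin 3, ∑ e : Fin 2, (cnt (CC B j i) (CE B j (i + 1) e) (SE S e) : ℝ) ≤
      ∑ i : Fin 3, ∑ e : Fin 2, (g i e * (SE S e).card +
      (((CE B j i 0).card + (CE B j i 1).card : ℝ) - g i e) * ((CE B j (i + 1) e).card - g i e) + 1 / 4) :=
    Finset.sum_le_sum (fun i _ => Finset.sum_le_sum (fun e _ => hterm i e))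
  have hsplit : ∑ i : Fin 3, ∑ e : Fin 2, (g i e * (SE S e).card +
      (((CE B j i 0).card + (CE B j i 1).card : ℝ) - g i e) * ((CE B j (i + 1) e).card - g i e) + 1 / 4) =
      (∑ i : Fin 3, g i 0) * (SE S 0).card + (∑ i : Fin 3, g i 1) * (SE S 1).card +
      ∑ i : Fin 3, ∑ e : Fin 2,
        (((CE B j i 0).card + (CE B j i 1).card : ℝ) - g i e) * ((CE B j (i + 1) e).card - g i e) + 3 / 2 := by
    simp only [Fin.sum_univ_three, Fin.sum_univ_two]
    ring
  have e0 := mul_le_mul_of_nonneg_right (hg2 0) (Nat.cast_nonneg (SE S 0).card : (0 : ℝ) ≤ _)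
  have e1 := mul_le_mul_of_nonneg_right (hg2 1) (Nat.cast_nonneg (SE S 1).card : (0 : ℝ) ≤ _)
  have hfin : t * (S.card : ℝ) = t * (SE S 0).card + t * (SE S 1).card := by
    rw [← hs0]; ring
  rw [hfin]
  linarith [hbr, hsum, hsplit, hg3, e0, e1]

end Ap013
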