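import Pool.Agent.H.MP_4074ca_co.BSplit
import Pool.Agent.H.MP_4074ca_co.CGen

namespace Ap013

open Finset

lemma MB_cnt (X Z S : Finset ℤ) : CB.MB (cnt X Z S : ℝ) X.card Z.card S.card := by
  refine ⟨?_, ?_, ?_, ?_⟩
  · have := cnt_le_XS X Z S
    rw [mul_comm]
    exact_mod_cast this
  · have := cnt_le_ZS X Z S
    rw [mul_comm]
    exact_mod_cast this
  · intro z h0 h1 h2
    exact chain_Z X Z S z h0 h1 h2
  · intro z h0 h1 h2
    exact chain_X X Z S z h0 h1 h2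

lemma YB_cnt (X Z S : Finset ℤ) : CB.YB (cnt X Z S : ℝ) X.card Z.card S.card := by
  refine ⟨?_, ?_, ?_⟩
  · have := cnt_le_XZ X Z S
    exact_mod_cast this
  · have := cnt_le_ZS X Z S
    rw [mul_comm]
    exact_mod_cast this
  · intro z h0 h1 h2
    exact chain_Z X Z S z h0 h1 h2

theorem caseB (B S : Finset ℤ) (j : ℤ) (hj : j = 1 ∨ j = 2) (hS : ∀ u ∈ S, u % 3 = j)
    (hS2 : ∀ u ∈ S, u % 2 = 0) (hq : 1 ≤ (ods B).card) (hσ : 1 ≤ S.card) :
    (2 * (cnt B B S : ℝ) ≤ 2 / 3 * S.card * (2 * ((evs B).card + (ods B).card) - S.card) + 6) ∨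
    ((TT B : ℝ) + 2 * cnt B B S ≤ (TT (evs B) + 2 * cnt (evs B) (evs B) S) + TT (ods B) +
      ((ods B).card : ℝ) ^ 2 / 2 +
      (ods B).card * (2 / 3 * (evs B).card + 4 / 3 * S.card - (ods B).card / 2) + 3) := by
  have hM : ∀ (i : Fin 3) (e : Fin 2), CB.MB
      (cnt (PP B j i 0 ∪ PP B j i 1) (PP B j (i + 1) e) (SS S e) : ℝ)
      ((PP B j i 0).card + (PP B j i 1).card) (PP B j (i + 1) e).card (SS S e).card := by
    intro i e
    have := MB_cnt (PP B j i 0 ∪ PP B j i 1) (PP B j (i + 1) e) (SS S e)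
    rw [card_PP_union] at this
    push_cast at this
    exact this
  have hY : ∀ (i : Fin 3) (e : Fin 2), CB.YB
      (cnt (QQ B j i) (PP B j (i + 1) e) (SS S (1 - e)) : ℝ)
      (QQ B j i).card (PP B j (i + 1) e).card (SS S (1 - e)).card := by
    intro i e
    exact YB_cnt _ _ _
  have cQ := card_QQ B j hj
  have cP := card_PP B j hj
  have cS := card_SS S hS2
  rw [Fin.sum_univ_three] at cQ cP
  have N1 := cnt_split_le B S j hj hS hS2
  have N2 := cnt_even_le B S j hj hS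
  have T1 := TT_split B j hj
  simp only [Fin.sum_univ_three, Fin.sum_univ_two] at N1 N2 T1
  have N1r : (cnt B B S : ℝ) ≤ (cnt (evs B) (evs B) S : ℝ) +
    ((cnt (QQ B j 0) (PP B j (0 + 1) 0) (SS S (1 - 0)) + cnt (QQ B j 0) (PP B j (0 + 1) 1) (SS S (1 - 1))) +
     (cnt (QQ B j 1) (PP B j (1 + 1) 0) (SS S (1 - 0)) + cnt (QQ B j 1) (PP B j (1 + 1) 1) (SS S (1 - 1))) +
     (cnt (QQ B j 2) (PP B j (2 + 1) 0) (SS S (1 - 0)) + cnt (QQ B j 2) (PP B j (2 + 1) 1) (SS S (1 - 1)))) := by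
    exact_mod_cast N1
  have N2r : (cnt (evs B) (evs B) S : ℝ) ≤
    ((cnt (PP B j 0 0 ∪ PP B j 0 1) (PP B j (0 + 1) 0) (SS S 0) + cnt (PP B j 0 0 ∪ PP B j 0 1) (PP B j (0 + 1) 1) (SS S 1)) +
     (cnt (PP B j 1 0 ∪ PP B j 1 1) (PP B j (1 + 1) 0) (SS S 0) + cnt (PP B j 1 0 ∪ PP B j 1 1) (PP B j (1 + 1) 1) (SS S 1)) +
     (cnt (PP B j 2 0 ∪ PP B j 2 1) (PP B j (2 + 1) 0) (SS S 0) + cnt (PP B j 2 0 ∪ PP B j 2 1) (PP B j (2 + 1) 1) (SS S 1))) := by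
    exact_mod_cast N2
  have e01 : (0 + 1 : Fin 3) = 1 := rfl
  have e11 : (1 + 1 : Fin 3) = 2 := rfl
  have e21 : (2 + 1 : Fin 3) = 0 := rfl
  have f0 : (1 - 0 : Fin 2) = 1 := rfl
  have f1 : (1 - 1 : Fin 2) = 0 := rfl
  have hM0 := hM 0 0
  have hM1 := hM 0 1
  have hM2 := hM 1 0
  have hM3 := hM 1 1
  have hM4 := hM 2 0
  have hM5 := hM 2 1
  have hY0 := hY 0 0
  have hY1 := hY 0 1
  have hY2 := hY 1 0
  have hY3 := hY 1 1
  have hY4 := hY 2 0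
  have hY5 := hY 2 1
  rw [e01] at hM0 hM1 hY0 hY1
  rw [e11] at hM2 hM3 hY2 hY3
  rw [e21] at hM4 hM5 hY4 hY5
  rw [f0] at hY0 hY2 hY4
  rw [f1] at hY1 hY3 hY5
  rw [e01, e11, e21, f0, f1] at N1r
  rw [e01, e11, e21] at N2r
  have cQr : ((QQ B j 0).card : ℝ) + (QQ B j 1).card + (QQ B j 2).card = (ods B).card := by
    exact_mod_cast cQ
  have cPr : (((PP B j 0 0).card : ℝ) + (PP B j 0 1).card) + ((PP B j 1 0).card + (PP B j 1 1).card) +
      ((PP B j 2 0).card + (PP B j 2 1).card) = (evs B).card := by exact_mod_cast cP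
  have cSr : ((SS S 0).card : ℝ) + (SS S 1).card = S.card := by exact_mod_cast cS
  have hqr : (1 : ℝ) ≤ (ods B).card := by exact_mod_cast hq
  have hσr : (1 : ℝ) ≤ S.card := by exact_mod_cast hσ
  have G := CB.Cgen ((PP B j 0 0).card : ℝ) (PP B j 0 1).card (PP B j 1 0).card (PP B j 1 1).card
    (PP B j 2 0).card (PP B j 2 1).card (QQ B j 0).card (QQ B j 1).card (QQ B j 2).card
    (SS S 0).card (SS S 1).card _ _ _ _ _ _ _ _ _ _ _ _
    (Nat.cast_nonneg _) (Nat.cast_nonneg _) (Nat.cast_nonneg _) (Nat.cast_nonneg _)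
    (Nat.cast_nonneg _) (Nat.cast_nonneg _) (Nat.cast_nonneg _) (Nat.cast_nonneg _)
    (Nat.cast_nonneg _) (Nat.cast_nonneg _) (Nat.cast_nonneg _) (by rw [cQr]; linarith)
    (by rw [cSr]; linarith) hM0 hM1 hM2 hM3 hM4 hM5 hY0 hY1 hY2 hY3 hY4 hY5
  unfold CB.Goal at G
  rw [cQr, cSr] at G
  have cPr' : ((PP B j 0 0).card : ℝ) + (PP B j 0 1).card + (PP B j 1 0).card + (PP B j 1 1).card +
      (PP B j 2 0).card + (PP B j 2 1).card = (evs B).card := by linarith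
  rw [cPr'] at G
  by_contra hcon
  push Not at hcon
  obtain ⟨h1, h2⟩ := hcon
  generalize ((QQ B j 0).card : ℝ) * ((PP B j 0 0).card + (PP B j 0 1).card) +
    (QQ B j 1).card * ((PP B j 1 0).card + (PP B j 1 1).card) +
    (QQ B j 2).card * ((PP B j 2 0).card + (PP B j 2 1).card) = C0 at G T1
  generalize hsY : ((cnt (QQ B j 0) (PP B j 1 0) (SS S 1) : ℝ) + cnt (QQ B j 0) (PP B j 1 1) (SS S 0) +
    cnt (QQ B j 1) (PP B j 2 0) (SS S 1) + cnt (QQ B j 1) (PP B j 2 1) (SS S 0) +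
    cnt (QQ B j 2) (PP B j 0 0) (SS S 1) + cnt (QQ B j 2) (PP B j 0 1) (SS S 0)) = sY at G
  generalize hsM : ((cnt (PP B j 0 0 ∪ PP B j 0 1) (PP B j 1 0) (SS S 0) : ℝ) +
    cnt (PP B j 0 0 ∪ PP B j 0 1) (PP B j 1 1) (SS S 1) +
    cnt (PP B j 1 0 ∪ PP B j 1 1) (PP B j 2 0) (SS S 0) +
    cnt (PP B j 1 0 ∪ PP B j 1 1) (PP B j 2 1) (SS S 1) +
    cnt (PP B j 2 0 ∪ PP B j 2 1) (PP B j 0 0) (SS S 0) +
    cnt (PP B j 2 0 ∪ PP B j 2 1) (PP B j 0 1) (SS S 1)) = sM at G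
  have N1' : (cnt B B S : ℝ) ≤ cnt (evs B) (evs B) S + sY := by linarith
  have N2' : (cnt (evs B) (evs B) S : ℝ) ≤ sM := by linarith
  generalize ((ods B).card : ℝ) = q at *
  generalize ((evs B).card : ℝ) = p at *
  generalize (S.card : ℝ) = s at *
  have k1 : 2 / 3 * s * (2 * (p + q) - s) + 6 < 2 * (sM + sY) := by linarith
  have k2 : q * (2 / 3 * p + 4 / 3 * s - q / 2) + 3 < C0 + 2 * sY := by linarith
  have hs0 : 0 < s := by linarith
  have hq0 : 0 < q := by linarith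
  have k1' : (1 / 3) * (2 * (p + q) - s) + 3 / s < (sM + sY) / s := by
    rw [lt_div_iff₀ hs0]
    have : ((1 / 3) * (2 * (p + q) - s) + 3 / s) * s = (2 / 3 * s * (2 * (p + q) - s) + 6) / 2 := by
      field_simp; ring
    rw [this]; linarith
  have k2' : 2 / 3 * p + 4 / 3 * s - q / 2 + 3 / q < (C0 + 2 * sY) / q := by
    rw [lt_div_iff₀ hq0]
    have : (2 / 3 * p + 4 / 3 * s - q / 2 + 3 / q) * q = q * (2 / 3 * p + 4 / 3 * s - q / 2) + 3 := by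
      field_simp
    rw [this]; linarith
  have e : C0 / q + (2 / q + 1 / s) * sY + sM / s = (C0 + 2 * sY) / q + (sM + sY) / s := by ring
  rw [e] at G
  linarith

end Ap013
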