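import Mathlib

namespace Ap013
namespace CB

abbrev I2 := Int × Int
abbrev I4 := I2 × I2
abbrev I8 := I4 × I4
abbrev I3 := Int × Int × Int
abbrev I9 := I3 × I3 × I3
abbrev I27 := I9 × I9 × I9

def add3 (a b : I3) : I3 := (Int.add a.1 b.1, Int.add a.2.1 b.2.1, Int.add a.2.2 b.2.2)
def add9 (a b : I9) : I9 := (add3 a.1 b.1, add3 a.2.1 b.2.1, add3 a.2.2 b.2.2)
def add27 (a b : I27) : I27 := (add9 a.1 b.1, add9 a.2.1 b.2.1, add9 a.2.2 b.2.2)
def mul3 (a b : I2) : I3 := (Int.mul a.1 b.1, Int.add (Int.mul a.1 b.2) (Int.mul a.2 b.1), Int.mul a.2 b.2)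
def mul9 (a b : I4) : I9 := (mul3 a.1 b.1, add3 (mul3 a.1 b.2) (mul3 a.2 b.1), mul3 a.2 b.2)
def mul27 (a b : I8) : I27 := (mul9 a.1 b.1, add9 (mul9 a.1 b.2) (mul9 a.2 b.1), mul9 a.2 b.2)

def np (x : Int) : Bool := match x with
  | Int.ofNat n => Nat.beq n 0
  | Int.negSucc _ => true
def nn (x : Int) : Bool := match x with
  | Int.ofNat _ => true
  | Int.negSucc _ => false
def np3 (a : I3) : Bool := np a.1 && np a.2.1 && np a.2.2
def np9 (a : I9) : Bool := np3 a.1 && np3 a.2.1 && np3 a.2.2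
def np27 (a : I27) : Bool := np9 a.1 && np9 a.2.1 && np9 a.2.2
def np2 (a : I2) : Bool := np a.1 && np a.2
def np4 (a : I4) : Bool := np2 a.1 && np2 a.2
def np8 (a : I8) : Bool := np4 a.1 && np4 a.2
def nn2 (a : I2) : Bool := nn a.1 && nn a.2
def nn4 (a : I4) : Bool := nn2 a.1 && nn2 a.2
def nn8 (a : I8) : Bool := nn4 a.1 && nn4 a.2

def chk : List (I8 × I8) → I27 → Bool
  | [], P => np27 P
  | (A, B) :: l, P =>
    if np8 A || np8 B then chk l P
    else if nn8 A && nn8 B then chk l (add27 P (mul27 A B))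
    else chk l P && chk l (add27 P (mul27 A B))

structure Box where
  X0 : Int
  X1 : Int
  t0 : Int
  t1 : Int
  V0 : Int
  V1 : Int
  S0 : Int
  S1 : Int

/-- configuration -/
structure Cfg where
  gain : Nat      -- class with gain (3 = none)
  rho0 : Int
  rho1 : Int
  lc : Nat        -- state class (3 = none)
  eta : Bool
  T2 : Int

inductive Tree where
  | leaf (mode : Bool) (b0 b1 b2 b3 b4 b5 l1 l2 : Int)
  | node (d : Nat) (m : Int) (l r : Tree)

def D : Int := 1024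
def D2 : Int := 1048576
def D3 : Int := 1073741824
def D5 : Int := 1125899906842624
def D6 : Int := 1152921504606846976

def tabXt (f : Int → Int → Int) (b : Box) : I4 := ((f b.X0 b.t0, f b.X1 b.t0), (f b.X0 b.t1, f b.X1 b.t1))

def smul2 (c : Int) (a : I2) : I2 := (Int.mul c a.1, Int.mul c a.2)
def smul4 (c : Int) (a : I4) : I4 := (smul2 c a.1, smul2 c a.2)
def sub2 (a b : I2) : I2 := (Int.sub a.1 b.1, Int.sub a.2 b.2)
def sub4 (a b : I4) : I4 := (sub2 a.1 b.1, sub2 a.2 b.2)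
def padd2 (a b : I2) : I2 := (Int.add a.1 b.1, Int.add a.2 b.2)
def padd4 (a b : I4) : I4 := (padd2 a.1 b.1, padd2 a.2 b.2)
def con2 (c : Int) : I2 := (c, c)
def con4 (c : Int) : I4 := (con2 c, con2 c)
def con8 (c : Int) : I8 := (con4 c, con4 c)

/-- a_k table: 2 D W - V G -/
def tabA (b : Box) (W G : I4) : I8 :=
  (sub4 (smul4 2048 W) (smul4 b.V0 G), sub4 (smul4 2048 W) (smul4 b.V1 G))
/-- b_k table: 3 (D ∓ S) D² - 2 (D - V) G, s = D ∓ S -/
def tabB (b : Box) (s : Int) (G : I4) : I8 :=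
  (sub4 (con4 (Int.mul (Int.mul 3 s) D2)) (smul4 (Int.mul 2 (Int.sub D b.V0)) G),
   sub4 (con4 (Int.mul (Int.mul 3 s) D2)) (smul4 (Int.mul 2 (Int.sub D b.V1)) G))

/-- gain products : - V β (3 s D - 2 β) D, given as table pair -/
def tabGA (b : Box) (be : I4) : I8 := (smul4 (Int.neg b.V0) be, smul4 (Int.neg b.V1) be)
def tabGB (s : Int) (be : I4) : I8 :=
  let x := sub4 (con4 (Int.mul (Int.mul 3 s) D2)) (smul4 2048 be)
  (x, x)

def wadd (g : Bool) (P : I27) (A B : I8) : I27 := if g then add27 P (mul27 A B) else P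

def checkS (b : Box) (c : Cfg) (S : Int) (W0 W1 W2 be0 be1 be2 be3 be4 be5 G0 G1 G2 G3 G4 G5 : I4) (l1 l2 : Int) : Bool :=
  let s0 := Int.add D S
  let s1 := Int.sub D S
  -- constraints: 0 ≤ β ≤ (3/2) s   (scaled: 2 β ≤ 3 s D)
  let u0 := con4 (Int.mul (Int.mul 3 s0) D)
  let u1 := con4 (Int.mul (Int.mul 3 s1) D)
  nn4 (sub4 u0 (smul4 2 be0)) && nn4 (sub4 u1 (smul4 2 be1)) &&
  nn4 (sub4 u0 (smul4 2 be2)) && nn4 (sub4 u1 (smul4 2 be3)) &&
  nn4 (sub4 u0 (smul4 2 be4)) && nn4 (sub4 u1 (smul4 2 be5)) &&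
  (match c.gain with
   | 0 => nn4 (sub4 (smul4 2 be0) (con4 (Int.mul (Int.mul 3 s0) c.rho0))) &&
          nn4 (sub4 (smul4 2 be1) (con4 (Int.mul (Int.mul 3 s1) c.rho1)))
   | 1 => nn4 (sub4 (smul4 2 be2) (con4 (Int.mul (Int.mul 3 s0) c.rho0))) &&
          nn4 (sub4 (smul4 2 be3) (con4 (Int.mul (Int.mul 3 s1) c.rho1)))
   | _ => true) &&
  (let se := if c.eta then s1 else s0
   let L := Int.mul (Int.mul 3 (Int.add (Int.mul l1 D) (Int.mul l2 c.T2))) (Int.mul se D2)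
   let base : I8 := (con4 (Int.add (Int.sub (Int.mul (-6) D6) (Int.mul (Int.mul 12 b.V0) D5)) (Int.mul b.V0 L)),
                     con4 (Int.add (Int.sub (Int.mul (-6) D6) (Int.mul (Int.mul 12 b.V1) D5)) (Int.mul b.V1 L)))
   let P0 := mul27 (con8 1) base
   let P1 := match c.gain with
     | 0 => add27 (add27 P0 (mul27 (tabGA b be0) (tabGB s0 be0))) (mul27 (tabGA b be1) (tabGB s1 be1))
     | 1 => add27 (add27 P0 (mul27 (tabGA b be2) (tabGB s0 be2))) (mul27 (tabGA b be3) (tabGB s1 be3))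
     | _ => P0
   chk [(tabA b W0 G0, tabB b s1 G0), (tabA b W0 G1, tabB b s0 G1),
        (tabA b W1 G2, tabB b s1 G2), (tabA b W1 G3, tabB b s0 G3),
        (tabA b W2 G4, tabB b s1 G4), (tabA b W2 G5, tabB b s0 G5)] P1)

def checkLeaf (c : Cfg) (b : Box) (mode : Bool) (b0 b1 b2 b3 b4 b5 l1 l2 : Int) : Bool :=
  let W0 := tabXt (fun X t => Int.add D2 (Int.mul (Int.add D X) t)) b
  let W1 := tabXt (fun X _ => Int.mul (Int.sub D X) D) b
  let W2 := tabXt (fun X t => Int.mul (Int.add D X) (Int.sub D t)) b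
  let be0 := con4 (Int.mul b0 D)
  let be1 := con4 (Int.mul b1 D)
  let be2 := if mode then tabXt (fun X _ => Int.mul (Int.sub b2 X) D) b else con4 (Int.mul b2 D)
  let be3 := con4 (Int.mul b3 D)
  let be4 := if mode then tabXt (fun X t => Int.sub (Int.mul b4 D) (Int.mul (Int.add D X) t)) b else con4 (Int.mul b4 D)
  let be5 := con4 (Int.mul b5 D)
  let i0 := Int.mul D (if c.lc = 0 then l1 else 0)
  let i1 := Int.mul D (if c.lc = 1 then l1 else 0)
  let i2 := Int.mul D (if c.lc = 2 then l1 else 0)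
  let j1e0 := Int.mul D (if c.lc = 0 && !c.eta then l2 else 0)
  let j1e1 := Int.mul D (if c.lc = 0 && c.eta then l2 else 0)
  let j2e0 := Int.mul D (if c.lc = 1 && !c.eta then l2 else 0)
  let j2e1 := Int.mul D (if c.lc = 1 && c.eta then l2 else 0)
  -- g_{ie} = 1 - 3w_{i+1} + β_{i+1} - β_{ie} + [i+1=LC] λ1 + [i+1=LC+1, e=ETA] λ2
  let H1 := padd4 (sub4 (padd4 be2 be3) W1) (con4 (Int.add D2 i1))
  let H2 := padd4 (sub4 (padd4 be4 be5) W2) (con4 (Int.add D2 i2))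
  let H0 := padd4 (sub4 (padd4 be0 be1) W0) (con4 (Int.add D2 i0))
  let G0 := padd4 (sub4 H1 be0) (con4 j1e0)
  let G1 := padd4 (sub4 H1 be1) (con4 j1e1)
  let G2 := padd4 (sub4 H2 be2) (con4 j2e0)
  let G3 := padd4 (sub4 H2 be3) (con4 j2e1)
  let G4 := sub4 H0 be4
  let G5 := sub4 H0 be5
  nn4 be0 && nn4 be1 && nn4 be2 && nn4 be3 && nn4 be4 && nn4 be5 &&
  nn4 G0 && nn4 G1 && nn4 G2 && nn4 G3 && nn4 G4 && nn4 G5 && nn l1 && nn l2 &&
  checkS b c b.S0 W0 W1 W2 be0 be1 be2 be3 be4 be5 G0 G1 G2 G3 G4 G5 l1 l2 &&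
  checkS b c b.S1 W0 W1 W2 be0 be1 be2 be3 be4 be5 G0 G1 G2 G3 G4 G5 l1 l2

def verify (c : Cfg) : Tree → Box → Bool
  | .leaf mode b0 b1 b2 b3 b4 b5 l1 l2, b => checkLeaf c b mode b0 b1 b2 b3 b4 b5 l1 l2
  | .node d m l r, b =>
    match d with
    | 0 => verify c l { b with X1 := m } && verify c r { b with X0 := m }
    | 1 => verify c l { b with t1 := m } && verify c r { b with t0 := m }
    | 2 => verify c l { b with V1 := m } && verify c r { b with V0 := m }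
    | _ => verify c l { b with S1 := m } && verify c r { b with S0 := m }

end CB
end Ap013
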