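import Mathlib
import Pool.Prelude.Def_F_d9c4f0db

set_option autoImplicit false

/-!
# From an upper bound `T(A) ≤ n²/3 + C n` to `gamma = 1/3`
-/

namespace Ap013

open Finset Filter Topology

/-- the number of pairs counted in the problem -/
private def tcount (A : Finset ℤ) : ℕ :=
  ((A ×ˢ A).filter (fun (x, y) ↦ x ≠ y ∧ x + 3 * (y - x) ∈ A)).card

private lemma tcount_le_sq (A : Finset ℤ) : tcount A ≤ A.card ^ 2 := by
  unfold tcount
  refine (Finset.card_filter_le _ _).trans ?_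
  rw [Finset.card_product, sq]

private lemma bdd (n : ℕ) : BddAbove { k | ∃ A : Finset ℤ, A.card = n ∧ k = tcount A } := by
  refine ⟨n ^ 2, ?_⟩
  rintro k ⟨A, hA, rfl⟩
  rw [← hA]
  exact tcount_le_sq A

private lemma M_eq (n : ℕ) : Ne16c1d3e.max013AffineTranslates n =
    sSup { k | ∃ A : Finset ℤ, A.card = n ∧ k = tcount A } := rfl

private lemma Ico_card (n : ℕ) : (Finset.Ico (0 : ℤ) n).card = n := by
  simp

private lemma M_mem (n : ℕ) : ∃ A : Finset ℤ, A.card = n ∧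
    Ne16c1d3e.max013AffineTranslates n = tcount A := by
  rw [M_eq]
  have hne : { k | ∃ A : Finset ℤ, A.card = n ∧ k = tcount A }.Nonempty :=
    ⟨_, Finset.Ico (0 : ℤ) n, Ico_card n, rfl⟩
  exact Nat.sSup_mem hne (bdd n)

private lemma le_M (A : Finset ℤ) : tcount A ≤ Ne16c1d3e.max013AffineTranslates A.card := by
  rw [M_eq]
  exact le_csSup (bdd _) ⟨A, rfl, rfl⟩

/-- the interval `[0,n)` has at least `n ⌊n/3⌋ - n` affine copies -/
private lemma interval_lower (n : ℕ) :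
    n * (n / 3) ≤ tcount (Finset.Ico (0 : ℤ) n) + n := by
  classical
  set A : Finset ℤ := Finset.Ico (0 : ℤ) n with hA
  have h1 : ((A ×ˢ A).filter (fun p => p.1 + 3 * (p.2 - p.1) ∈ A)).card ≤ tcount A + n := by
    have hsub : (A ×ˢ A).filter (fun p => p.1 + 3 * (p.2 - p.1) ∈ A) ⊆
        ((A ×ˢ A).filter (fun (x, y) ↦ x ≠ y ∧ x + 3 * (y - x) ∈ A)) ∪
        A.image (fun x => (x, x)) := by
      rintro ⟨x, y⟩ hp
      rw [Finset.mem_filter, Finset.mem_product] at hp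
      rw [Finset.mem_union, Finset.mem_filter, Finset.mem_product, Finset.mem_image]
      by_cases hxy : x = y
      · right
        exact ⟨x, hp.1.1, by rw [hxy]⟩
      · left
        exact ⟨hp.1, hxy, hp.2⟩
    refine (Finset.card_le_card hsub).trans ((Finset.card_union_le _ _).trans ?_)
    have : (A.image (fun x => (x, x))).card ≤ n := by
      refine Finset.card_image_le.trans ?_
      rw [hA, Ico_card]
    exact Nat.add_le_add le_rfl this
  refine le_trans ?_ h1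
  have h2 : n * (n / 3) = (A ×ˢ (Finset.Ico (0 : ℤ) ((n / 3 : ℕ) : ℤ))).card := by
    rw [Finset.card_product, hA, Ico_card, Ico_card]
  rw [h2]
  apply Finset.card_le_card_of_injOn (fun p => (p.1, (2 * p.1 + 2) / 3 + p.2))
  · intro p hp
    have hp' := Finset.mem_product.mp (Finset.mem_coe.mp hp)
    rw [hA, Finset.mem_Ico, Finset.mem_Ico] at hp'
    apply Finset.mem_coe.mpr
    rw [Finset.mem_filter, Finset.mem_product, hA]
    simp only [Finset.mem_Ico]
    refine ⟨⟨⟨?_, ?_⟩, ⟨?_, ?_⟩⟩, ?_, ?_⟩ <;> omega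
  · intro p _ p' _ h
    have h' : (p.1, (2 * p.1 + 2) / 3 + p.2) = (p'.1, (2 * p'.1 + 2) / 3 + p'.2) := h
    have h1 : p.1 = p'.1 := (Prod.mk.inj h').1
    have h2 : (2 * p.1 + 2) / 3 + p.2 = (2 * p'.1 + 2) / 3 + p'.2 := (Prod.mk.inj h').2
    rw [h1] at h2
    exact Prod.ext h1 (by linarith)

private lemma M_lower (n : ℕ) :
    ((n : ℝ) * ((n : ℝ) / 3 - 1)) - n ≤ (Ne16c1d3e.max013AffineTranslates n : ℝ) := by
  have h1 := interval_lower n
  have h2 := le_M (Finset.Ico (0 : ℤ) n)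
  rw [Ico_card] at h2
  have h3 : n * (n / 3) ≤ Ne16c1d3e.max013AffineTranslates n + n := h1.trans (by omega)
  have h4 : ((n * (n / 3) : ℕ) : ℝ) ≤ ((Ne16c1d3e.max013AffineTranslates n + n : ℕ) : ℝ) := by
    exact_mod_cast h3
  have h5 : (n : ℝ) / 3 - 1 ≤ ((n / 3 : ℕ) : ℝ) := by
    have : n ≤ 3 * (n / 3) + 2 := by omega
    have : (n : ℝ) ≤ 3 * ((n / 3 : ℕ) : ℝ) + 2 := by exact_mod_cast this
    linarith
  rw [Nat.cast_mul, Nat.cast_add] at h4
  have h6 : (n : ℝ) * ((n : ℝ) / 3 - 1) ≤ (n : ℝ) * ((n / 3 : ℕ) : ℝ) :=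
    mul_le_mul_of_nonneg_left h5 (Nat.cast_nonneg n)
  linarith

theorem gamma_eq_of_upper (C : ℝ)
    (hub : ∀ A : Finset ℤ,
      ((((A ×ˢ A).filter (fun (x, y) ↦ x ≠ y ∧ x + 3 * (y - x) ∈ A)).card : ℕ) : ℝ) ≤
        (A.card : ℝ) ^ 2 / 3 + C * A.card) :
    Ne16c1d3e.Ne9f539be.gamma = 1 / 3 := by
  have hupper : ∀ n : ℕ, (Ne16c1d3e.max013AffineTranslates n : ℝ) ≤ (n : ℝ) ^ 2 / 3 + C * n := by
    intro n
    obtain ⟨A, hA, hM⟩ := M_mem n
    rw [hM, ← hA]
    exact hub A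
  unfold Ne16c1d3e.Ne9f539be.gamma
  apply Tendsto.limsup_eq
  have hinv : Tendsto (fun n : ℕ => (1 : ℝ) / (n : ℝ)) atTop (𝓝 0) :=
    tendsto_one_div_atTop_nhds_zero_nat
  have hlow : Tendsto (fun n : ℕ => (1 : ℝ) / 3 - 2 * ((1 : ℝ) / (n : ℝ))) atTop (𝓝 (1 / 3)) := by
    have := (tendsto_const_nhds (x := (1 : ℝ) / 3)).sub (hinv.const_mul 2)
    simpa using this
  have hup : Tendsto (fun n : ℕ => (1 : ℝ) / 3 + C * ((1 : ℝ) / (n : ℝ))) atTop (𝓝 (1 / 3)) := by
    have := (tendsto_const_nhds (x := (1 : ℝ) / 3)).add (hinv.const_mul C)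
    simpa using this
  refine tendsto_of_tendsto_of_tendsto_of_le_of_le' hlow hup ?_ ?_
  · filter_upwards [eventually_ge_atTop 1] with n hn
    have hn0 : (0 : ℝ) < n := by exact_mod_cast hn
    rw [le_div_iff₀ (by positivity)]
    have := M_lower n
    have e : (1 / 3 - 2 * (1 / (n : ℝ))) * (n : ℝ) ^ 2 = (n : ℝ) * ((n : ℝ) / 3 - 1) - n := by
      field_simp
      ring
    rw [e]
    exact this
  · filter_upwards [eventually_ge_atTop 1] with n hn
    have hn0 : (0 : ℝ) < n := by exact_mod_cast hn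
    rw [div_le_iff₀ (by positivity)]
    have := hupper n
    have e : (1 / 3 + C * (1 / (n : ℝ))) * (n : ℝ) ^ 2 = (n : ℝ) ^ 2 / 3 + C * n := by
      field_simp
    rw [e]
    exact this

end Ap013
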