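import Mathlib
import Pool.Agent.H.MP_4074ca_co.Defs

set_option autoImplicit false

namespace Ap013

open Finset

/-- `TT` is invariant under affine maps -/
theorem TT_affine (B : Finset ℤ) (c d : ℤ) (hd : d ≠ 0) :
    TT (B.image (fun x => c + d * x)) = TT B := by
  unfold TT
  rw [← cnt_affine B B (B.image (fun y => 3 * y)) c d hd]
  congr 1
  rw [Finset.image_image, Finset.image_image]
  apply Finset.image_congr
  intro x _
  simp only [Function.comp]
  ring

/-- the preimage of `S` under `v ↦ 3c + d v` -/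
private def pull (S : Finset ℤ) (c d : ℤ) : Finset ℤ :=
  (S.filter (fun u => d ∣ u - 3 * c)).image (fun u => (u - 3 * c) / d)

private lemma pull_mem (S : Finset ℤ) (c d : ℤ) (hd : d ≠ 0) (v : ℤ) :
    v ∈ pull S c d ↔ 3 * c + d * v ∈ S := by
  unfold pull
  rw [Finset.mem_image]
  constructor
  · rintro ⟨u, hu, rfl⟩
    rw [Finset.mem_filter] at hu
    have : d * ((u - 3 * c) / d) = u - 3 * c := Int.mul_ediv_cancel' hu.2
    have h2 : 3 * c + d * ((u - 3 * c) / d) = u := by linarith
    rw [h2]
    exact hu.1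
  · intro h
    refine ⟨3 * c + d * v, ?_, ?_⟩
    · rw [Finset.mem_filter]
      refine ⟨h, ⟨v, by ring⟩⟩
    · have : 3 * c + d * v - 3 * c = d * v := by ring
      rw [this]
      exact Int.mul_ediv_cancel_left v hd

private lemma pull_card (S : Finset ℤ) (c d : ℤ) : (pull S c d).card ≤ S.card :=
  Finset.card_image_le.trans (Finset.card_filter_le _ _)

private lemma cnt_pull (B S : Finset ℤ) (c d : ℤ) (hd : d ≠ 0) :
    cnt (B.image (fun x => c + d * x)) (B.image (fun x => c + d * x)) S = cnt B B (pull S c d) := by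
  rw [← cnt_affine B B (pull S c d) c d hd]
  unfold cnt
  congr 1
  apply Finset.filter_congr
  intro p hp
  rw [Finset.mem_product, Finset.mem_image, Finset.mem_image] at hp
  obtain ⟨⟨x, _, hx⟩, ⟨z, _, hz⟩⟩ := hp
  have e : 2 * p.1 + p.2 = 3 * c + d * (2 * x + z) := by
    rw [← hx, ← hz]; ring
  rw [e]
  constructor
  · intro h
    rw [Finset.mem_image]
    exact ⟨2 * x + z, (pull_mem S c d hd _).mpr h, rfl⟩
  · intro h
    rw [Finset.mem_image] at h
    obtain ⟨v, hv, hve⟩ := h
    rw [← hve]
    exact (pull_mem S c d hd v).mp hv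

private lemma evs_ods_translate (B : Finset ℤ) :
    (ods (B.image (fun x => 1 + 1 * x))).card = (evs B).card ∧
    (evs (B.image (fun x => 1 + 1 * x))).card = (ods B).card := by
  have inj : Function.Injective (fun x : ℤ => 1 + 1 * x) := by
    intro a b h
    have h' : 1 + 1 * a = 1 + 1 * b := h
    omega
  constructor
  · have : ods (B.image (fun x => 1 + 1 * x)) = (evs B).image (fun x => 1 + 1 * x) := by
      ext y
      unfold ods evs
      rw [Finset.mem_filter, Finset.mem_image, Finset.mem_image]
      constructor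
      · rintro ⟨⟨x, hx, rfl⟩, h2⟩
        refine ⟨x, ?_, rfl⟩
        rw [Finset.mem_filter]
        exact ⟨hx, by omega⟩
      · rintro ⟨x, hx, rfl⟩
        rw [Finset.mem_filter] at hx
        exact ⟨⟨x, hx.1, rfl⟩, by omega⟩
    rw [this, Finset.card_image_of_injective _ inj]
  · have : evs (B.image (fun x => 1 + 1 * x)) = (ods B).image (fun x => 1 + 1 * x) := by
      ext y
      unfold ods evs
      rw [Finset.mem_filter, Finset.mem_image, Finset.mem_image]
      constructor
      · rintro ⟨⟨x, hx, rfl⟩, h2⟩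
        refine ⟨x, ?_, rfl⟩
        rw [Finset.mem_filter]
        exact ⟨hx, by omega⟩
      · rintro ⟨x, hx, rfl⟩
        rw [Finset.mem_filter] at hx
        exact ⟨⟨x, hx.1, rfl⟩, by omega⟩
    rw [this, Finset.card_image_of_injective _ inj]

theorem normal_form (B S : Finset ℤ) (hB : 2 ≤ B.card) (j : ℤ) (hj : j = 1 ∨ j = 2)
    (hS : ∀ u ∈ S, u % 3 = j) :
    ∃ (B' S' : Finset ℤ) (j' : ℤ), B'.card = B.card ∧ S'.card ≤ S.card ∧ (j' = 1 ∨ j' = 2) ∧
      (∀ u ∈ S', u % 3 = j') ∧ TT B' = TT B ∧ cnt B' B' S' = cnt B B S ∧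
      1 ≤ (ods B').card ∧ (ods B').card ≤ (evs B').card ∧
      (∃ x ∈ B', ∃ y ∈ B', x % 3 ≠ y % 3) := by
  classical
  have hBne : B.Nonempty := by
    rw [← Finset.card_pos]; omega
  obtain ⟨c, hc⟩ := hBne
  obtain ⟨g, hg1, hg2⟩ := Finset.extract_gcd (s := B) (fun x => x - c) ⟨c, hc⟩
  set d : ℤ := B.gcd (fun x => x - c) with hd
  have hd0 : d ≠ 0 := by
    intro h0
    have hall : ∀ b ∈ B, b = c := by
      intro b hb
      have := hg1 b hb
      rw [h0] at this
      have h' : b - c = 0 := by simpa using this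
      omega
    have : B.card ≤ 1 := by
      rw [Finset.card_le_one]
      intro a ha b hb
      rw [hall a ha, hall b hb]
    omega
  have hgc : g c = 0 := by
    have := hg1 c hc
    have h' : d * g c = 0 := by
      rw [← this]; ring
    rcases mul_eq_zero.mp h' with h | h
    · exact absurd h hd0
    · exact h
  have hBim : (B.image g).image (fun x => c + d * x) = B := by
    rw [Finset.image_image]
    have : ∀ b ∈ B, ((fun x => c + d * x) ∘ g) b = b := by
      intro b hb
      have := hg1 b hb
      simp only [Function.comp]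
      have h' : b - c = d * g b := this
      linarith
    ext y
    rw [Finset.mem_image]
    constructor
    · rintro ⟨b, hb, rfl⟩
      rw [this b hb]; exact hb
    · intro hy
      exact ⟨y, hy, this y hy⟩
  have hcard : (B.image g).card = B.card := by
    have h1 : (B.image g).card ≤ B.card := Finset.card_image_le
    have h2 : B.card ≤ (B.image g).card := by
      conv_lhs => rw [← hBim]
      exact Finset.card_image_le
    omega
  set B1 : Finset ℤ := B.image g with hB1
  have h0mem : (0 : ℤ) ∈ B1 := by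
    rw [hB1, Finset.mem_image]
    exact ⟨c, hc, hgc⟩
  have hnot : ∀ m : ℤ, (∀ x ∈ B1, m ∣ x) → m ∣ 1 := by
    intro m hm
    rw [← hg2]
    apply Finset.dvd_gcd
    intro b hb
    exact hm _ (Finset.mem_image_of_mem _ hb)
  have hodd : ∃ x ∈ B1, x % 2 = 1 := by
    by_contra hcon
    push Not at hcon
    have : (2 : ℤ) ∣ 1 := by
      apply hnot
      intro x hx
      have := hcon x hx
      omega
    omega
  have h3ne : ∃ x ∈ B1, x % 3 ≠ 0 := by
    by_contra hcon
    push Not at hcon
    have : (3 : ℤ) ∣ 1 := by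
      apply hnot
      intro x hx
      have := hcon x hx
      omega
    omega
  set S1 : Finset ℤ := pull S c d with hS1
  have hTT : TT B1 = TT B := by
    conv_rhs => rw [← hBim]
    rw [TT_affine B1 c d hd0]
  have hcnt : cnt B1 B1 S1 = cnt B B S := by
    conv_rhs => rw [← hBim]
    rw [cnt_pull B1 S c d hd0]
  have hS1card : S1.card ≤ S.card := pull_card S c d
  obtain ⟨j', hj', hS1j⟩ : ∃ j' : ℤ, (j' = 1 ∨ j' = 2) ∧ ∀ u ∈ S1, u % 3 = j' := by
    have key : ∀ v ∈ S1, (3 * c + d * v) % 3 = j := by
      intro v hv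
      exact hS _ ((pull_mem S c d hd0 v).mp hv)
    have hdm : d % 3 = 0 ∨ d % 3 = 1 ∨ d % 3 = 2 := by omega
    have key2 : ∀ v ∈ S1, ((d % 3) * (v % 3)) % 3 = j := by
      intro v hv
      have h1 := key v hv
      have : (3 * c + d * v) % 3 = ((d % 3) * (v % 3)) % 3 := by
        rw [← Int.mul_emod]
        omega
      rw [← this]; exact h1
    rcases hdm with h | h | h
    · refine ⟨1, Or.inl rfl, ?_⟩
      intro v hv
      have := key2 v hv
      rw [h] at this
      rcases hj with hj | hj <;> omega
    · refine ⟨j, hj, ?_⟩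
      intro v hv
      have := key2 v hv
      rw [h] at this
      rcases hj with hj | hj <;> omega
    · rcases hj with hj | hj
      · refine ⟨2, Or.inr rfl, ?_⟩
        intro v hv
        have := key2 v hv
        rw [h] at this
        omega
      · refine ⟨1, Or.inl rfl, ?_⟩
        intro v hv
        have := key2 v hv
        rw [h] at this
        omega
  have hods1 : 1 ≤ (ods B1).card := by
    obtain ⟨x, hx, hx2⟩ := hodd
    apply Finset.card_pos.mpr
    exact ⟨x, by unfold ods; rw [Finset.mem_filter]; exact ⟨hx, hx2⟩⟩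
  have hevs1 : 1 ≤ (evs B1).card := by
    apply Finset.card_pos.mpr
    exact ⟨0, by unfold evs; rw [Finset.mem_filter]; exact ⟨h0mem, rfl⟩⟩
  rcases le_or_gt (ods B1).card (evs B1).card with hle | hgt
  · refine ⟨B1, S1, j', hcard, hS1card, hj', hS1j, hTT, hcnt, hods1, hle, ?_⟩
    obtain ⟨x, hx, hx3⟩ := h3ne
    exact ⟨x, hx, 0, h0mem, by simpa using hx3⟩
  · have hinj : Function.Injective (fun x : ℤ => 1 + 1 * x) := by
      intro a b h
      have h' : 1 + 1 * a = 1 + 1 * b := h
      omega
    refine ⟨B1.image (fun x => 1 + 1 * x), S1.image (fun x => 3 * 1 + 1 * x), j', ?_, ?_, hj', ?_,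
      ?_, ?_, ?_, ?_, ?_⟩
    · rw [Finset.card_image_of_injective _ hinj]; exact hcard
    · exact Finset.card_image_le.trans hS1card
    · intro u hu
      rw [Finset.mem_image] at hu
      obtain ⟨v, hv, rfl⟩ := hu
      have := hS1j v hv
      omega
    · rw [TT_affine B1 1 1 one_ne_zero]; exact hTT
    · rw [cnt_affine B1 B1 S1 1 1 one_ne_zero]; exact hcnt
    · rw [(evs_ods_translate B1).1]; exact hevs1
    · rw [(evs_ods_translate B1).1, (evs_ods_translate B1).2]; omega
    · obtain ⟨x, hx, hx3⟩ := h3ne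
      refine ⟨1 + 1 * x, Finset.mem_image_of_mem _ hx, 1 + 1 * 0, Finset.mem_image_of_mem _ h0mem, ?_⟩
      omega

end Ap013
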