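import Mathlib
import Pool.Agent.H.MP_4074ca_co.Defs

set_option autoImplicit false

namespace Ap013

open Finset

/-- trivial bound: `TT C + 2 cnt C C S ≤ |C|²` if all elements of `S` are `j ≠ 0` modulo 3 -/
theorem triv_bound (C S : Finset ℤ) (j : ℤ) (hj : j = 1 ∨ j = 2) (hS : ∀ u ∈ S, u % 3 = j) :
    TT C + 2 * cnt C C S ≤ C.card ^ 2 := by
  classical
  unfold TT cnt
  set T1 := (C ×ˢ C).filter (fun p : ℤ × ℤ => 2 * p.1 + p.2 ∈ C.image (fun y => 3 * y)) with hT1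
  set T2 := (C ×ˢ C).filter (fun p : ℤ × ℤ => 2 * p.1 + p.2 ∈ S) with hT2
  set T3 := T2.image Prod.swap with hT3
  have c3 : T3.card = T2.card := Finset.card_image_of_injective _ Prod.swap_injective
  have m1 : ∀ p ∈ T1, p ∈ C ×ˢ C ∧ (p.2 - p.1) % 3 = 0 := by
    intro p hp
    rw [hT1, Finset.mem_filter, Finset.mem_image] at hp
    obtain ⟨h1, ⟨y, _, hy⟩⟩ := hp
    exact ⟨h1, by omega⟩
  have m2 : ∀ p ∈ T2, p ∈ C ×ˢ C ∧ (p.2 - p.1) % 3 = j := by
    intro p hp
    rw [hT2, Finset.mem_filter] at hp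
    have := hS _ hp.2
    exact ⟨hp.1, by omega⟩
  have m3 : ∀ p ∈ T3, p ∈ C ×ˢ C ∧ (p.2 - p.1) % 3 = (3 - j) := by
    intro p hp
    rw [hT3, Finset.mem_image] at hp
    obtain ⟨q, hq, rfl⟩ := hp
    obtain ⟨h1, h2⟩ := m2 q hq
    rw [Finset.mem_product] at h1
    refine ⟨?_, ?_⟩
    · rw [Finset.mem_product]
      exact ⟨h1.2, h1.1⟩
    · have e1 : q.swap.1 = q.2 := rfl
      have e2 : q.swap.2 = q.1 := rfl
      rw [e1, e2]
      omega
  have d12 : Disjoint T1 T2 := by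
    rw [Finset.disjoint_left]
    intro p h1 h2
    have := (m1 p h1).2
    have := (m2 p h2).2
    omega
  have d123 : Disjoint (T1 ∪ T2) T3 := by
    rw [Finset.disjoint_left]
    intro p h1 h2
    have h3 := (m3 p h2).2
    rcases Finset.mem_union.mp h1 with h | h
    · have := (m1 p h).2
      omega
    · have := (m2 p h).2
      omega
  have hsub : (T1 ∪ T2) ∪ T3 ⊆ C ×ˢ C := by
    intro p hp
    rcases Finset.mem_union.mp hp with h | h
    · rcases Finset.mem_union.mp h with h | h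
      · exact (m1 p h).1
      · exact (m2 p h).1
    · exact (m3 p h).1
  have hc := Finset.card_le_card hsub
  rw [Finset.card_union_of_disjoint d123, Finset.card_union_of_disjoint d12, c3,
    Finset.card_product] at hc
  rw [sq]
  omega

/-- the class `r` modulo 3, rescaled -/
private def cls (B : Finset ℤ) (r : ℤ) : Finset ℤ :=
  (B.filter (fun x => x % 3 = r)).image (fun x => x / 3)

private lemma cls_card (B : Finset ℤ) (r : ℤ) :
    (cls B r).card = (B.filter (fun x => x % 3 = r)).card := by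
  unfold cls
  apply Finset.card_image_of_injOn
  intro x hx y hy h
  have hx' := (Finset.mem_filter.mp (Finset.mem_coe.mp hx)).2
  have hy' := (Finset.mem_filter.mp (Finset.mem_coe.mp hy)).2
  have h' : x / 3 = y / 3 := h
  omega

private lemma cls_sum (B : Finset ℤ) :
    (cls B 0).card + (cls B 1).card + (cls B 2).card = B.card := by
  rw [cls_card, cls_card, cls_card]
  have h1 := Finset.card_filter_add_card_filter_not (s := B) (fun x => x % 3 = 0)
  have h2 := Finset.card_filter_add_card_filter_not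
    (s := B.filter (fun x => ¬ x % 3 = 0)) (fun x => x % 3 = 1)
  rw [Finset.filter_filter, Finset.filter_filter] at h2
  have e1 : B.filter (fun x => ¬ x % 3 = 0 ∧ x % 3 = 1) = B.filter (fun x => x % 3 = 1) := by
    apply Finset.filter_congr
    intro x _
    constructor
    · rintro ⟨_, h⟩; exact h
    · intro h; exact ⟨by omega, h⟩
  have e2 : B.filter (fun x => ¬ x % 3 = 0 ∧ ¬ x % 3 = 1) = B.filter (fun x => x % 3 = 2) := by
    apply Finset.filter_congr
    intro x _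
    constructor
    · rintro ⟨_, _⟩; omega
    · intro h; exact ⟨by omega, by omega⟩
  rw [e1, e2] at h2
  omega

/-- the translate of a class used as a target set -/
private def tgt (B : Finset ℤ) (r r' : ℤ) : Finset ℤ :=
  (cls B r').image (fun y => 3 * y + (r' - r))

private lemma tgt_card (B : Finset ℤ) (r r' : ℤ) : (tgt B r r').card = (cls B r').card := by
  unfold tgt
  apply Finset.card_image_of_injective
  intro a b h
  have h' : 3 * a + (r' - r) = 3 * b + (r' - r) := h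
  omega

private lemma tgt_mod (B : Finset ℤ) (r r' : ℤ) : ∀ u ∈ tgt B r r', u % 3 = (r' - r) % 3 := by
  intro u hu
  unfold tgt at hu
  rw [Finset.mem_image] at hu
  obtain ⟨y, _, rfl⟩ := hu
  omega

private lemma TT_le_sum (B : Finset ℤ) :
    TT B ≤ ∑ r ∈ ({0, 1, 2} : Finset ℤ), ∑ r' ∈ ({0, 1, 2} : Finset ℤ),
      cnt (cls B r) (cls B r) (tgt B r r') := by
  classical
  rw [← Finset.sum_product']
  have hsub : (B ×ˢ B).filter (fun p : ℤ × ℤ => 2 * p.1 + p.2 ∈ B.image (fun y => 3 * y)) ⊆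
      (({0, 1, 2} : Finset ℤ) ×ˢ ({0, 1, 2} : Finset ℤ)).biUnion (fun q =>
        (((cls B q.1) ×ˢ (cls B q.1)).filter (fun p => 2 * p.1 + p.2 ∈ tgt B q.1 q.2)).image
          (fun p => (3 * p.1 + q.1, 3 * p.2 + q.1))) := by
    rintro ⟨x, z⟩ hp
    rw [Finset.mem_filter, Finset.mem_product, Finset.mem_image] at hp
    obtain ⟨⟨hx, hz⟩, ⟨y, hy, hyp⟩⟩ := hp
    have hyp' : 3 * y = 2 * x + z := hyp
    rw [Finset.mem_biUnion]
    refine ⟨(x % 3, y % 3), ?_, ?_⟩
    · rw [Finset.mem_product]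
      constructor
      · have : x % 3 = 0 ∨ x % 3 = 1 ∨ x % 3 = 2 := by omega
        simpa using this
      · have : y % 3 = 0 ∨ y % 3 = 1 ∨ y % 3 = 2 := by omega
        simpa using this
    · rw [Finset.mem_image]
      refine ⟨(x / 3, z / 3), ?_, ?_⟩
      · rw [Finset.mem_filter, Finset.mem_product]
        refine ⟨⟨?_, ?_⟩, ?_⟩
        · unfold cls
          rw [Finset.mem_image]
          exact ⟨x, by rw [Finset.mem_filter]; exact ⟨hx, rfl⟩, rfl⟩
        · unfold cls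
          rw [Finset.mem_image]
          refine ⟨z, ?_, rfl⟩
          rw [Finset.mem_filter]
          refine ⟨hz, ?_⟩
          show z % 3 = x % 3
          omega
        · unfold tgt
          rw [Finset.mem_image]
          refine ⟨y / 3, ?_, ?_⟩
          · unfold cls
            rw [Finset.mem_image]
            exact ⟨y, by rw [Finset.mem_filter]; exact ⟨hy, rfl⟩, rfl⟩
          · show 3 * (y / 3) + (y % 3 - x % 3) = 2 * (x / 3) + z / 3
            omega
      · show (3 * (x / 3) + x % 3, 3 * (z / 3) + x % 3) = (x, z)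
        rw [Prod.mk.injEq]
        constructor <;> omega
  have h1 := Finset.card_le_card hsub
  have h2 := h1.trans Finset.card_biUnion_le
  refine h2.trans ?_
  apply Finset.sum_le_sum
  intro q _
  exact Finset.card_image_le

theorem T_step (B : Finset ℤ) (h3 : ∃ x ∈ B, ∃ y ∈ B, x % 3 ≠ y % 3)
    (IH : ∀ (C S : Finset ℤ) (j : ℤ), 1 ≤ C.card → C.card < B.card → (j = 1 ∨ j = 2) →
      (∀ u ∈ S, u % 3 = j) → S.card < C.card →
      (TT C : ℝ) + 2 * cnt C C S ≤
        (C.card : ℝ) ^ 2 - 2 / 3 * ((C.card : ℝ) - S.card) ^ 2 + 15 * C.card + 3) :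
    (TT B : ℝ) ≤ (B.card : ℝ) ^ 2 / 3 + 15 * B.card - 3 := by
  classical
  -- sizes
  obtain ⟨a, ha⟩ : ∃ a : ℕ, a = (cls B 0).card := ⟨_, rfl⟩
  obtain ⟨b, hb⟩ : ∃ b : ℕ, b = (cls B 1).card := ⟨_, rfl⟩
  obtain ⟨c, hc⟩ : ∃ c : ℕ, c = (cls B 2).card := ⟨_, rfl⟩
  have hsum : a + b + c = B.card := by rw [ha, hb, hc]; exact cls_sum B
  have htwo : (1 ≤ a ∧ 1 ≤ b) ∨ (1 ≤ a ∧ 1 ≤ c) ∨ (1 ≤ b ∧ 1 ≤ c) := by
    obtain ⟨x, hx, y, hy, hxy⟩ := h3
    have key : ∀ w ∈ B, ∀ r : ℤ, w % 3 = r → 1 ≤ (cls B r).card := by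
      intro w hw r hr
      rw [cls_card]
      apply Finset.card_pos.mpr
      exact ⟨w, by rw [Finset.mem_filter]; exact ⟨hw, hr⟩⟩
    have hx3 : x % 3 = 0 ∨ x % 3 = 1 ∨ x % 3 = 2 := by omega
    have hy3 : y % 3 = 0 ∨ y % 3 = 1 ∨ y % 3 = 2 := by omega
    rw [ha, hb, hc]
    rcases hx3 with h | h | h <;> rcases hy3 with h' | h' | h'
    · omega
    · left; exact ⟨key x hx 0 h, key y hy 1 h'⟩
    · right; left; exact ⟨key x hx 0 h, key y hy 2 h'⟩
    · left; exact ⟨key y hy 0 h', key x hx 1 h⟩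
    · omega
    · right; right; exact ⟨key x hx 1 h, key y hy 2 h'⟩
    · right; left; exact ⟨key y hy 0 h', key x hx 2 h⟩
    · right; right; exact ⟨key y hy 1 h', key x hx 2 h⟩
    · omega
  -- bound for an ordered pair of classes
  have pair : ∀ r r' : ℤ, ((r' - r) % 3 = 1 ∨ (r' - r) % 3 = 2) → (cls B r).card < B.card →
      ((cls B r').card < (cls B r).card →
        (TT (cls B r) : ℝ) + 2 * cnt (cls B r) (cls B r) (tgt B r r') ≤
          ((cls B r).card : ℝ) ^ 2 - 2 / 3 * (((cls B r).card : ℝ) - (cls B r').card) ^ 2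
            + 15 * (cls B r).card + 3) ∧
      ((TT (cls B r) : ℝ) + 2 * cnt (cls B r) (cls B r) (tgt B r r') ≤
          ((cls B r).card : ℝ) ^ 2) ∨ ((cls B r').card < (cls B r).card ∧
        (TT (cls B r) : ℝ) + 2 * cnt (cls B r) (cls B r) (tgt B r r') ≤
          ((cls B r).card : ℝ) ^ 2 - 2 / 3 * (((cls B r).card : ℝ) - (cls B r').card) ^ 2
            + 15 * (cls B r).card + 3) := by
    intro r r' hrr hlt
    have htr : (TT (cls B r) : ℝ) + 2 * cnt (cls B r) (cls B r) (tgt B r r') ≤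
          ((cls B r).card : ℝ) ^ 2 := by
      have := triv_bound (cls B r) (tgt B r r') ((r' - r) % 3) hrr (tgt_mod B r r')
      exact_mod_cast this
    by_cases hcase : (cls B r').card < (cls B r).card
    · right
      refine ⟨hcase, ?_⟩
      have := IH (cls B r) (tgt B r r') ((r' - r) % 3) (by omega) hlt hrr (tgt_mod B r r')
        (by rw [tgt_card]; exact hcase)
      rw [tgt_card] at this
      exact this
    · left
      exact ⟨fun h => absurd h hcase, htr⟩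
  have hT := TT_le_sum B
  have e0 : ∀ r : ℤ, cnt (cls B r) (cls B r) (tgt B r r) = TT (cls B r) := by
    intro r
    unfold TT tgt
    congr 2
    funext y
    ring
  have hexp : ∑ r ∈ ({0, 1, 2} : Finset ℤ), ∑ r' ∈ ({0, 1, 2} : Finset ℤ),
      cnt (cls B r) (cls B r) (tgt B r r') =
      (TT (cls B 0) + cnt (cls B 0) (cls B 0) (tgt B 0 1) + cnt (cls B 0) (cls B 0) (tgt B 0 2)) +
      (TT (cls B 1) + cnt (cls B 1) (cls B 1) (tgt B 1 0) + cnt (cls B 1) (cls B 1) (tgt B 1 2)) +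
      (TT (cls B 2) + cnt (cls B 2) (cls B 2) (tgt B 2 0) +
        cnt (cls B 2) (cls B 2) (tgt B 2 1)) := by
    have h3 : ∀ f : ℤ → ℕ, ∑ r ∈ ({0, 1, 2} : Finset ℤ), f r = f 0 + f 1 + f 2 := by
      intro f
      rw [Finset.sum_insert (by decide), Finset.sum_insert (by decide), Finset.sum_singleton]
      ring
    rw [h3, h3, h3, h3, e0, e0, e0]
    ring
  rw [hexp] at hT
  have hT' : (TT B : ℝ) ≤
      ((TT (cls B 0) : ℝ) + cnt (cls B 0) (cls B 0) (tgt B 0 1)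
        + cnt (cls B 0) (cls B 0) (tgt B 0 2)) +
      ((TT (cls B 1) : ℝ) + cnt (cls B 1) (cls B 1) (tgt B 1 0)
        + cnt (cls B 1) (cls B 1) (tgt B 1 2)) +
      ((TT (cls B 2) : ℝ) + cnt (cls B 2) (cls B 2) (tgt B 2 0) +
        cnt (cls B 2) (cls B 2) (tgt B 2 1)) := by exact_mod_cast hT
  have lt0 : (cls B 0).card < B.card := by omega
  have lt1 : (cls B 1).card < B.card := by omega
  have lt2 : (cls B 2).card < B.card := by omega
  have p01 := pair 0 1 (by norm_num) lt0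
  have p02 := pair 0 2 (by norm_num) lt0
  have p10 := pair 1 0 (by norm_num) lt1
  have p12 := pair 1 2 (by norm_num) lt1
  have p20 := pair 2 0 (by norm_num) lt2
  have p21 := pair 2 1 (by norm_num) lt2
  rw [← ha, ← hb] at p01
  rw [← ha, ← hc] at p02
  rw [← ha, ← hb] at p10
  rw [← hb, ← hc] at p12
  rw [← ha, ← hc] at p20
  rw [← hb, ← hc] at p21
  generalize (TT (cls B 0) : ℝ) = t0 at *
  generalize (TT (cls B 1) : ℝ) = t1 at *
  generalize (TT (cls B 2) : ℝ) = t2 at *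
  generalize (cnt (cls B 0) (cls B 0) (tgt B 0 1) : ℝ) = x01 at *
  generalize (cnt (cls B 0) (cls B 0) (tgt B 0 2) : ℝ) = x02 at *
  generalize (cnt (cls B 1) (cls B 1) (tgt B 1 0) : ℝ) = x10 at *
  generalize (cnt (cls B 1) (cls B 1) (tgt B 1 2) : ℝ) = x12 at *
  generalize (cnt (cls B 2) (cls B 2) (tgt B 2 0) : ℝ) = x20 at *
  generalize (cnt (cls B 2) (cls B 2) (tgt B 2 1) : ℝ) = x21 at *
  have hn : (B.card : ℝ) = (a : ℝ) + b + c := by rw [← hsum]; push_cast; ring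
  rw [hn]
  -- combine unordered pairs
  have comb : ∀ (u v : ℕ) (tu tv xuv xvu : ℝ),
      (((v < u → tu + 2 * xuv ≤ (u : ℝ) ^ 2 - 2 / 3 * ((u : ℝ) - v) ^ 2 + 15 * u + 3) ∧
        (tu + 2 * xuv ≤ (u : ℝ) ^ 2)) ∨
        (v < u ∧ tu + 2 * xuv ≤ (u : ℝ) ^ 2 - 2 / 3 * ((u : ℝ) - v) ^ 2 + 15 * u + 3)) →
      (((u < v → tv + 2 * xvu ≤ (v : ℝ) ^ 2 - 2 / 3 * ((v : ℝ) - u) ^ 2 + 15 * v + 3) ∧
        (tv + 2 * xvu ≤ (v : ℝ) ^ 2)) ∨
        (u < v ∧ tv + 2 * xvu ≤ (v : ℝ) ^ 2 - 2 / 3 * ((v : ℝ) - u) ^ 2 + 15 * v + 3)) →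
      (u = v ∧ tu + tv + 2 * xuv + 2 * xvu ≤
          (u : ℝ) ^ 2 + (v : ℝ) ^ 2 - 2 / 3 * ((u : ℝ) - v) ^ 2) ∨
      (v < u ∧ tu + tv + 2 * xuv + 2 * xvu ≤
          (u : ℝ) ^ 2 + (v : ℝ) ^ 2 - 2 / 3 * ((u : ℝ) - v) ^ 2 + 15 * u + 3) ∨
      (u < v ∧ tu + tv + 2 * xuv + 2 * xvu ≤
          (u : ℝ) ^ 2 + (v : ℝ) ^ 2 - 2 / 3 * ((u : ℝ) - v) ^ 2 + 15 * v + 3) := by
    intro u v tu tv xuv xvu h1 h2
    rcases lt_trichotomy u v with h | h | h
    · right; right
      refine ⟨h, ?_⟩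
      have a1 : tu + 2 * xuv ≤ (u : ℝ) ^ 2 := by
        rcases h1 with h1 | h1
        · exact h1.2
        · omega
      have a2 : tv + 2 * xvu ≤ (v : ℝ) ^ 2 - 2 / 3 * ((v : ℝ) - u) ^ 2 + 15 * v + 3 := by
        rcases h2 with h2 | h2
        · exact h2.1 h
        · exact h2.2
      nlinarith
    · left
      refine ⟨h, ?_⟩
      have a1 : tu + 2 * xuv ≤ (u : ℝ) ^ 2 := by
        rcases h1 with h1 | h1
        · exact h1.2
        · omega
      have a2 : tv + 2 * xvu ≤ (v : ℝ) ^ 2 := by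
        rcases h2 with h2 | h2
        · exact h2.2
        · omega
      rw [h] at *
      have : ((v : ℝ) - v) ^ 2 = 0 := by ring
      rw [this]
      linarith
    · right; left
      refine ⟨h, ?_⟩
      have a1 : tu + 2 * xuv ≤ (u : ℝ) ^ 2 - 2 / 3 * ((u : ℝ) - v) ^ 2 + 15 * u + 3 := by
        rcases h1 with h1 | h1
        · exact h1.1 h
        · exact h1.2
      have a2 : tv + 2 * xvu ≤ (v : ℝ) ^ 2 := by
        rcases h2 with h2 | h2
        · exact h2.2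
        · omega
      linarith
  have q01 := comb a b t0 t1 x01 x10 p01 p10
  have q02 := comb a c t0 t2 x02 x20 p02 p20
  have q12 := comb b c t1 t2 x12 x21 p12 p21
  have cast1 : ∀ u v : ℕ, u < v → (u : ℝ) + 1 ≤ v := by
    intro u v h
    exact_mod_cast h
  have cast2 : ∀ u : ℕ, 1 ≤ u → (1 : ℝ) ≤ u := by
    intro u h
    exact_mod_cast h
  have a0 : (0 : ℝ) ≤ a := Nat.cast_nonneg a
  have b0 : (0 : ℝ) ≤ b := Nat.cast_nonneg b
  have c0 : (0 : ℝ) ≤ c := Nat.cast_nonneg c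
  have htwo' : ((1 : ℝ) ≤ a ∧ (1 : ℝ) ≤ b) ∨ ((1 : ℝ) ≤ a ∧ (1 : ℝ) ≤ c) ∨
      ((1 : ℝ) ≤ b ∧ (1 : ℝ) ≤ c) := by
    rcases htwo with h | h | h
    · left; exact ⟨cast2 _ h.1, cast2 _ h.2⟩
    · right; left; exact ⟨cast2 _ h.1, cast2 _ h.2⟩
    · right; right; exact ⟨cast2 _ h.1, cast2 _ h.2⟩
  rcases q01 with ⟨k1, q1⟩ | ⟨k1, q1⟩ | ⟨k1, q1⟩ <;>
  rcases q02 with ⟨k2, q2⟩ | ⟨k2, q2⟩ | ⟨k2, q2⟩ <;>
  rcases q12 with ⟨k3, q3⟩ | ⟨k3, q3⟩ | ⟨k3, q3⟩ <;>
  first
    | (exfalso; omega)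
    | (rcases htwo' with ⟨g1, g2⟩ | ⟨g1, g2⟩ | ⟨g1, g2⟩ <;>
        (try have k1' := cast1 _ _ k1) <;> (try have k2' := cast1 _ _ k2) <;>
        (try have k3' := cast1 _ _ k3) <;> (try have l1' := congrArg (Nat.cast (R := ℝ)) k1) <;>
        (try have l2' := congrArg (Nat.cast (R := ℝ)) k2) <;>
        (try have l3' := congrArg (Nat.cast (R := ℝ)) k3) <;> linarith)

end Ap013
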