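import Pool.Agent.H.MP_4074ca_co.CaseB
import Pool.Agent.H.MP_4074ca_co.TStep
import Pool.Agent.H.MP_4074ca_co.Normal
import Pool.Agent.H.MP_4074ca_co.CaseAComb

namespace Ap013

open Finset

/-- the bound for the number of progressions -/
def TBound (n : ℕ) : Prop := ∀ B : Finset ℤ, B.card = n → 1 ≤ n →
  (TT B : ℝ) ≤ (n : ℝ) ^ 2 / 3 + 15 * n - 3

/-- the two set bound -/
def PBound (n : ℕ) : Prop := ∀ (B S : Finset ℤ) (j : ℤ), B.card = n → (j = 1 ∨ j = 2) →
  (∀ u ∈ S, u % 3 = j) → S.card < n →
  (TT B : ℝ) + 2 * cnt B B S ≤ (n : ℝ) ^ 2 - 2 / 3 * ((n : ℝ) - S.card) ^ 2 + 15 * n + 3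

lemma evs_add_ods (B : Finset ℤ) : (evs B).card + (ods B).card = B.card := by
  rw [← card_union_of_disjoint]
  · congr 1
    ext x
    simp only [mem_union, mem_evs, mem_ods]
    constructor
    · rintro (h | h) <;> exact h.1
    · intro h
      have : x % 2 = 0 ∨ x % 2 = 1 := by omega
      rcases this with k | k
      · left; exact ⟨h, k⟩
      · right; exact ⟨h, k⟩
  · rw [disjoint_left]
    intro x h0 h1
    rw [mem_evs] at h0
    rw [mem_ods] at h1
    omega

lemma cnt_erase_le (B S : Finset ℤ) (u : ℤ) :
    cnt B B S ≤ cnt B B (S.erase u) + cnt B B {u} := by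
  apply cnt_le_add
  intro x hx z hz hs
  by_cases h : 2 * x + z = u
  · right; exact ⟨hx, hz, by simp [h]⟩
  · left; exact ⟨hx, hz, mem_erase.2 ⟨h, hs⟩⟩

lemma cnt_odd_le (B : Finset ℤ) (u : ℤ) (hu : u % 2 ≠ 0) : cnt B B {u} ≤ (ods B).card := by
  have h1 : cnt B B {u} ≤ cnt B (ods B) {u} := by
    have := cnt_le_sum (univ : Finset (Fin 1)) B B {u} (fun _ => B) (fun _ => ods B) (fun _ => {u}) (by
      intro x hx z hz hs
      refine ⟨0, mem_univ _, hx, mem_ods.2 ⟨hz, ?_⟩, hs⟩
      rw [mem_singleton] at hs
      omega)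
    simpa using this
  have h2 := cnt_le_ZS B (ods B) {u}
  rw [card_singleton, mul_one] at h2
  exact h1.trans h2

lemma cnt_empty (B : Finset ℤ) : cnt B B ∅ = 0 := by
  have := cnt_le_ZS B B ∅
  simpa using this

lemma tbound_step (n : ℕ) (IH : ∀ m, m < n → TBound m ∧ PBound m) : TBound n := by
  intro B hB hn
  rcases Nat.lt_or_ge n 2 with h2 | h2
  · have h1 : n = 1 := by omega
    subst h1
    have h := cnt_le_XZ B B (B.image (fun y => 3 * y))
    rw [hB] at h
    have h' : (TT B : ℝ) ≤ 1 := by
      unfold TT
      exact_mod_cast h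
    norm_num
    linarith
  · obtain ⟨B', S', j', h1, -, -, -, h5, -, -, -, h9⟩ :=
      normal_form B ∅ (by omega) 1 (Or.inl rfl) (by simp)
    rw [← h5, ← hB, ← h1]
    apply T_step B' h9
    intro C S j hC1 hC2 hj hS hSC
    exact (IH C.card (by omega)).2 C S j rfl hj hS hSC

lemma pbound_step (n : ℕ) (IH : ∀ m, m < n → TBound m ∧ PBound m) (hT : TBound n) : PBound n := by
  have key : ∀ (s : ℕ) (B S : Finset ℤ) (j : ℤ), B.card = n → (j = 1 ∨ j = 2) →
      (∀ u ∈ S, u % 3 = j) → S.card < n → S.card = s →
      (TT B : ℝ) + 2 * cnt B B S ≤ (n : ℝ) ^ 2 - 2 / 3 * ((n : ℝ) - S.card) ^ 2 + 15 * n + 3 := by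
    intro s
    induction s using Nat.strong_induction_on with
    | _ s ih =>
    intro B S j hB hj hS hSn hs
    have hnr : (0 : ℝ) ≤ n := Nat.cast_nonneg n
    rcases Nat.eq_zero_or_pos s with h0 | hpos
    · have hS0 : S = ∅ := by rw [← card_eq_zero]; omega
      subst hS0
      rw [cnt_empty]
      have := hT B hB (by omega)
      simp only [card_empty]
      push_cast
      nlinarith
    · obtain ⟨B', S', j', h1, h2, h3, h4, h5, h6, h7, h8, -⟩ := normal_form B S (by omega) j hj hS
      rw [← h5, ← h6]
      have hB' : B'.card = n := by omega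
      rcases Nat.lt_or_ge S'.card S.card with hlt | hge
      · have := ih S'.card (by omega) B' S' j' hB' h3 h4 (by omega) rfl
        have c1 : (S'.card : ℝ) ≤ S.card := by exact_mod_cast h2
        have c2 : (S.card : ℝ) ≤ n := by exact_mod_cast hSn.le
        nlinarith
      · have hSS : S'.card = S.card := by omega
        rw [← hSS]
        have hSn' : S'.card < n := by omega
        have hSnr : (S'.card : ℝ) < n := by exact_mod_cast hSn'
        have hs1 : 1 ≤ S'.card := by omega
        have hs1r : (1 : ℝ) ≤ S'.card := by exact_mod_cast hs1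
        by_cases hex : ∃ u ∈ S', (cnt B' B' {u} : ℝ) ≤ 2 / 3 * ((n : ℝ) - S'.card)
        · obtain ⟨u, hu, hut⟩ := hex
          have hc := cnt_erase_le B' S' u
          have hcr : (cnt B' B' S' : ℝ) ≤ cnt B' B' (S'.erase u) + cnt B' B' {u} := by
            exact_mod_cast hc
          have hcard : (S'.erase u).card = S'.card - 1 := card_erase_of_mem hu
          have := ih (S'.erase u).card (by omega) B' (S'.erase u) j' hB' h3
            (fun v hv => h4 v (mem_of_mem_erase hv)) (by omega) rfl
          have hcard' : ((S'.erase u).card : ℝ) = S'.card - 1 := by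
            rw [hcard]; push_cast [hs1]; ring
          rw [hcard'] at this
          nlinarith
        · push Not at hex
          have hpq := evs_add_ods B'
          have hpqr : ((evs B').card : ℝ) + (ods B').card = n := by rw [← hB']; exact_mod_cast hpq
          have hq1r : (1 : ℝ) ≤ (ods B').card := by exact_mod_cast h7
          have hqpr : ((ods B').card : ℝ) ≤ (evs B').card := by exact_mod_cast h8
          have hTB := hT B' hB' (by omega)
          rcases le_or_gt (2 / 3 * ((n : ℝ) - S'.card)) ((ods B').card : ℝ) with hA | hBc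
          · have := caseA_bound B' S' j' h3 h4 (2 / 3 * ((n : ℝ) - S'.card)) (by linarith)
              (by linarith) hA
            rw [hB'] at this
            nlinarith
          · have hev : ∀ u ∈ S', u % 2 = 0 := by
              intro u hu
              by_contra hne
              have h9 := cnt_odd_le B' u hne
              have h9r : (cnt B' B' {u} : ℝ) ≤ (ods B').card := by exact_mod_cast h9
              have := hex u hu
              linarith
            rcases caseB B' S' j' h3 h4 hev h7 hs1 with hE | hE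
            · rw [hpqr] at hE
              nlinarith
            · have hp : (evs B').card < n := by omega
              have hsp : S'.card < (evs B').card := by
                have : (S'.card : ℝ) < (evs B').card := by linarith
                exact_mod_cast this
              have i1 := (IH (evs B').card hp).2 (evs B') S' j' rfl h3 h4 hsp
              have i2 := (IH (ods B').card (by omega)).1 (ods B') rfl h7
              rw [← hpqr]
              nlinarith
  intro B S j hB hj hS hSn
  exact key S.card B S j hB hj hS hSn rfl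

theorem bounds (n : ℕ) : TBound n ∧ PBound n := by
  induction n using Nat.strong_induction_on with
  | _ n ih =>
    have hT := tbound_step n ih
    exact ⟨hT, pbound_step n ih hT⟩

/-- main upper bound -/
theorem upper_bound (A : Finset ℤ) :
    ((((A ×ˢ A).filter (fun (x, y) ↦ x ≠ y ∧ x + 3 * (y - x) ∈ A)).card : ℕ) : ℝ) ≤
      (A.card : ℝ) ^ 2 / 3 + 15 * A.card := by
  have h1 : ((A ×ˢ A).filter (fun (x, y) ↦ x ≠ y ∧ x + 3 * (y - x) ∈ A)).card ≤ TT A := by
    unfold TT cnt
    apply card_le_card_of_injOn (fun p => (p.1, 3 * p.2 - 2 * p.1))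
    · rintro ⟨x, y⟩ hp
      simp only [coe_filter, mem_product, Set.mem_ofPred_eq] at hp ⊢
      obtain ⟨⟨hx, hy⟩, -, hz⟩ := hp
      refine ⟨⟨hx, ?_⟩, ?_⟩
      · have : x + 3 * (y - x) = 3 * y - 2 * x := by ring
        rw [← this]; exact hz
      · rw [mem_image]
        exact ⟨y, hy, by ring⟩
    · rintro ⟨x, y⟩ - ⟨x', y'⟩ - h
      simp only [Prod.mk.injEq] at h ⊢
      omega
  have h1r : ((((A ×ˢ A).filter (fun (x, y) ↦ x ≠ y ∧ x + 3 * (y - x) ∈ A)).card : ℕ) : ℝ) ≤ TT A := by
    exact_mod_cast h1
  rcases Nat.eq_zero_or_pos A.card with h0 | hpos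
  · have hA : A = ∅ := by rwa [card_eq_zero] at h0
    subst hA
    simp
  · have := (bounds A.card).1 A rfl hpos
    linarith

end Ap013
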