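import Pool.Agent.H.MP_4074ca_co.Check

namespace Ap013
namespace CB

noncomputable section

def ev2 (a : I2) (u : ℝ) : ℝ := (1 - u) * (a.1 : ℝ) + u * (a.2 : ℝ)
def ev4 (a : I4) (u w : ℝ) : ℝ := (1 - w) * ev2 a.1 u + w * ev2 a.2 u
def ev8 (a : I8) (u w y : ℝ) : ℝ := (1 - y) * ev4 a.1 u w + y * ev4 a.2 u w
def ec3 (a : I3) (u : ℝ) : ℝ := (1 - u) ^ 2 * (a.1 : ℝ) + (1 - u) * u * (a.2.1 : ℝ) + u ^ 2 * (a.2.2 : ℝ)
def ec9 (a : I9) (u w : ℝ) : ℝ := (1 - w) ^ 2 * ec3 a.1 u + (1 - w) * w * ec3 a.2.1 u + w ^ 2 * ec3 a.2.2 u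
def ec27 (a : I27) (u w y : ℝ) : ℝ :=
  (1 - y) ^ 2 * ec9 a.1 u w + (1 - y) * y * ec9 a.2.1 u w + y ^ 2 * ec9 a.2.2 u w

lemma iadd (a b : Int) : Int.add a b = a + b := rfl
lemma imul (a b : Int) : Int.mul a b = a * b := rfl
lemma isub (a b : Int) : Int.sub a b = a - b := rfl
lemma ineg (a : Int) : Int.neg a = - a := rfl

lemma ec3_add (a b : I3) (u : ℝ) : ec3 (add3 a b) u = ec3 a u + ec3 b u := by
  simp only [ec3, add3, iadd]; push_cast; ring
lemma ec9_add (a b : I9) (u w : ℝ) : ec9 (add9 a b) u w = ec9 a u w + ec9 b u w := by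
  simp only [ec9, add9, ec3_add]; ring
lemma ec27_add (a b : I27) (u w y : ℝ) : ec27 (add27 a b) u w y = ec27 a u w y + ec27 b u w y := by
  simp only [ec27, add27, ec9_add]; ring
lemma ec3_mul (a b : I2) (u : ℝ) : ec3 (mul3 a b) u = ev2 a u * ev2 b u := by
  simp only [ec3, mul3, ev2, iadd, imul]; push_cast; ring
lemma ec9_mul (a b : I4) (u w : ℝ) : ec9 (mul9 a b) u w = ev4 a u w * ev4 b u w := by
  simp only [ec9, mul9, ev4, ec3_add, ec3_mul]; ring
lemma ec27_mul (a b : I8) (u w y : ℝ) : ec27 (mul27 a b) u w y = ev8 a u w y * ev8 b u w y := by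
  simp only [ec27, mul27, ev8, ec9_add, ec9_mul]; ring

lemma np_iff (x : Int) (h : np x = true) : (x : ℝ) ≤ 0 := by
  have : x ≤ 0 := by
    unfold np at h
    match x, h with
    | Int.ofNat n, h =>
      simp at h
      simp [h]
    | Int.negSucc n, _ => exact (Int.negSucc_lt_zero n).le
  exact_mod_cast this

lemma nn_iff (x : Int) (h : nn x = true) : 0 ≤ (x : ℝ) := by
  have : 0 ≤ x := by
    unfold nn at h
    match x, h with
    | Int.ofNat n, _ => exact Int.natCast_nonneg n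
    | Int.negSucc n, h => simp at h
  exact_mod_cast this

section
variable {u w y : ℝ} (hu0 : 0 ≤ u) (hu1 : u ≤ 1) (hw0 : 0 ≤ w) (hw1 : w ≤ 1) (hy0 : 0 ≤ y) (hy1 : y ≤ 1)
include hu0 hu1

lemma np2_le (a : I2) (h : np2 a = true) : ev2 a u ≤ 0 := by
  simp only [np2, Bool.and_eq_true] at h
  have h1 := np_iff _ h.1
  have h2 := np_iff _ h.2
  unfold ev2
  have : (1 - u) * (a.1 : ℝ) ≤ 0 := mul_nonpos_of_nonneg_of_nonpos (by linarith) h1
  have : u * (a.2 : ℝ) ≤ 0 := mul_nonpos_of_nonneg_of_nonpos (by linarith) h2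
  linarith

lemma nn2_le (a : I2) (h : nn2 a = true) : 0 ≤ ev2 a u := by
  simp only [nn2, Bool.and_eq_true] at h
  have h1 := nn_iff _ h.1
  have h2 := nn_iff _ h.2
  unfold ev2
  have : 0 ≤ (1 - u) * (a.1 : ℝ) := mul_nonneg (by linarith) h1
  have : 0 ≤ u * (a.2 : ℝ) := mul_nonneg (by linarith) h2
  linarith

lemma np3_le (a : I3) (h : np3 a = true) : ec3 a u ≤ 0 := by
  simp only [np3, Bool.and_eq_true] at h
  have h1 := np_iff _ h.1.1
  have h2 := np_iff _ h.1.2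
  have h3 := np_iff _ h.2
  unfold ec3
  have : (1 - u) ^ 2 * (a.1 : ℝ) ≤ 0 := mul_nonpos_of_nonneg_of_nonpos (by positivity) h1
  have : (1 - u) * u * (a.2.1 : ℝ) ≤ 0 :=
    mul_nonpos_of_nonneg_of_nonpos (mul_nonneg (by linarith) hu0) h2
  have : u ^ 2 * (a.2.2 : ℝ) ≤ 0 := mul_nonpos_of_nonneg_of_nonpos (by positivity) h3
  linarith

include hw0 hw1

lemma np4_le (a : I4) (h : np4 a = true) : ev4 a u w ≤ 0 := by
  simp only [np4, Bool.and_eq_true] at h
  have h1 := np2_le hu0 hu1 _ h.1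
  have h2 := np2_le hu0 hu1 _ h.2
  unfold ev4
  have : (1 - w) * ev2 a.1 u ≤ 0 := mul_nonpos_of_nonneg_of_nonpos (by linarith) h1
  have : w * ev2 a.2 u ≤ 0 := mul_nonpos_of_nonneg_of_nonpos (by linarith) h2
  linarith

lemma nn4_le (a : I4) (h : nn4 a = true) : 0 ≤ ev4 a u w := by
  simp only [nn4, Bool.and_eq_true] at h
  have h1 := nn2_le hu0 hu1 _ h.1
  have h2 := nn2_le hu0 hu1 _ h.2
  unfold ev4
  have : 0 ≤ (1 - w) * ev2 a.1 u := mul_nonneg (by linarith) h1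
  have : 0 ≤ w * ev2 a.2 u := mul_nonneg (by linarith) h2
  linarith

lemma np9_le (a : I9) (h : np9 a = true) : ec9 a u w ≤ 0 := by
  simp only [np9, Bool.and_eq_true] at h
  have h1 := np3_le hu0 hu1 _ h.1.1
  have h2 := np3_le hu0 hu1 _ h.1.2
  have h3 := np3_le hu0 hu1 _ h.2
  unfold ec9
  have : (1 - w) ^ 2 * ec3 a.1 u ≤ 0 := mul_nonpos_of_nonneg_of_nonpos (by positivity) h1
  have : (1 - w) * w * ec3 a.2.1 u ≤ 0 :=
    mul_nonpos_of_nonneg_of_nonpos (mul_nonneg (by linarith) hw0) h2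
  have : w ^ 2 * ec3 a.2.2 u ≤ 0 := mul_nonpos_of_nonneg_of_nonpos (by positivity) h3
  linarith

include hy0 hy1

lemma np8_le (a : I8) (h : np8 a = true) : ev8 a u w y ≤ 0 := by
  simp only [np8, Bool.and_eq_true] at h
  have h1 := np4_le hu0 hu1 hw0 hw1 _ h.1
  have h2 := np4_le hu0 hu1 hw0 hw1 _ h.2
  unfold ev8
  have : (1 - y) * ev4 a.1 u w ≤ 0 := mul_nonpos_of_nonneg_of_nonpos (by linarith) h1
  have : y * ev4 a.2 u w ≤ 0 := mul_nonpos_of_nonneg_of_nonpos (by linarith) h2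
  linarith

lemma nn8_le (a : I8) (h : nn8 a = true) : 0 ≤ ev8 a u w y := by
  simp only [nn8, Bool.and_eq_true] at h
  have h1 := nn4_le hu0 hu1 hw0 hw1 _ h.1
  have h2 := nn4_le hu0 hu1 hw0 hw1 _ h.2
  unfold ev8
  have : 0 ≤ (1 - y) * ev4 a.1 u w := mul_nonneg (by linarith) h1
  have : 0 ≤ y * ev4 a.2 u w := mul_nonneg (by linarith) h2
  linarith

lemma np27_le (a : I27) (h : np27 a = true) : ec27 a u w y ≤ 0 := by
  simp only [np27, Bool.and_eq_true] at h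
  have h1 := np9_le hu0 hu1 hw0 hw1 _ h.1.1
  have h2 := np9_le hu0 hu1 hw0 hw1 _ h.1.2
  have h3 := np9_le hu0 hu1 hw0 hw1 _ h.2
  unfold ec27
  have : (1 - y) ^ 2 * ec9 a.1 u w ≤ 0 := mul_nonpos_of_nonneg_of_nonpos (by positivity) h1
  have : (1 - y) * y * ec9 a.2.1 u w ≤ 0 :=
    mul_nonpos_of_nonneg_of_nonpos (mul_nonneg (by linarith) hy0) h2
  have : y ^ 2 * ec9 a.2.2 u w ≤ 0 := mul_nonpos_of_nonneg_of_nonpos (by positivity) h3
  linarith

end

/-- product of positive parts -/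
def pp (a b : ℝ) : ℝ := max a 0 * max b 0

def sumpp (l : List (I8 × I8)) (u w y : ℝ) : ℝ :=
  match l with
  | [] => 0
  | (A, B) :: l => pp (ev8 A u w y) (ev8 B u w y) + sumpp l u w y

lemma pp_of_nonpos_left {a b : ℝ} (h : a ≤ 0) : pp a b = 0 := by simp [pp, max_eq_right h]
lemma pp_of_nonpos_right {a b : ℝ} (h : b ≤ 0) : pp a b = 0 := by simp [pp, max_eq_right h]
lemma pp_of_nonneg {a b : ℝ} (h : 0 ≤ a) (h' : 0 ≤ b) : pp a b = a * b := by
  simp [pp, max_eq_left h, max_eq_left h']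

lemma chk_sound {u w y : ℝ} (hu0 : 0 ≤ u) (hu1 : u ≤ 1) (hw0 : 0 ≤ w) (hw1 : w ≤ 1)
    (hy0 : 0 ≤ y) (hy1 : y ≤ 1) (l : List (I8 × I8)) :
    ∀ P : I27, chk l P = true → ec27 P u w y + sumpp l u w y ≤ 0 := by
  induction l with
  | nil =>
    intro P h
    simp only [chk] at h
    simpa [sumpp] using np27_le hu0 hu1 hw0 hw1 hy0 hy1 P h
  | cons AB l ih =>
    obtain ⟨A, B⟩ := AB
    intro P h
    simp only [chk] at h
    simp only [sumpp]
    split_ifs at h with h1 h2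
    · have := ih P h
      rw [Bool.or_eq_true] at h1
      rcases h1 with h1 | h1
      · rw [pp_of_nonpos_left (np8_le hu0 hu1 hw0 hw1 hy0 hy1 A h1)]; linarith
      · rw [pp_of_nonpos_right (np8_le hu0 hu1 hw0 hw1 hy0 hy1 B h1)]; linarith
    · rw [Bool.and_eq_true] at h2
      have := ih _ h
      rw [ec27_add, ec27_mul] at this
      rw [pp_of_nonneg (nn8_le hu0 hu1 hw0 hw1 hy0 hy1 A h2.1)
        (nn8_le hu0 hu1 hw0 hw1 hy0 hy1 B h2.2)]
      linarith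
    · rw [Bool.and_eq_true] at h
      have ha := ih _ h.1
      have hb := ih _ h.2
      rw [ec27_add, ec27_mul] at hb
      rcases le_total (ev8 A u w y) 0 with hA | hA
      · rw [pp_of_nonpos_left hA]; linarith
      · rcases le_total (ev8 B u w y) 0 with hB | hB
        · rw [pp_of_nonpos_right hB]; linarith
        · rw [pp_of_nonneg hA hB]; linarith

end
end CB
end Ap013
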