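import Pool.Agent.H.MP_4074ca_co.Sound

namespace Ap013
namespace CB

noncomputable section

lemma ev4_smul (c : Int) (a : I4) (u w : ℝ) : ev4 (smul4 c a) u w = c * ev4 a u w := by
  simp only [ev4, ev2, smul4, smul2, imul]; push_cast; ring
lemma ev4_sub (a b : I4) (u w : ℝ) : ev4 (sub4 a b) u w = ev4 a u w - ev4 b u w := by
  simp only [ev4, ev2, sub4, sub2, isub]; push_cast; ring
lemma ev4_padd (a b : I4) (u w : ℝ) : ev4 (padd4 a b) u w = ev4 a u w + ev4 b u w := by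
  simp only [ev4, ev2, padd4, padd2, iadd]; push_cast; ring
lemma ev4_con (c : Int) (u w : ℝ) : ev4 (con4 c) u w = c := by
  simp only [ev4, ev2, con4, con2]; ring
lemma ev8_con (c : Int) (u w y : ℝ) : ev8 (con8 c) u w y = c := by
  simp only [ev8, con8, ev4_con]; ring

lemma ev8_tabA (b : Box) (W G : I4) (u w y : ℝ) :
    ev8 (tabA b W G) u w y =
      2048 * ev4 W u w - ((1 - y) * (b.V0 : ℝ) + y * (b.V1 : ℝ)) * ev4 G u w := by
  simp only [ev8, tabA, ev4_sub, ev4_smul]; push_cast; ring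

lemma ev8_tabB (b : Box) (s : Int) (G : I4) (u w y : ℝ) :
    ev8 (tabB b s G) u w y =
      3 * (s : ℝ) * 1048576 - 2 * (1024 - ((1 - y) * (b.V0 : ℝ) + y * (b.V1 : ℝ))) * ev4 G u w := by
  simp only [ev8, tabB, ev4_sub, ev4_smul, ev4_con, imul, isub, D, D2]; push_cast; ring

lemma ev8_tabGA (b : Box) (be : I4) (u w y : ℝ) :
    ev8 (tabGA b be) u w y = -(((1 - y) * (b.V0 : ℝ) + y * (b.V1 : ℝ)) * ev4 be u w) := by
  simp only [ev8, tabGA, ev4_smul, ineg]; push_cast; ring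

lemma ev8_tabGB (s : Int) (be : I4) (u w y : ℝ) :
    ev8 (tabGB s be) u w y = 3 * (s : ℝ) * 1048576 - 2048 * ev4 be u w := by
  simp only [ev8, tabGB, ev4_sub, ev4_smul, ev4_con, imul, D2]; push_cast; ring

/-- gain product -/
def gt (v s be : ℝ) : ℝ := v * be * (3 * s * 1048576 - 2048 * be)

set_option maxHeartbeats 8000000 in
lemma checkS_sound (b : Box) (c : Cfg) (S : Int)
    (W0 W1 W2 be0 be1 be2 be3 be4 be5 G0 G1 G2 G3 G4 G5 : I4) (l1 l2 : Int)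
    (h : checkS b c S W0 W1 W2 be0 be1 be2 be3 be4 be5 G0 G1 G2 G3 G4 G5 l1 l2 = true)
    {u w y : ℝ} (hu0 : 0 ≤ u) (hu1 : u ≤ 1) (hw0 : 0 ≤ w) (hw1 : w ≤ 1)
    (hy0 : 0 ≤ y) (hy1 : y ≤ 1) (v : ℝ) (hv : v = (1 - y) * (b.V0 : ℝ) + y * (b.V1 : ℝ)) :
    (2 * ev4 be0 u w ≤ 3 * (1024 + (S : ℝ)) * 1024 ∧ 2 * ev4 be1 u w ≤ 3 * (1024 - (S : ℝ)) * 1024 ∧
      2 * ev4 be2 u w ≤ 3 * (1024 + (S : ℝ)) * 1024 ∧ 2 * ev4 be3 u w ≤ 3 * (1024 - (S : ℝ)) * 1024 ∧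
      2 * ev4 be4 u w ≤ 3 * (1024 + (S : ℝ)) * 1024 ∧ 2 * ev4 be5 u w ≤ 3 * (1024 - (S : ℝ)) * 1024) ∧
    (c.gain = 0 → 3 * (1024 + (S : ℝ)) * (c.rho0 : ℝ) ≤ 2 * ev4 be0 u w ∧
      3 * (1024 - (S : ℝ)) * (c.rho1 : ℝ) ≤ 2 * ev4 be1 u w) ∧
    (c.gain = 1 → 3 * (1024 + (S : ℝ)) * (c.rho0 : ℝ) ≤ 2 * ev4 be2 u w ∧
      3 * (1024 - (S : ℝ)) * (c.rho1 : ℝ) ≤ 2 * ev4 be3 u w) ∧
    -6 * (D6 : ℝ) - 12 * v * (D5 : ℝ) +
      v * (3 * ((l1 : ℝ) * 1024 + (l2 : ℝ) * (c.T2 : ℝ)) *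
        ((if c.eta then 1024 - (S : ℝ) else 1024 + (S : ℝ)) * 1048576)) -
      (if c.gain = 0 then gt v (1024 + S) (ev4 be0 u w) + gt v (1024 - S) (ev4 be1 u w) else 0) -
      (if c.gain = 1 then gt v (1024 + S) (ev4 be2 u w) + gt v (1024 - S) (ev4 be3 u w) else 0) +
      (pp (2048 * ev4 W0 u w - v * ev4 G0 u w)
          (3 * (1024 - (S : ℝ)) * 1048576 - 2 * (1024 - v) * ev4 G0 u w) +
        (pp (2048 * ev4 W0 u w - v * ev4 G1 u w)
          (3 * (1024 + (S : ℝ)) * 1048576 - 2 * (1024 - v) * ev4 G1 u w) +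
        (pp (2048 * ev4 W1 u w - v * ev4 G2 u w)
          (3 * (1024 - (S : ℝ)) * 1048576 - 2 * (1024 - v) * ev4 G2 u w) +
        (pp (2048 * ev4 W1 u w - v * ev4 G3 u w)
          (3 * (1024 + (S : ℝ)) * 1048576 - 2 * (1024 - v) * ev4 G3 u w) +
        (pp (2048 * ev4 W2 u w - v * ev4 G4 u w)
          (3 * (1024 - (S : ℝ)) * 1048576 - 2 * (1024 - v) * ev4 G4 u w) +
        (pp (2048 * ev4 W2 u w - v * ev4 G5 u w)
          (3 * (1024 + (S : ℝ)) * 1048576 - 2 * (1024 - v) * ev4 G5 u w) + 0)))))) ≤ 0 := by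
  unfold checkS at h
  simp only [Bool.and_eq_true] at h
  obtain ⟨⟨⟨⟨⟨⟨⟨h0, h1⟩, h2⟩, h3⟩, h4⟩, h5⟩, hg⟩, hc⟩ := h
  refine ⟨?_, ?_, ?_, ?_⟩
  · have k0 := nn4_le hu0 hu1 hw0 hw1 _ h0
    have k1 := nn4_le hu0 hu1 hw0 hw1 _ h1
    have k2 := nn4_le hu0 hu1 hw0 hw1 _ h2
    have k3 := nn4_le hu0 hu1 hw0 hw1 _ h3
    have k4 := nn4_le hu0 hu1 hw0 hw1 _ h4
    have k5 := nn4_le hu0 hu1 hw0 hw1 _ h5
    simp only [ev4_sub, ev4_con, ev4_smul, imul, iadd, isub, D] at k0 k1 k2 k3 k4 k5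
    push_cast at k0 k1 k2 k3 k4 k5
    refine ⟨?_, ?_, ?_, ?_, ?_, ?_⟩ <;> linarith
  · intro hg0
    rw [hg0] at hg
    simp only [Bool.and_eq_true] at hg
    have k0 := nn4_le hu0 hu1 hw0 hw1 _ hg.1
    have k1 := nn4_le hu0 hu1 hw0 hw1 _ hg.2
    simp only [ev4_sub, ev4_con, ev4_smul, imul, iadd, isub, D] at k0 k1
    push_cast at k0 k1
    refine ⟨?_, ?_⟩ <;> linarith
  · intro hg0
    rw [hg0] at hg
    simp only [Bool.and_eq_true] at hg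
    have k0 := nn4_le hu0 hu1 hw0 hw1 _ hg.1
    have k1 := nn4_le hu0 hu1 hw0 hw1 _ hg.2
    simp only [ev4_sub, ev4_con, ev4_smul, imul, iadd, isub, D] at k0 k1
    push_cast at k0 k1
    refine ⟨?_, ?_⟩ <;> linarith
  · have k := chk_sound hu0 hu1 hw0 hw1 hy0 hy1 _ _ hc
    simp only [sumpp, ev8_tabA, ev8_tabB] at k
    have e0 : (((D.add S : Int)) : ℝ) = 1024 + (S : ℝ) := by simp only [iadd, D]; push_cast; ring
    have e1 : (((D.sub S : Int)) : ℝ) = 1024 - (S : ℝ) := by simp only [isub, D]; push_cast; ring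
    rw [← hv, e0, e1] at k
    match hgn : c.gain with
    | 0 =>
      simp only [hgn, ec27_add, ec27_mul, ev8_tabGA, ev8_tabGB, ev8_con, e0, e1] at k
      simp only [if_true, gt]
      rw [← hv] at k
      cases he : c.eta <;> simp only [he, if_true, if_false, ev8, ev4_con, iadd, isub, imul, D2, D5, D6, D,
        Bool.false_eq_true] at k ⊢ <;> push_cast at k ⊢ <;> simp only [hv] at k ⊢ <;> nlinarith [k]
    | 1 =>
      simp only [hgn, ec27_add, ec27_mul, ev8_tabGA, ev8_tabGB, ev8_con, e0, e1] at k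
      simp only [if_true, gt]
      rw [← hv] at k
      cases he : c.eta <;> simp only [he, if_true, if_false, ev8, ev4_con, iadd, isub, imul, D2, D5, D6, D,
        Bool.false_eq_true] at k ⊢ <;> push_cast at k ⊢ <;> simp only [hv] at k ⊢ <;> nlinarith [k]
    | (n+2) =>
      simp only [hgn, ec27_mul, ev8_con] at k
      cases he : c.eta <;> simp only [he, if_true, if_false, ev8, ev4_con, iadd, isub, imul, D2, D5, D6, D,
        Bool.false_eq_true] at k ⊢ <;> push_cast at k ⊢ <;> simp only [hv] at k ⊢ <;> nlinarith [k]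

end
end CB
end Ap013
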