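import Pool.Agent.H.MP_4074ca_co.Sound2

namespace Ap013
namespace CB

noncomputable section

/-- gain product, unscaled -/
def gr (V s be : ℝ) : ℝ := V * be * (3 * s - 2 * be)

/-- the real form of the certificate -/
def Good (c : Cfg) (X t V S : ℝ) : Prop :=
  ∃ be0 be1 be2 be3 be4 be5 l1 l2 G0 G1 G2 G3 G4 G5 : ℝ,
    (0 ≤ be0 ∧ 0 ≤ be1 ∧ 0 ≤ be2 ∧ 0 ≤ be3 ∧ 0 ≤ be4 ∧ 0 ≤ be5 ∧ 0 ≤ l1 ∧ 0 ≤ l2) ∧
    (0 ≤ G0 ∧ 0 ≤ G1 ∧ 0 ≤ G2 ∧ 0 ≤ G3 ∧ 0 ≤ G4 ∧ 0 ≤ G5) ∧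
    (2 * be0 ≤ 3 * (1 + S) ∧ 2 * be1 ≤ 3 * (1 - S) ∧ 2 * be2 ≤ 3 * (1 + S) ∧
      2 * be3 ≤ 3 * (1 - S) ∧ 2 * be4 ≤ 3 * (1 + S) ∧ 2 * be5 ≤ 3 * (1 - S)) ∧
    (c.gain = 0 → 3 * (1 + S) * ((c.rho0 : ℝ) / 1024) ≤ 2 * be0 ∧
      3 * (1 - S) * ((c.rho1 : ℝ) / 1024) ≤ 2 * be1) ∧
    (c.gain = 1 → 3 * (1 + S) * ((c.rho0 : ℝ) / 1024) ≤ 2 * be2 ∧
      3 * (1 - S) * ((c.rho1 : ℝ) / 1024) ≤ 2 * be3) ∧
    (G0 = 1 - (1 - X) + (be2 + be3) - be0 + (if c.lc = 1 then l1 else 0) +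
        (if c.lc = 0 ∧ c.eta = false then l2 else 0) ∧
      G1 = 1 - (1 - X) + (be2 + be3) - be1 + (if c.lc = 1 then l1 else 0) +
        (if c.lc = 0 ∧ c.eta = true then l2 else 0) ∧
      G2 = 1 - (1 + X) * (1 - t) + (be4 + be5) - be2 + (if c.lc = 2 then l1 else 0) +
        (if c.lc = 1 ∧ c.eta = false then l2 else 0) ∧
      G3 = 1 - (1 + X) * (1 - t) + (be4 + be5) - be3 + (if c.lc = 2 then l1 else 0) +
        (if c.lc = 1 ∧ c.eta = true then l2 else 0) ∧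
      G4 = 1 - (1 + (1 + X) * t) + (be0 + be1) - be4 + (if c.lc = 0 then l1 else 0) ∧
      G5 = 1 - (1 + (1 + X) * t) + (be0 + be1) - be5 + (if c.lc = 0 then l1 else 0)) ∧
    -6 - 12 * V + V * (3 * (l1 + l2 * ((c.T2 : ℝ) / 1024)) * (if c.eta then 1 - S else 1 + S)) -
      (if c.gain = 0 then gr V (1 + S) be0 + gr V (1 - S) be1 else 0) -
      (if c.gain = 1 then gr V (1 + S) be2 + gr V (1 - S) be3 else 0) +
      (pp (2 * (1 + (1 + X) * t) - V * G0) (3 * (1 - S) - 2 * (1 - V) * G0) +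
       pp (2 * (1 + (1 + X) * t) - V * G1) (3 * (1 + S) - 2 * (1 - V) * G1) +
       pp (2 * (1 - X) - V * G2) (3 * (1 - S) - 2 * (1 - V) * G2) +
       pp (2 * (1 - X) - V * G3) (3 * (1 + S) - 2 * (1 - V) * G3) +
       pp (2 * ((1 + X) * (1 - t)) - V * G4) (3 * (1 - S) - 2 * (1 - V) * G4) +
       pp (2 * ((1 + X) * (1 - t)) - V * G5) (3 * (1 + S) - 2 * (1 - V) * G5)) ≤ 0

lemma exists_conv (a b x : ℝ) (h1 : a ≤ x) (h2 : x ≤ b) :
    ∃ u : ℝ, 0 ≤ u ∧ u ≤ 1 ∧ x = (1 - u) * a + u * b := by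
  rcases eq_or_lt_of_le (h1.trans h2) with h | h
  · exact ⟨0, le_rfl, zero_le_one, by linarith⟩
  · refine ⟨(x - a) / (b - a), div_nonneg (by linarith) (by linarith), ?_, ?_⟩
    · rw [div_le_one (by linarith)]; linarith
    · have : b - a ≠ 0 := by linarith
      field_simp
      ring

lemma pp_scale (a b c d : ℝ) (hc : 0 < c) (hd : 0 < d) : pp (c * a) (d * b) = c * d * pp a b := by
  unfold pp
  have h1 : max (c * a) 0 = c * max a 0 := by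
    rw [mul_max_of_nonneg _ _ hc.le, mul_zero]
  have h2 : max (d * b) 0 = d * max b 0 := by
    rw [mul_max_of_nonneg _ _ hd.le, mul_zero]
  rw [h1, h2]; ring

lemma pp_convex (a b0 b1 z : ℝ) (hz0 : 0 ≤ z) (hz1 : z ≤ 1) :
    pp a ((1 - z) * b0 + z * b1) ≤ (1 - z) * pp a b0 + z * pp a b1 := by
  unfold pp
  have h1 : max ((1 - z) * b0 + z * b1) 0 ≤ (1 - z) * max b0 0 + z * max b1 0 := by
    apply max_le
    · have := mul_le_mul_of_nonneg_left (le_max_left b0 0) (by linarith : 0 ≤ 1 - z)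
      have := mul_le_mul_of_nonneg_left (le_max_left b1 0) hz0
      linarith
    · have := mul_nonneg (by linarith : 0 ≤ 1 - z) (le_max_right b0 0)
      have := mul_nonneg hz0 (le_max_right b1 0)
      linarith
  calc max a 0 * max ((1 - z) * b0 + z * b1) 0
      ≤ max a 0 * ((1 - z) * max b0 0 + z * max b1 0) :=
        mul_le_mul_of_nonneg_left h1 (le_max_right _ _)
    _ = _ := by ring

lemma ev4_tabW0 (b : Box) (u w : ℝ) :
    ev4 (tabXt (fun X t => Int.add D2 (Int.mul (Int.add D X) t)) b) u w =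
      1048576 + (1024 + ((1 - u) * (b.X0 : ℝ) + u * (b.X1 : ℝ))) *
        ((1 - w) * (b.t0 : ℝ) + w * (b.t1 : ℝ)) := by
  simp only [ev4, ev2, tabXt, iadd, imul, D, D2]; push_cast; ring
lemma ev4_tabW1 (b : Box) (u w : ℝ) :
    ev4 (tabXt (fun X _ => Int.mul (Int.sub D X) D) b) u w =
      (1024 - ((1 - u) * (b.X0 : ℝ) + u * (b.X1 : ℝ))) * 1024 := by
  simp only [ev4, ev2, tabXt, isub, imul, D]; push_cast; ring
lemma ev4_tabW2 (b : Box) (u w : ℝ) :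
    ev4 (tabXt (fun X t => Int.mul (Int.add D X) (Int.sub D t)) b) u w =
      (1024 + ((1 - u) * (b.X0 : ℝ) + u * (b.X1 : ℝ))) *
        (1024 - ((1 - w) * (b.t0 : ℝ) + w * (b.t1 : ℝ))) := by
  simp only [ev4, ev2, tabXt, isub, iadd, imul, D]; push_cast; ring

lemma ite_cast (p : Prop) [Decidable p] (l : Int) :
    ((Int.mul D (if p then l else 0) : Int) : ℝ) = 1024 * (if p then (l : ℝ) else 0) := by
  split_ifs <;> simp [D]

end
end CB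
end Ap013
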