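import Pool.Agent.H.MP_4074ca_co.Sound3

namespace Ap013
namespace CB

noncomputable section

def FF (g : ℕ) (eta : Bool) (T2 V S be0 be1 be2 be3 l1 l2 w0 w1 w2 G0 G1 G2 G3 G4 G5 : ℝ) : ℝ :=
    -6 - 12 * V + V * (3 * (l1 + l2 * T2) * (if eta then 1 - S else 1 + S)) -
      (if g = 0 then gr V (1 + S) be0 + gr V (1 - S) be1 else 0) -
      (if g = 1 then gr V (1 + S) be2 + gr V (1 - S) be3 else 0) +
      (pp (2 * w0 - V * G0) (3 * (1 - S) - 2 * (1 - V) * G0) +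
       pp (2 * w0 - V * G1) (3 * (1 + S) - 2 * (1 - V) * G1) +
       pp (2 * w1 - V * G2) (3 * (1 - S) - 2 * (1 - V) * G2) +
       pp (2 * w1 - V * G3) (3 * (1 + S) - 2 * (1 - V) * G3) +
       pp (2 * w2 - V * G4) (3 * (1 - S) - 2 * (1 - V) * G4) +
       pp (2 * w2 - V * G5) (3 * (1 + S) - 2 * (1 - V) * G5))

lemma FF_convex (g : ℕ) (eta : Bool)
    (T2 V S S0 S1 z be0 be1 be2 be3 l1 l2 w0 w1 w2 G0 G1 G2 G3 G4 G5 : ℝ)
    (hz0 : 0 ≤ z) (hz1 : z ≤ 1) (hS : S = (1 - z) * S0 + z * S1)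
    (h0 : FF g eta T2 V S0 be0 be1 be2 be3 l1 l2 w0 w1 w2 G0 G1 G2 G3 G4 G5 ≤ 0)
    (h1 : FF g eta T2 V S1 be0 be1 be2 be3 l1 l2 w0 w1 w2 G0 G1 G2 G3 G4 G5 ≤ 0) :
    FF g eta T2 V S be0 be1 be2 be3 l1 l2 w0 w1 w2 G0 G1 G2 G3 G4 G5 ≤ 0 := by
  have key : ∀ a G : ℝ, pp a (3 * (1 - S) - 2 * (1 - V) * G) ≤
      (1 - z) * pp a (3 * (1 - S0) - 2 * (1 - V) * G) + z * pp a (3 * (1 - S1) - 2 * (1 - V) * G) := by
    intro a G
    have := pp_convex a (3 * (1 - S0) - 2 * (1 - V) * G) (3 * (1 - S1) - 2 * (1 - V) * G) z hz0 hz1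
    rw [show 3 * (1 - S) - 2 * (1 - V) * G = (1 - z) * (3 * (1 - S0) - 2 * (1 - V) * G) +
      z * (3 * (1 - S1) - 2 * (1 - V) * G) by rw [hS]; ring]
    exact this
  have key' : ∀ a G : ℝ, pp a (3 * (1 + S) - 2 * (1 - V) * G) ≤
      (1 - z) * pp a (3 * (1 + S0) - 2 * (1 - V) * G) + z * pp a (3 * (1 + S1) - 2 * (1 - V) * G) := by
    intro a G
    have := pp_convex a (3 * (1 + S0) - 2 * (1 - V) * G) (3 * (1 + S1) - 2 * (1 - V) * G) z hz0 hz1
    rw [show 3 * (1 + S) - 2 * (1 - V) * G = (1 - z) * (3 * (1 + S0) - 2 * (1 - V) * G) +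
      z * (3 * (1 + S1) - 2 * (1 - V) * G) by rw [hS]; ring]
    exact this
  have k0 := key (2 * w0 - V * G0) G0
  have k1 := key' (2 * w0 - V * G1) G1
  have k2 := key (2 * w1 - V * G2) G2
  have k3 := key' (2 * w1 - V * G3) G3
  have k4 := key (2 * w2 - V * G4) G4
  have k5 := key' (2 * w2 - V * G5) G5
  have m0 := mul_nonpos_of_nonneg_of_nonpos (by linarith : 0 ≤ 1 - z) h0
  have m1 := mul_nonpos_of_nonneg_of_nonpos hz0 h1
  have hlin : -6 - 12 * V + V * (3 * (l1 + l2 * T2) * (if eta then 1 - S else 1 + S)) -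
      (if g = 0 then gr V (1 + S) be0 + gr V (1 - S) be1 else 0) -
      (if g = 1 then gr V (1 + S) be2 + gr V (1 - S) be3 else 0) =
      (1 - z) * (-6 - 12 * V + V * (3 * (l1 + l2 * T2) * (if eta then 1 - S0 else 1 + S0)) -
      (if g = 0 then gr V (1 + S0) be0 + gr V (1 - S0) be1 else 0) -
      (if g = 1 then gr V (1 + S0) be2 + gr V (1 - S0) be3 else 0)) +
      z * (-6 - 12 * V + V * (3 * (l1 + l2 * T2) * (if eta then 1 - S1 else 1 + S1)) -
      (if g = 0 then gr V (1 + S1) be0 + gr V (1 - S1) be1 else 0) -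
      (if g = 1 then gr V (1 + S1) be2 + gr V (1 - S1) be3 else 0)) := by
    subst hS
    unfold gr
    cases eta <;> split_ifs <;> ring
  unfold FF at m0 m1 ⊢
  rw [hlin]
  linarith

/-- unscaling of the inequality produced by `checkS_sound` -/
lemma FF_of_scaled (g : ℕ) (eta : Bool)
    (T2 v S be0 be1 be2 be3 l1 l2 W0 W1 W2 G0 G1 G2 G3 G4 G5 : ℝ)
    (h : -6 * (D6 : ℝ) - 12 * v * (D5 : ℝ) +
      v * (3 * (l1 * 1024 + l2 * T2) * ((if eta then 1024 - S else 1024 + S) * 1048576)) -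
      (if g = 0 then gt v (1024 + S) be0 + gt v (1024 - S) be1 else 0) -
      (if g = 1 then gt v (1024 + S) be2 + gt v (1024 - S) be3 else 0) +
      (pp (2048 * W0 - v * G0) (3 * (1024 - S) * 1048576 - 2 * (1024 - v) * G0) +
        (pp (2048 * W0 - v * G1) (3 * (1024 + S) * 1048576 - 2 * (1024 - v) * G1) +
        (pp (2048 * W1 - v * G2) (3 * (1024 - S) * 1048576 - 2 * (1024 - v) * G2) +
        (pp (2048 * W1 - v * G3) (3 * (1024 + S) * 1048576 - 2 * (1024 - v) * G3) +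
        (pp (2048 * W2 - v * G4) (3 * (1024 - S) * 1048576 - 2 * (1024 - v) * G4) +
        (pp (2048 * W2 - v * G5) (3 * (1024 + S) * 1048576 - 2 * (1024 - v) * G5) + 0)))))) ≤ 0) :
    FF g eta (T2 / 1024) (v / 1024) (S / 1024) (be0 / 1048576) (be1 / 1048576) (be2 / 1048576)
      (be3 / 1048576) (l1 / 1024) (l2 / 1024) (W0 / 1048576) (W1 / 1048576) (W2 / 1048576)
      (G0 / 1048576) (G1 / 1048576) (G2 / 1048576) (G3 / 1048576) (G4 / 1048576)
      (G5 / 1048576) ≤ 0 := by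
  have sc : ∀ W s G : ℝ, pp (2048 * W - v * G) (3 * s * 1048576 - 2 * (1024 - v) * G) =
      1152921504606846976 * pp (2 * (W / 1048576) - v / 1024 * (G / 1048576))
        (3 * (s / 1024) - 2 * (1 - v / 1024) * (G / 1048576)) := by
    intro W s G
    rw [show 2048 * W - v * G = 1073741824 * (2 * (W / 1048576) - v / 1024 * (G / 1048576)) by ring,
      show 3 * s * 1048576 - 2 * (1024 - v) * G =
        1073741824 * (3 * (s / 1024) - 2 * (1 - v / 1024) * (G / 1048576)) by ring,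
      pp_scale _ _ _ _ (by norm_num) (by norm_num)]
    norm_num
  simp only [sc] at h
  have e1 : (1024 - S) / 1024 = 1 - S / 1024 := by ring
  have e2 : (1024 + S) / 1024 = 1 + S / 1024 := by ring
  rw [e1, e2] at h
  unfold FF
  unfold gt at h
  unfold gr
  simp only [D5, D6] at h
  push_cast at h
  cases eta <;> split_ifs at h ⊢ <;> simp_all <;> nlinarith [h]

end
end CB
end Ap013
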