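import Pool.Agent.H.MP_4074ca_co.CPrime

namespace Ap013
namespace CB

noncomputable section

/-- the goal inequality (C') -/
def Goal (P00 P01 P10 P11 P20 P21 Q0 Q1 Q2 s0 s1 M0 M1 M2 M3 M4 M5 Y0 Y1 Y2 Y3 Y4 Y5 : ℝ) : Prop :=
    (Q0 * (P00 + P01) + Q1 * (P10 + P11) + Q2 * (P20 + P21)) / (Q0 + Q1 + Q2) +
      (2 / (Q0 + Q1 + Q2) + 1 / (s0 + s1)) * (Y0 + Y1 + Y2 + Y3 + Y4 + Y5) +
      (M0 + M1 + M2 + M3 + M4 + M5) / (s0 + s1) ≤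
      4 / 3 * (P00 + P01 + P10 + P11 + P20 + P21) + (s0 + s1) + (Q0 + Q1 + Q2) / 6 +
        3 / (Q0 + Q1 + Q2) + 3 / (s0 + s1)

set_option maxHeartbeats 16000000 in
lemma use_good (c : Cfg) (P00 P01 P10 P11 P20 P21 Q0 Q1 Q2 s0 s1
    M0 M1 M2 M3 M4 M5 Y0 Y1 Y2 Y3 Y4 Y5 q σ X t V S : ℝ)
    (hP00 : 0 ≤ P00) (hP01 : 0 ≤ P01) (hP10 : 0 ≤ P10) (hP11 : 0 ≤ P11) (hP20 : 0 ≤ P20)
    (hP21 : 0 ≤ P21) (hs0 : 0 ≤ s0) (hs1 : 0 ≤ s1)
    (hq : q = Q0 + Q1 + Q2) (hσ : σ = s0 + s1) (hq0 : 0 < q) (hσ0 : 0 < σ)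
    (hX : 1 - X = 3 * Q1 / q) (ht : 1 + (1 + X) * t = 3 * Q0 / q)
    (hV : V = 2 * σ / (2 * σ + q)) (hS : S = (s0 - s1) / σ)
    (hM0 : MB M0 (P00 + P01) P10 s0) (hM1 : MB M1 (P00 + P01) P11 s1)
    (hM2 : MB M2 (P10 + P11) P20 s0) (hM3 : MB M3 (P10 + P11) P21 s1)
    (hM4 : MB M4 (P20 + P21) P00 s0) (hM5 : MB M5 (P20 + P21) P01 s1)
    (hY0 : YB Y0 Q0 P10 s1) (hY1 : YB Y1 Q0 P11 s0)
    (hY2 : YB Y2 Q1 P20 s1) (hY3 : YB Y3 Q1 P21 s0)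
    (hY4 : YB Y4 Q2 P00 s1) (hY5 : YB Y5 Q2 P01 s0)
    (hgood : Good c X t V S)
    (hg0 : c.gain = 0 →
      (∀ B, (c.rho0 : ℝ) / 1024 * s0 ≤ B → B ≤ s0 → B ≤ P00 + P01 ∨ s0 - B ≤ P10) ∧
      (∀ B, (c.rho1 : ℝ) / 1024 * s1 ≤ B → B ≤ s1 → B ≤ P00 + P01 ∨ s1 - B ≤ P11))
    (hg1 : c.gain = 1 →
      (∀ B, (c.rho0 : ℝ) / 1024 * s0 ≤ B → B ≤ s0 → B ≤ P10 + P11 ∨ s0 - B ≤ P20) ∧
      (∀ B, (c.rho1 : ℝ) / 1024 * s1 ≤ B → B ≤ s1 → B ≤ P10 + P11 ∨ s1 - B ≤ P21))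
    (hlc : c.lc = 0 ∨ c.lc = 1 ∨ c.lc = 3)
    (hT2 : 0 ≤ (c.T2 : ℝ))
    (hl00 : c.lc = 0 → c.eta = false → P00 + P01 ≤ s0 ∧ P10 ≤ (c.T2 : ℝ) / 1024 * s0)
    (hl01 : c.lc = 0 → c.eta = true → P00 + P01 ≤ s1 ∧ P11 ≤ (c.T2 : ℝ) / 1024 * s1)
    (hl10 : c.lc = 1 → c.eta = false → P10 + P11 ≤ s0 ∧ P20 ≤ (c.T2 : ℝ) / 1024 * s0)
    (hl11 : c.lc = 1 → c.eta = true → P10 + P11 ≤ s1 ∧ P21 ≤ (c.T2 : ℝ) / 1024 * s1) :
    Goal P00 P01 P10 P11 P20 P21 Q0 Q1 Q2 s0 s1 M0 M1 M2 M3 M4 M5 Y0 Y1 Y2 Y3 Y4 Y5 := by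
  obtain ⟨be0, be1, be2, be3, be4, be5, l1, l2, G0, G1, G2, G3, G4, G5,
    ⟨b0, b1, b2, b3, b4, b5, nl1, nl2⟩, ⟨g0, g1, g2, g3, g4, g5⟩, ⟨u0, u1, u2, u3, u4, u5⟩,
    r0, r1, ⟨eG0, eG1, eG2, eG3, eG4, eG5⟩, hF⟩ := hgood
  have hL0 : 0 < 2 * σ + q := by positivity
  have hw2 : (1 + X) * (1 - t) = 3 * Q2 / q := by
    have : 3 * Q0 / q + 3 * Q1 / q + 3 * Q2 / q = 3 := by
      rw [hq]; rw [hq] at hq0; field_simp
    linarith
  have hSp : 1 + S = 2 * s0 / σ := by rw [hS]; field_simp; rw [hσ]; ring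
  have hSm : 1 - S = 2 * s1 / σ := by rw [hS]; field_simp; rw [hσ]; ring
  rw [hX] at eG0 eG1 hF
  rw [hw2] at eG2 eG3 hF
  rw [ht] at eG4 eG5 hF
  rw [hSp] at u0 u2 u4 hF r0 r1
  rw [hSm] at u1 u3 u5 hF r0 r1
  rw [hV] at hF
  -- B parameters
  have Bs : ∀ be s : ℝ, 2 * be ≤ 3 * (2 * s / σ) → σ * be / 3 ≤ s := by
    intro be s h
    have := mul_le_mul_of_nonneg_left h hσ0.le
    have e : σ * (3 * (2 * s / σ)) = 6 * s := by field_simp; ring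
    rw [e] at this
    linarith
  have Br : ∀ be s r : ℝ, 3 * (2 * s / σ) * r ≤ 2 * be → r * s ≤ σ * be / 3 := by
    intro be s r h
    have := mul_le_mul_of_nonneg_left h hσ0.le
    have e : σ * (3 * (2 * s / σ) * r) = 6 * s * r := by field_simp; ring
    rw [e] at this
    linarith
  have conv : ∀ M be P P' s d : ℝ, M ≤ (σ * be / 3) * P' + (s - (σ * be / 3)) * P - d →
      M / σ ≤ be / 3 * P' + (s / σ) * P - be / 3 * P - d / σ := by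
    intro M be P P' s d h
    have := div_le_div_of_nonneg_right h hσ0.le
    have e : ((σ * be / 3) * P' + (s - (σ * be / 3)) * P - d) / σ =
      be / 3 * P' + (s / σ) * P - be / 3 * P - d / σ := by field_simp; ring
    rw [e] at this
    exact this
  have B0 : ∀ be : ℝ, 0 ≤ be → 0 ≤ σ * be / 3 := by intro be h; positivity
  -- gains
  have gainI : ∀ be s : ℝ, (2 * σ + q) / 36 * gr (2 * σ / (2 * σ + q)) (2 * s / σ) be =
      ((σ * be / 3) * (s - (σ * be / 3))) / σ := by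
    intro be s; unfold gr; field_simp; ring
  -- M bounds with deltas
  obtain ⟨d0, d1, d2, d3, d4, d5, m0, m1, m2, m3, m4, m5, hd⟩ : ∃ d0 d1 d2 d3 d4 d5 : ℝ,
      M0 ≤ (σ * be0 / 3) * P10 + (s0 - (σ * be0 / 3)) * (P00 + P01) - d0 ∧
      M1 ≤ (σ * be1 / 3) * P11 + (s1 - (σ * be1 / 3)) * (P00 + P01) - d1 ∧
      M2 ≤ (σ * be2 / 3) * P20 + (s0 - (σ * be2 / 3)) * (P10 + P11) - d2 ∧
      M3 ≤ (σ * be3 / 3) * P21 + (s1 - (σ * be3 / 3)) * (P10 + P11) - d3 ∧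
      M4 ≤ (σ * be4 / 3) * P00 + (s0 - (σ * be4 / 3)) * (P20 + P21) - d4 ∧
      M5 ≤ (σ * be5 / 3) * P01 + (s1 - (σ * be5 / 3)) * (P20 + P21) - d5 ∧
      (2 * σ + q) / 36 * ((if c.gain = 0 then gr (2 * σ / (2 * σ + q)) (2 * s0 / σ) be0 +
          gr (2 * σ / (2 * σ + q)) (2 * s1 / σ) be1 else 0) +
        (if c.gain = 1 then gr (2 * σ / (2 * σ + q)) (2 * s0 / σ) be2 +
          gr (2 * σ / (2 * σ + q)) (2 * s1 / σ) be3 else 0)) - 1 / 2 / σ ≤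
        (d0 + d1 + d2 + d3 + d4 + d5) / σ := by
    have pl0 := Mplain (B0 _ b0) (Bs _ _ u0) hM0
    have pl1 := Mplain (B0 _ b1) (Bs _ _ u1) hM1
    have pl2 := Mplain (B0 _ b2) (Bs _ _ u2) hM2
    have pl3 := Mplain (B0 _ b3) (Bs _ _ u3) hM3
    have pl4 := Mplain (B0 _ b4) (Bs _ _ u4) hM4
    have pl5 := Mplain (B0 _ b5) (Bs _ _ u5) hM5
    by_cases hg : c.gain = 0
    · obtain ⟨hga, hgb⟩ := hg0 hg
      obtain ⟨ra, rb⟩ := r0 hg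
      refine ⟨_, _, 0, 0, 0, 0,
        Mgain (B0 _ b0) (Bs _ _ u0) hM0 (hga _ (Br _ _ _ ra) (Bs _ _ u0)),
        Mgain (B0 _ b1) (Bs _ _ u1) hM1 (hgb _ (Br _ _ _ rb) (Bs _ _ u1)),
        by linarith, by linarith, by linarith, by linarith, ?_⟩
      have h1 : ¬ (c.gain = 1) := by omega
      rw [if_pos hg, if_neg h1, add_zero, mul_add, gainI, gainI]
      apply le_of_eq
      ring
    · by_cases hg' : c.gain = 1
      · obtain ⟨hga, hgb⟩ := hg1 hg'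
        obtain ⟨ra, rb⟩ := r1 hg'
        refine ⟨0, 0, _, _, 0, 0, by linarith, by linarith,
          Mgain (B0 _ b2) (Bs _ _ u2) hM2 (hga _ (Br _ _ _ ra) (Bs _ _ u2)),
          Mgain (B0 _ b3) (Bs _ _ u3) hM3 (hgb _ (Br _ _ _ rb) (Bs _ _ u3)),
          by linarith, by linarith, ?_⟩
        rw [if_neg hg, if_pos hg', zero_add, mul_add, gainI, gainI]
        apply le_of_eq
        ring
      · refine ⟨0, 0, 0, 0, 0, 0, by linarith, by linarith, by linarith, by linarith,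
          by linarith, by linarith, ?_⟩
        rw [if_neg hg, if_neg hg']
        have : 0 ≤ 1 / 2 / σ := by positivity
        simp only [add_zero, mul_zero, zero_div, zero_sub]
        linarith
  -- state terms
  obtain ⟨x0, x1, x2, x3, x4, x5, hx0, hx1, hx2, hx3, hx4, hx5, hx⟩ : ∃ x0 x1 x2 x3 x4 x5 : ℝ,
      G0 = 1 - 3 * Q1 / q + (be2 + be3) - be0 + x0 ∧
      G1 = 1 - 3 * Q1 / q + (be2 + be3) - be1 + x1 ∧
      G2 = 1 - 3 * Q2 / q + (be4 + be5) - be2 + x2 ∧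
      G3 = 1 - 3 * Q2 / q + (be4 + be5) - be3 + x3 ∧
      G4 = 1 - 3 * Q0 / q + (be0 + be1) - be4 + x4 ∧
      G5 = 1 - 3 * Q0 / q + (be0 + be1) - be5 + x5 ∧
      (x0 * P10 + x1 * P11 + x2 * P20 + x3 * P21 + x4 * P00 + x5 * P01) / 3 ≤
        (2 * σ + q) / 36 * (2 * σ / (2 * σ + q) * (3 * (l1 + l2 * ((c.T2 : ℝ) / 1024)) *
          (if c.eta then 2 * s1 / σ else 2 * s0 / σ))) := by
    have eT : ∀ s : ℝ, (2 * σ + q) / 36 * (2 * σ / (2 * σ + q) * (3 * (l1 + l2 * ((c.T2 : ℝ) / 1024)) *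
        (2 * s / σ))) = (l1 + l2 * ((c.T2 : ℝ) / 1024)) * s / 3 := by
      intro s; field_simp; ring
    have eT' : (2 * σ + q) / 36 * (2 * σ / (2 * σ + q) * (3 * (l1 + l2 * ((c.T2 : ℝ) / 1024)) *
          (if c.eta then 2 * s1 / σ else 2 * s0 / σ))) =
          (l1 + l2 * ((c.T2 : ℝ) / 1024)) * (if c.eta then s1 else s0) / 3 := by
      split_ifs
      · exact eT s1
      · exact eT s0
    rw [eT']
    refine ⟨G0 - (1 - 3 * Q1 / q + (be2 + be3) - be0), G1 - (1 - 3 * Q1 / q + (be2 + be3) - be1),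
      G2 - (1 - 3 * Q2 / q + (be4 + be5) - be2), G3 - (1 - 3 * Q2 / q + (be4 + be5) - be3),
      G4 - (1 - 3 * Q0 / q + (be0 + be1) - be4), G5 - (1 - 3 * Q0 / q + (be0 + be1) - be5),
      by ring, by ring, by ring, by ring, by ring, by ring, ?_⟩
    rcases hlc with h | h | h
    · cases he : c.eta
      · obtain ⟨k1, k2⟩ := hl00 h he
        have k1 := mul_le_mul_of_nonneg_left k1 nl1
        have k2 := mul_le_mul_of_nonneg_left k2 nl2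
        simp only [h, he] at eG0 eG1 eG2 eG3 eG4 eG5 ⊢
        norm_num at eG0 eG1 eG2 eG3 eG4 eG5 ⊢
        rw [eG0, eG1, eG2, eG3, eG4, eG5]
        linarith
      · obtain ⟨k1, k2⟩ := hl01 h he
        have k1 := mul_le_mul_of_nonneg_left k1 nl1
        have k2 := mul_le_mul_of_nonneg_left k2 nl2
        simp only [h, he] at eG0 eG1 eG2 eG3 eG4 eG5 ⊢
        norm_num at eG0 eG1 eG2 eG3 eG4 eG5 ⊢
        rw [eG0, eG1, eG2, eG3, eG4, eG5]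
        linarith
    · cases he : c.eta
      · obtain ⟨k1, k2⟩ := hl10 h he
        have k1 := mul_le_mul_of_nonneg_left k1 nl1
        have k2 := mul_le_mul_of_nonneg_left k2 nl2
        simp only [h, he] at eG0 eG1 eG2 eG3 eG4 eG5 ⊢
        norm_num at eG0 eG1 eG2 eG3 eG4 eG5 ⊢
        rw [eG0, eG1, eG2, eG3, eG4, eG5]
        linarith
      · obtain ⟨k1, k2⟩ := hl11 h he
        have k1 := mul_le_mul_of_nonneg_left k1 nl1
        have k2 := mul_le_mul_of_nonneg_left k2 nl2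
        simp only [h, he] at eG0 eG1 eG2 eG3 eG4 eG5 ⊢
        norm_num at eG0 eG1 eG2 eG3 eG4 eG5 ⊢
        rw [eG0, eG1, eG2, eG3, eG4, eG5]
        linarith
    · have hpos : 0 ≤ (l1 + l2 * ((c.T2 : ℝ) / 1024)) * (if c.eta then s1 else s0) / 3 := by
        have : 0 ≤ (if c.eta then s1 else s0) := by split_ifs <;> assumption
        positivity
      simp only [h] at eG0 eG1 eG2 eG3 eG4 eG5
      norm_num at eG0 eG1 eG2 eG3 eG4 eG5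
      rw [eG0, eG1, eG2, eG3, eG4, eG5]
      refine le_trans (le_of_eq ?_) hpos
      ring
  have y0 := Ybound hq0 hσ0 g0 hP10 hY0
  have y1 := Ybound hq0 hσ0 g1 hP11 hY1
  have y2 := Ybound hq0 hσ0 g2 hP20 hY2
  have y3 := Ybound hq0 hσ0 g3 hP21 hY3
  have y4 := Ybound hq0 hσ0 g4 hP00 hY4
  have y5 := Ybound hq0 hσ0 g5 hP01 hY5
  have hs : s0 / σ + s1 / σ = 1 := by rw [← add_div, ← hσ]; exact div_self hσ0.ne'
  have res := combine P00 P01 P10 P11 P20 P21 Q0 Q1 Q2 s0 s1 q σ (2 * σ + q) be0 be1 be2 be3 be4 be5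
    G0 G1 G2 G3 G4 G5 x0 x1 x2 x3 x4 x5 d0 d1 d2 d3 d4 d5 _ _ _ _ _ _ M0 M1 M2 M3 M4 M5
    Y0 Y1 Y2 Y3 Y4 Y5 hs (conv _ _ _ _ _ _ m0) (conv _ _ _ _ _ _ m1) (conv _ _ _ _ _ _ m2)
    (conv _ _ _ _ _ _ m3) (conv _ _ _ _ _ _ m4) (conv _ _ _ _ _ _ m5) y0 y1 y2 y3 y4 y5
    hx0 hx1 hx2 hx3 hx4 hx5 ?_
  · unfold Goal
    rw [← hq, ← hσ]
    exact res
  · have hFL := mul_le_mul_of_nonneg_left hF (by positivity : 0 ≤ (2 * σ + q) / 36)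
    rw [mul_zero] at hFL
    have e1 : (2 * σ + q) / 36 * (-6 - 12 * (2 * σ / (2 * σ + q))) = -(σ + q / 6) := by
      field_simp; ring
    have e2 : (3 : ℝ) / 2 * (2 / q + 1 / σ) + 1 / 2 / σ ≤ 3 / q + 3 / σ := by
      have : 0 ≤ 1 / σ := by positivity
      have e : (3 : ℝ) / 2 * (2 / q + 1 / σ) + 1 / 2 / σ = 3 / q + 2 * (1 / σ) := by ring
      rw [e]
      have e' : (3 : ℝ) / σ = 3 * (1 / σ) := by ring
      rw [e']
      linarith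
    generalize (if c.gain = 0 then gr (2 * σ / (2 * σ + q)) (2 * s0 / σ) be0 +
          gr (2 * σ / (2 * σ + q)) (2 * s1 / σ) be1 else 0) = A1 at *
    generalize (if c.gain = 1 then gr (2 * σ / (2 * σ + q)) (2 * s0 / σ) be2 +
          gr (2 * σ / (2 * σ + q)) (2 * s1 / σ) be3 else 0) = A2 at *
    generalize 2 * σ / (2 * σ + q) * (3 * (l1 + l2 * ((c.T2 : ℝ) / 1024)) *
          (if c.eta then 2 * s1 / σ else 2 * s0 / σ)) = A3 at *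
    linarith

end
end CB
end Ap013
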